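import Pool.Agent.H34.RQ.L2

/-!
# A4 (helper34, MP_fbf562_RQ): automorphisms of `GG` fixing `mu`

`A4_KK` : `θ` maps `KK` to `KK` : `mem_KK_iff` (`g` commutes with `mu` implies `θ g` commutes with `θ mu = mu`).

`A4_deg` : `gDeg (θ g) = gDeg g` : `gHom_unique` for `gDeg.comp θ.toMonoidHom` and `gDeg`.

`A4_out` : `θ (of i (tA (qq i))) ∉ KK`: otherwise it commutes with `mu = θ mu`, so `of i (tA _)` commutes with `mu`, i.e. (`of_merHom` with
`n = 1`, `PushoutI.of_injective`) `tA` commutes with `tMu` in `TG (qq i)`; then `(tA)⁻¹ * (tMu ^ 1 * tZ ^ 0) * tA = tMu ^ 1` and `T0` gives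
`tA = tMu ^ s * tZ ^ t`, contradiction with `tA_not`.

`A4` : `zz i` commutes with `of i (tA _)` (`zz_comm_of`), so `θ (zz i) ∈ KK` (`A4_KK`, `zz_mem`) commutes with `θ (of i (tA _)) ∉ KK`:
by `L2` `θ (zz i) = c * zz j ^ n * c⁻¹` with `c ∈ KK`. Degrees (`gDeg_zz`, `A4_deg`; `Multiplicative ℤ` is commutative):
`2 * qq i = n * (2 * qq j)`. With `qq ∈ {3, 5, 7}` this forces `j = i` and `n = 1` (nine cases, omega).
-/

namespace RQ

open Monoid

theorem A4_KK {θ : MulAut GG} (h : θ mu = mu) {g : GG} (hg : g ∈ KK) : θ g ∈ KK := by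
  rw [mem_KK_iff] at hg ⊢
  have h1 := hg.map θ.toMonoidHom
  have h2 : Commute (θ g) (θ mu) := h1
  rwa [h] at h2

theorem A4_deg {θ : MulAut GG} (h : θ mu = mu) (g : GG) : gDeg (θ g) = gDeg g := by
  have h1 : gDeg.comp θ.toMonoidHom = gDeg := by
    apply gHom_unique
    change gDeg (θ mu) = gDeg mu
    rw [h]
  have h2 := congrArg (fun f : GG →* Multiplicative ℤ => f g) h1
  exact h2

theorem A4_out {θ : MulAut GG} (h : θ mu = mu) (i : Fin 3) :
    θ (PushoutI.of i (tA (qq i))) ∉ KK := by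
  intro hk
  rw [mem_KK_iff] at hk
  have h1 : θ (PushoutI.of i (tA (qq i))) * θ mu = θ mu * θ (PushoutI.of i (tA (qq i))) := by
    rw [h]; exact hk.eq
  rw [← map_mul, ← map_mul] at h1
  have h2 := θ.injective h1
  have h3 := of_merHom i 1
  rw [zpow_one, zpow_one] at h3
  rw [← h3, ← map_mul, ← map_mul] at h2
  have h4 := PushoutI.of_injective GG_inj i h2
  have h5 : (tA (qq i))⁻¹ * (tMu (qq i) ^ (1 : ℤ) * tZ (qq i) ^ (0 : ℤ)) * tA (qq i) =
      tMu (qq i) ^ (1 : ℤ) := by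
    rw [zpow_one, zpow_zero, mul_one, mul_assoc, ← h4, inv_mul_cancel_left]
  obtain ⟨_, _, s, t, h6⟩ := T0 (qq_ge i) (qq_odd i) h5 (Or.inl one_ne_zero)
  exact tA_not (qq_ge i) (qq_odd i) s t h6

theorem A4_num {i j : Fin 3} {n : ℤ} (h : 2 * qq i = n * (2 * qq j)) : j = i ∧ n = 1 := by
  fin_cases i <;> fin_cases j <;> simp [qq] at h ⊢ <;> omega

theorem A4 {θ : MulAut GG} (h : θ mu = mu) (i : Fin 3) : ∃ c ∈ KK, θ (zz i) = c * zz i * c⁻¹ := by
  have h1 : θ (zz i) ∈ KK := A4_KK h (zz_mem i)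
  have h2 : θ (zz i) * θ (PushoutI.of i (tA (qq i))) =
      θ (PushoutI.of i (tA (qq i))) * θ (zz i) := by
    rw [← map_mul, ← map_mul, (zz_comm_of i (tA (qq i))).eq]
  obtain ⟨c, hc, j, n, h3⟩ := L2 h1 (A4_out h i) h2
  have h4 := A4_deg h (zz i)
  rw [h3, map_mul, map_mul, map_inv, mul_comm (gDeg c), mul_inv_cancel_right, map_zpow, gDeg_zz,
    gDeg_zz, ← ofAdd_zsmul] at h4
  have h5 := Multiplicative.ofAdd.injective h4
  rw [smul_eq_mul] at h5
  obtain ⟨rfl, rfl⟩ := A4_num h5.symm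
  exact ⟨c, hc, by rw [h3, zpow_one]⟩

end RQ
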