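import Pool.Agent.H34.RQ.A4

/-!
# A5 (helper34, MP_fbf562_RQ): the homomorphism from the automorphisms fixing `mu` to the Heisenberg group

`psi c = (hh (c 0))⁻¹ * ww c`, `ww c = hh (c 2) * Y ^ ((hh (c 1)).y - (hh (c 2)).y)`.
In the Heisenberg group `g * X * g⁻¹ = (1, 0, - g.y)`, `g * Y * g⁻¹ = (0, 1, g.x)` (direct computation, `Heis.ext`).

`A5_conj` : for `k ∈ KK`: `hh (θ k) = ww c * hh k * (ww c)⁻¹`. Both sides are multiplicative on `KK` (`hh_mul`, `A4_KK`), so by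
`KK_hom_ext` check `mu` (`θ mu = mu`, `hh_mu`) and `zz i`: `hh (θ (zz i)) = hh (c i) * hh (zz i) * (hh (c i))⁻¹`. `i = 0`: both sides
are `1`. `i = 1`: both sides only depend on the `y` coordinate of `hh (c 1)`, `ww c`, which are equal. `i = 2`: only the `x`
coordinates of `hh (c 2)` and `ww c`, which are equal.

`A5_comp` : for `θ, θ'` with data `c, c'` the composition `θ * θ'` has the data `d i = θ (c' i) * c i`:
`θ (θ' (zz i)) = θ (c' i) * θ (zz i) * θ (c' i)⁻¹`. And `psi d = psi c * psi c'`. Proof. By `A5_conj`, `hh (θ (c' i)) = w * hh (c' i) * w⁻¹`,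
`w = ww c`; so `hh (d i) = w * hh (c' i) * w⁻¹ * hh (c i)`. The coordinates `x`, `y` are additive, so
`(hh (d 1)).y - (hh (d 2)).y = e + e'` with `e = (hh (c 1)).y - (hh (c 2)).y` and `e'` similarly. Since `w⁻¹ * hh (c 2) = Y ^ (-e)`:
`ww d = w * hh (c' 2) * Y ^ (-e) * Y ^ (e + e') = w * ww c'`. And
`psi d = (w * hh (c' 0) * w⁻¹ * hh (c 0))⁻¹ * w * ww c' = (hh (c 0))⁻¹ * w * (hh (c' 0))⁻¹ * ww c' = psi c * psi c'`.

`A5_uniq` : if `c` and `c'` are two data for the same `θ`, then `(c i)⁻¹ * c' i` is in `KK` and commutes with `zz i`, so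
`c' i = c i * (mu ^ a * zz i ^ b)` (`L3`); `hh (c' i) = hh (c i) * (hh (zz i)) ^ b`. For `i = 0`: `hh (c' 0) = hh (c 0)`. For `i = 1`:
`(hh (c' 1)).y = (hh (c 1)).y`. For `i = 2`: `hh (c' 2) = hh (c 2) * Y ^ b`, so `ww c' = hh (c 2) * Y ^ b * Y ^ (y1 - y2 - b) = ww c`.
-/

namespace RQ

open Monoid

/-- `c` is a datum of conjugating elements for the automorphism `θ`. -/
def IsDat (θ : MulAut GG) (c : Fin 3 → GG) : Prop :=
  (∀ i, c i ∈ KK) ∧ ∀ i, θ (zz i) = c i * zz i * (c i)⁻¹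

/-- The element `w`. -/
noncomputable def ww (c : Fin 3 → GG) : Heis :=
  hh (c 2) * Heis.Y ^ ((hh (c 1)).y - (hh (c 2)).y)

/-- The element `ψ`. -/
noncomputable def psi (c : Fin 3 → GG) : Heis := (hh (c 0))⁻¹ * ww c

theorem psi_x (c : Fin 3 → GG) : (psi c).x = (hh (c 2)).x - (hh (c 0)).x := by
  simp only [psi, ww, Heis.mul_x, Heis.inv_x, Heis.zpow_x, Heis.Y_x]
  ring

theorem psi_y (c : Fin 3 → GG) : (psi c).y = (hh (c 1)).y - (hh (c 0)).y := by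
  simp only [psi, ww, Heis.mul_y, Heis.inv_y, Heis.zpow_y, Heis.Y_y]
  ring

theorem A5_wx (c : Fin 3 → GG) : (ww c).x = (hh (c 2)).x := by
  simp only [ww, Heis.mul_x, Heis.zpow_x, Heis.Y_x]
  ring

theorem A5_wy (c : Fin 3 → GG) : (ww c).y = (hh (c 1)).y := by
  simp only [ww, Heis.mul_y, Heis.zpow_y, Heis.Y_y]
  ring

theorem A5_cX (g : Heis) : g * Heis.X * g⁻¹ = ⟨1, 0, -g.y⟩ := by
  have h1 : Heis.X.z = 0 := rfl
  ext <;> simp [h1]
  ring

theorem A5_cY (g : Heis) : g * Heis.Y * g⁻¹ = ⟨0, 1, g.x⟩ := by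
  have h1 : Heis.Y.z = 0 := rfl
  ext <;> simp [h1]
  ring

theorem A5_ex {θ : MulAut GG} (h : θ mu = mu) : ∃ c, IsDat θ c := by
  choose c hc h1 using fun i => A4 h i
  exact ⟨c, hc, h1⟩

theorem A5_conj {θ : MulAut GG} (h : θ mu = mu) {c : Fin 3 → GG} (hc : IsDat θ c) {k : GG}
    (hk : k ∈ KK) : hh (θ k) = ww c * hh k * (ww c)⁻¹ := by
  refine KK_hom_ext (fun k => hh (θ k)) (fun k => ww c * hh k * (ww c)⁻¹) ?_ ?_ ?_ ?_ k hk
  · intro a ha b hb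
    show hh (θ (a * b)) = hh (θ a) * hh (θ b)
    rw [map_mul, hh_mul (A4_KK h ha) (A4_KK h hb)]
  · intro a ha b hb
    show ww c * hh (a * b) * (ww c)⁻¹ = ww c * hh a * (ww c)⁻¹ * (ww c * hh b * (ww c)⁻¹)
    rw [hh_mul ha hb]
    group
  · show hh (θ mu) = ww c * hh mu * (ww c)⁻¹
    rw [h, hh_mu]
    group
  · intro i
    show hh (θ (zz i)) = ww c * hh (zz i) * (ww c)⁻¹
    rw [hc.2 i, hh_mul (KK.mul_mem (hc.1 i) (zz_mem i)) (KK.inv_mem (hc.1 i)),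
      hh_mul (hc.1 i) (zz_mem i), hh_inv (hc.1 i)]
    fin_cases i
    · show hh (c 0) * hh (zz 0) * (hh (c 0))⁻¹ = ww c * hh (zz 0) * (ww c)⁻¹
      rw [hh_zz0]
      group
    · show hh (c 1) * hh (zz 1) * (hh (c 1))⁻¹ = ww c * hh (zz 1) * (ww c)⁻¹
      rw [hh_zz1, A5_cX, A5_cX, A5_wy]
    · show hh (c 2) * hh (zz 2) * (hh (c 2))⁻¹ = ww c * hh (zz 2) * (ww c)⁻¹
      rw [hh_zz2, A5_cY, A5_cY, A5_wx]

theorem A5_comp {θ θ' : MulAut GG} (h : θ mu = mu) (h' : θ' mu = mu) {c c' : Fin 3 → GG}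
    (hc : IsDat θ c) (hc' : IsDat θ' c') :
    IsDat (θ * θ') (fun i => θ (c' i) * c i) ∧
      psi (fun i => θ (c' i) * c i) = psi c * psi c' := by
  have hd : ∀ i, hh (θ (c' i) * c i) = ww c * hh (c' i) * (ww c)⁻¹ * hh (c i) := by
    intro i
    rw [hh_mul (A4_KK h (hc'.1 i)) (hc.1 i), A5_conj h hc (hc'.1 i)]
  refine ⟨⟨fun i => KK.mul_mem (A4_KK h (hc'.1 i)) (hc.1 i), fun i => ?_⟩, ?_⟩
  · show θ (θ' (zz i)) = θ (c' i) * c i * zz i * (θ (c' i) * c i)⁻¹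
    have key : ∀ a b : GG, (a * b)⁻¹ = b⁻¹ * a⁻¹ := fun a b => mul_inv_rev a b
    rw [hc'.2 i, map_mul, map_mul, map_inv, hc.2 i, key]
    simp only [mul_assoc]
  · have hy : (hh (θ (c' 1) * c 1)).y - (hh (θ (c' 2) * c 2)).y =
        ((hh (c 1)).y - (hh (c 2)).y) + ((hh (c' 1)).y - (hh (c' 2)).y) := by
      rw [hd, hd]
      simp only [Heis.mul_y, Heis.inv_y]
      ring
    have hw : ww (fun i => θ (c' i) * c i) = ww c * ww c' := by
      have e1 : ww (fun i => θ (c' i) * c i) = hh (θ (c' 2) * c 2) *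
          Heis.Y ^ ((hh (θ (c' 1) * c 1)).y - (hh (θ (c' 2) * c 2)).y) := rfl
      have e2 : (ww c)⁻¹ * hh (c 2) = (Heis.Y ^ ((hh (c 1)).y - (hh (c 2)).y))⁻¹ := by
        unfold ww
        group
      have e3 : ww c' = hh (c' 2) * Heis.Y ^ ((hh (c' 1)).y - (hh (c' 2)).y) := rfl
      rw [e1, hy, hd, zpow_add, e3]
      calc ww c * hh (c' 2) * (ww c)⁻¹ * hh (c 2) * (Heis.Y ^ ((hh (c 1)).y - (hh (c 2)).y) *
            Heis.Y ^ ((hh (c' 1)).y - (hh (c' 2)).y))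
          = ww c * hh (c' 2) * ((ww c)⁻¹ * hh (c 2)) * (Heis.Y ^ ((hh (c 1)).y - (hh (c 2)).y) *
            Heis.Y ^ ((hh (c' 1)).y - (hh (c' 2)).y)) := by group
        _ = _ := by
          rw [e2]
          group
    have e4 : psi (fun i => θ (c' i) * c i) =
        (hh (θ (c' 0) * c 0))⁻¹ * ww (fun i => θ (c' i) * c i) := rfl
    rw [e4, hw, hd]
    unfold psi
    group

theorem A5_one {θ : MulAut GG} {c c' : Fin 3 → GG} (hc : IsDat θ c) (hc' : IsDat θ c')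
    (i : Fin 3) : ∃ b : ℤ, hh (c' i) = hh (c i) * hh (zz i) ^ b := by
  have h1 : c i * zz i * (c i)⁻¹ = c' i * zz i * (c' i)⁻¹ := by rw [← hc.2 i, ← hc'.2 i]
  have h2 : Commute ((c i)⁻¹ * c' i) (zz i) := by
    show (c i)⁻¹ * c' i * zz i = zz i * ((c i)⁻¹ * c' i)
    have h3 : c' i * zz i = c i * zz i * (c i)⁻¹ * c' i := by
      rw [h1]
      group
    calc (c i)⁻¹ * c' i * zz i = (c i)⁻¹ * (c' i * zz i) := by group
      _ = (c i)⁻¹ * (c i * zz i * (c i)⁻¹ * c' i) := by rw [h3]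
      _ = _ := by group
  obtain ⟨a, b, hab⟩ := L3 (KK.mul_mem (KK.inv_mem (hc.1 i)) (hc'.1 i)) h2
  refine ⟨b, ?_⟩
  have h4 : c' i = c i * (mu ^ a * zz i ^ b) := by
    rw [← hab]
    group
  have m1 : mu ^ a ∈ KK := KK.zpow_mem mu_mem a
  have m2 : zz i ^ b ∈ KK := KK.zpow_mem (zz_mem i) b
  rw [h4, hh_mul (hc.1 i) (KK.mul_mem m1 m2), hh_mul m1 m2, hh_zpow mu_mem, hh_zpow (zz_mem i),
    hh_mu, one_zpow, one_mul]

theorem A5_uniq {θ : MulAut GG} {c c' : Fin 3 → GG} (hc : IsDat θ c) (hc' : IsDat θ c') :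
    psi c = psi c' := by
  obtain ⟨b0, h0⟩ := A5_one hc hc' 0
  obtain ⟨b1, h1⟩ := A5_one hc hc' 1
  obtain ⟨b2, h2⟩ := A5_one hc hc' 2
  rw [hh_zz0, one_zpow, mul_one] at h0
  rw [hh_zz1] at h1
  rw [hh_zz2] at h2
  have y1 : (hh (c' 1)).y = (hh (c 1)).y := by
    rw [h1]
    simp only [Heis.mul_y, Heis.zpow_y, Heis.X_y]
    ring
  have y2 : (hh (c' 2)).y = (hh (c 2)).y + b2 := by
    rw [h2]
    simp only [Heis.mul_y, Heis.zpow_y, Heis.Y_y]
    ring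
  have hw : ww c' = ww c := by
    unfold ww
    rw [y1, y2, h2, mul_assoc, ← zpow_add]
    congr 2
    ring
  unfold psi
  rw [h0, hw]

/-- The conclusion: a homomorphism to the Heisenberg group from any operation of paths. `Φ p = psi c` for any datum of `T p`. -/
theorem A5_main {P : Type} (T : P → MulAut GG) (hmu : ∀ p, T p mu = mu) :
    ∃ Φ : P → Heis, (∀ p c, IsDat (T p) c → Φ p = psi c) ∧
      (∀ p q r, T r = T p * T q → Φ r = Φ p * Φ q) ∧ ∀ p q, T p = T q → Φ p = Φ q := by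
  choose c hc using fun p => A5_ex (hmu p)
  refine ⟨fun p => psi (c p), fun p d hd => A5_uniq (hc p) hd, ?_, ?_⟩
  · intro p q r h
    obtain ⟨h1, h2⟩ := A5_comp (hmu p) (hmu q) (hc p) (hc q)
    rw [← h] at h1
    exact (A5_uniq (hc r) h1).trans h2
  · intro p q h
    have h1 := hc q
    rw [← h] at h1
    exact A5_uniq (hc p) h1

end RQ
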