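import Pool.Agent.H34.RQ.Heis

/-!
# Amalgams (helper34, MP_fbf562_gt)

Reduced lists in the amalgam `PushoutI φ`, the groups `⟨a, b | a ^ q = b ^ 2⟩` and their amalgam
along the meridians.
-/

namespace RQ

open Monoid

section Generic

variable {ι H : Type} {G : ι → Type} [∀ i, Group (G i)] [Group H] (φ : ∀ i, H →* G i)

/-- A list of letters is reduced: adjacent letters belong to different factors, and no letter is in
the amalgamated subgroup. -/
def Rd (l : List (Σ i, G i)) : Prop :=
  l.IsChain (fun x y => x.1 ≠ y.1) ∧ ∀ x ∈ l, x.2 ∉ (φ x.1).range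

/-- The product of a list of letters in the amalgam. -/
def Pr (l : List (Σ i, G i)) : PushoutI φ :=
  (l.map (fun x => (PushoutI.of x.1 x.2 : PushoutI φ))).prod

/-- The amalgamated subgroup. -/
def Am : Subgroup (PushoutI φ) := (PushoutI.base φ).range

/-- The amalgam is nondegenerate. -/
def Inj : Prop := ∀ i, Function.Injective (φ i)

end Generic

/-- The two maps `ℤ → ℤ` with `1 ↦ q` (index `false`) and `1 ↦ 2` (index `true`). -/
def torPhi (q : ℤ) (b : Bool) : Multiplicative ℤ →* Multiplicative ℤ :=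
  zpowersHom (Multiplicative ℤ) (Multiplicative.ofAdd (if b then 2 else q))

/-- The group `⟨a, b | a ^ q = b ^ 2⟩`. -/
abbrev TG (q : ℤ) : Type := PushoutI (torPhi q)

/-- The generator `a`. -/
def tA (q : ℤ) : TG q := PushoutI.of false (Multiplicative.ofAdd (1 : ℤ))

/-- The generator `b`. -/
def tB (q : ℤ) : TG q := PushoutI.of true (Multiplicative.ofAdd (1 : ℤ))

/-- The meridian `a ^ ((q + 1) / 2) b⁻¹`. -/
def tMu (q : ℤ) : TG q := tA q ^ ((q + 1) / 2) * (tB q)⁻¹

/-- The central element `a ^ q`. -/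
def tZ (q : ℤ) : TG q := tA q ^ q

/-- The inclusion of the subgroup generated by the meridian. -/
def merHom (q : ℤ) : Multiplicative ℤ →* TG q := zpowersHom (TG q) (tMu q)

/-- The three exponents. -/
def qq : Fin 3 → ℤ := ![3, 5, 7]

/-- The amalgam of the three groups along their meridians. -/
abbrev GG : Type := PushoutI (fun i : Fin 3 => merHom (qq i))

/-- The meridian. -/
def mu : GG := PushoutI.base _ (Multiplicative.ofAdd (1 : ℤ))

/-- The central element of the `i`-th factor. -/
def zz (i : Fin 3) : GG := PushoutI.of i (tZ (qq i))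

theorem tB_sq (q : ℤ) : tB q ^ 2 = tZ q := by
  have h1 : (PushoutI.of false (torPhi q false (Multiplicative.ofAdd 1)) : TG q) =
      PushoutI.of true (torPhi q true (Multiplicative.ofAdd 1)) := by
    rw [PushoutI.of_apply_eq_base, PushoutI.of_apply_eq_base]
  have h2 : torPhi q false (Multiplicative.ofAdd 1) = (Multiplicative.ofAdd (1 : ℤ)) ^ q := by
    simp [torPhi, ← ofAdd_zsmul]
  have h3 : torPhi q true (Multiplicative.ofAdd 1) = (Multiplicative.ofAdd (1 : ℤ)) ^ 2 := by
    simp [torPhi, ← ofAdd_nsmul]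
  rw [h2, h3, map_zpow, map_pow] at h1
  exact h1.symm

theorem of_merHom (i : Fin 3) (n : ℤ) : (PushoutI.of i (tMu (qq i) ^ n) : GG) = mu ^ n := by
  have h := PushoutI.of_apply_eq_base (fun i : Fin 3 => merHom (qq i)) i (Multiplicative.ofAdd n)
  have h1 : merHom (qq i) (Multiplicative.ofAdd n) = tMu (qq i) ^ n := by
    simp [merHom, zpowersHom_apply]
  have h2 : (Multiplicative.ofAdd n : Multiplicative ℤ) = (Multiplicative.ofAdd (1 : ℤ)) ^ n := by
    simp [← ofAdd_zsmul]
  rw [h1] at h
  rw [h, h2, map_zpow]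
  rfl

end RQ
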