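import Pool.Agent.H34.RQ.ADefs

/-!
# Am1 (helper34, MP_fbf562_RQ): reduced lists in an amalgam

Write `A = Am φ` (the image of `base φ`).

`Am1_nil`: Mathlib: `Monoid.PushoutI.Reduced.eq_empty_of_mem_range` (file Mathlib/GroupTheory/PushoutI.lean): build the
word `w : CoprodI.Word G` with `w.toList = l` (its letters are not `1` because `1` is in the range of `φ i`, its chain
condition is the first half of `Rd`), show `PushoutI.ofCoprodI w.prod = Pr φ l` (`Word.prod`, `map_list_prod`,
`ofCoprodI_of`), conclude.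

`Am1_inv`: the list `(l.map (fun x => ⟨x.1, x.2⁻¹⟩)).reverse` is reduced and has product `(Pr φ l)⁻¹`
(`List.prod_inv_reverse`, `List.isChain_reverse`, `List.isChain_map`).

`Am1_app`: append of reduced lists with different indices at the junction is reduced, `Pr` is multiplicative.

`Am1_abs`: absorb an element of the amalgamated subgroup on the left: for `x :: t` take
`⟨x.1, φ x.1 a * x.2⟩ :: t`. For a nonempty list on the right: write `l = s ++ [x]`, take `s ++ [⟨x.1, x.2 * φ x.1 a⟩]`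
(`List.eq_nil_or_concat`); use `PushoutI.of_apply_eq_base`.

`Am1_uniq`: prove by induction on `l`, generalizing `l'` and `a`.
* `l = []`: `base a * Pr l' ∈ A` so `Pr l' ∈ A`, `l' = []` by `Am1_nil`.
* `l = x :: t`, `l' = []`: `(Pr l)⁻¹ * base a ∈ A` so `Pr l ∈ A`, contradiction with `Am1_nil`.
* `l = x :: t`, `l' = x' :: t'`, `x.1 ≠ x'.1`: the list `inv l ++ (⟨x'.1, φ _ a * x'.2⟩ :: t')` is reduced, nonempty and its
  product is `(Pr l)⁻¹ * base a * Pr l' ∈ A`: contradiction.
* same index `i` (use `obtain ⟨i, x⟩`, `subst`): `y := x⁻¹ * φ i a * x'`. If `y` is not in the range of `φ i`, the list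
  `inv t ++ ⟨i, y⟩ :: t'` is reduced with product `(Pr l)⁻¹ * base a * Pr l'`: contradiction. So `y = φ i b` and
  `(Pr t)⁻¹ * base b * Pr t' = (Pr l)⁻¹ * base a * Pr l' ∈ A`: induction. The prefix statement for `k + 1` follows from
  the one for `k` for `t, t', b` since `(Pr (x :: t.take k))⁻¹ * base a * Pr (x' :: t'.take k) =
  (Pr (t.take k))⁻¹ * base b * Pr (t'.take k)`; for `k = 0` it is `base a ∈ A`.

`Am1_ex`: first show: if `g = Pr l * base a` with `l` reduced, then for every letter `of i x * g` and every `base b * g` has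
the same form. (`base b * g`: `Am1_abs`. Letter: if `x ∈ range φ i` it is `base b`. If `l = []`: list `[⟨i, x⟩]`. If
`l = ⟨j, y⟩ :: t`, `j ≠ i`: `⟨i,x⟩ :: l`. If `j = i`: `w = x * y`; if `w = φ i b` use `base b * (Pr t * base a)` and
`Am1_abs`; otherwise `⟨i, w⟩ :: t`.) Then for all `g'`, (g has a form ⇒ g' * g has a form), by
`PushoutI.induction_on g'`. Take `g = 1`.
-/

namespace RQ

open Monoid

variable {ι H : Type} {G : ι → Type} [∀ i, Group (G i)] [Group H] {φ : ∀ i, H →* G i}

theorem Am1_rd_iff {l : List (Σ i, G i)} :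
    Rd φ l ↔ (l.map Sigma.fst).IsChain (· ≠ ·) ∧ ∀ x ∈ l, x.2 ∉ (φ x.1).range := by
  unfold Rd
  rw [List.isChain_map]

theorem Am1_Pr_nil : Pr φ ([] : List (Σ i, G i)) = 1 := rfl

theorem Am1_Pr_cons (x : Σ i, G i) (l : List (Σ i, G i)) :
    Pr φ (x :: l) = PushoutI.of x.1 x.2 * Pr φ l := by
  unfold Pr
  rw [List.map_cons, List.prod_cons]

theorem Am1_tail {x : Σ i, G i} {t : List (Σ i, G i)} (h : Rd φ (x :: t)) : Rd φ t :=
  ⟨h.1.tail, fun y hy => h.2 y (List.mem_cons_of_mem _ hy)⟩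

theorem Am1_nil (hφ : Inj φ) {l : List (Σ i, G i)} (hl : Rd φ l) (h : Pr φ l ∈ Am φ) : l = [] := by
  have hne : ∀ x ∈ l, x.2 ≠ 1 := fun x hx h1 => hl.2 x hx (h1 ▸ one_mem _)
  let w : CoprodI.Word G := ⟨l, hne, hl.1⟩
  have hw : PushoutI.Reduced φ w := hl.2
  have hprod : (PushoutI.ofCoprodI w.prod : PushoutI φ) = Pr φ l := by
    show PushoutI.ofCoprodI (List.prod (l.map fun x => CoprodI.of x.snd)) = Pr φ l
    unfold Pr
    rw [map_list_prod, List.map_map]
    congr 1
  have h2 := hw.eq_empty_of_mem_range hφ (by rw [hprod]; exact h)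
  exact congrArg CoprodI.Word.toList h2

theorem Am1_inv {l : List (Σ i, G i)} (hl : Rd φ l) :
    Rd φ ((l.map (fun x => (⟨x.1, x.2⁻¹⟩ : Σ i, G i))).reverse) ∧
      Pr φ ((l.map (fun x => (⟨x.1, x.2⁻¹⟩ : Σ i, G i))).reverse) = (Pr φ l)⁻¹ := by
  refine ⟨⟨?_, ?_⟩, ?_⟩
  · rw [List.isChain_reverse, List.isChain_map]
    exact hl.1.imp fun a b h => Ne.symm h
  · intro x hx
    rw [List.mem_reverse, List.mem_map] at hx
    obtain ⟨y, hy, rfl⟩ := hx
    intro h
    exact hl.2 y hy ((Subgroup.inv_mem_iff _).mp h)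
  · unfold Pr
    rw [List.prod_inv_reverse, List.map_reverse, List.map_map, List.map_map]
    congr 2

theorem Am1_Pr_append (l l' : List (Σ i, G i)) : Pr φ (l ++ l') = Pr φ l * Pr φ l' := by
  unfold Pr
  rw [List.map_append, List.prod_append]

theorem Am1_app {l l' : List (Σ i, G i)} (hl : Rd φ l) (hl' : Rd φ l')
    (h : (l.map Sigma.fst ++ l'.map Sigma.fst).IsChain (· ≠ ·)) : Rd φ (l ++ l') := by
  rw [Am1_rd_iff]
  refine ⟨by rwa [List.map_append], ?_⟩
  intro x hx
  rcases List.mem_append.mp hx with hx | hx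
  · exact hl.2 x hx
  · exact hl'.2 x hx

theorem Am1_repl {x : Σ i, G i} {t : List (Σ i, G i)} (h : Rd φ (x :: t)) {y : G x.1}
    (hy : y ∉ (φ x.1).range) : Rd φ (⟨x.1, y⟩ :: t) := by
  rw [Am1_rd_iff] at h ⊢
  refine ⟨h.1, ?_⟩
  intro z hz
  rcases List.mem_cons.mp hz with rfl | hz
  · exact hy
  · exact h.2 z (List.mem_cons_of_mem _ hz)

theorem Am1_abs_left {x : Σ i, G i} {t : List (Σ i, G i)} (h : Rd φ (x :: t)) (a : H) :
    Rd φ (⟨x.1, φ x.1 a * x.2⟩ :: t) ∧
      Pr φ (⟨x.1, φ x.1 a * x.2⟩ :: t) = PushoutI.base φ a * Pr φ (x :: t) := by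
  refine ⟨Am1_repl h ?_, ?_⟩
  · intro h1
    exact h.2 x List.mem_cons_self ((Subgroup.mul_mem_cancel_left (φ x.1).range (MonoidHom.mem_range.mpr ⟨a, rfl⟩)).mp h1)
  · rw [Am1_Pr_cons, Am1_Pr_cons]
    show PushoutI.of x.1 (φ x.1 a * x.2) * Pr φ t = _
    rw [map_mul, PushoutI.of_apply_eq_base, mul_assoc]

/-- Absorb an element of the base on the left of a reduced list. -/
theorem Am1_abs {l : List (Σ i, G i)} (h : Rd φ l) (hne : l ≠ []) (a : H) :
    ∃ l', Rd φ l' ∧ l'.map Sigma.fst = l.map Sigma.fst ∧ Pr φ l' = PushoutI.base φ a * Pr φ l := by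
  cases l with
  | nil => exact absurd rfl hne
  | cons x t =>
    obtain ⟨h1, h2⟩ := Am1_abs_left h a
    exact ⟨_, h1, rfl, h2⟩

/-- Absorb an element of the base on the right of a reduced list. -/
theorem Am1_abs_right {l : List (Σ i, G i)} (h : Rd φ l) (hne : l ≠ []) (a : H) :
    ∃ l', Rd φ l' ∧ l'.map Sigma.fst = l.map Sigma.fst ∧ Pr φ l' = Pr φ l * PushoutI.base φ a := by
  rcases List.eq_nil_or_concat l with rfl | ⟨s, x, rfl⟩
  · exact absurd rfl hne
  · rw [List.concat_eq_append] at h ⊢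
    refine ⟨s ++ [⟨x.1, x.2 * φ x.1 a⟩], ?_, ?_, ?_⟩
    · rw [Am1_rd_iff] at h ⊢
      refine ⟨by simpa using h.1, ?_⟩
      intro z hz
      rcases List.mem_append.mp hz with hz | hz
      · exact h.2 z (List.mem_append_left _ hz)
      · rw [List.mem_singleton] at hz
        subst hz
        intro h1
        exact h.2 x (by simp) ((Subgroup.mul_mem_cancel_right (φ x.1).range (MonoidHom.mem_range.mpr ⟨a, rfl⟩)).mp h1)
    · simp
    · rw [Am1_Pr_append, Am1_Pr_append, Am1_Pr_cons, Am1_Pr_cons, Am1_Pr_nil, mul_one, mul_one]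
      show _ * PushoutI.of x.1 (x.2 * φ x.1 a) = _
      rw [map_mul, PushoutI.of_apply_eq_base]
      group

theorem Am1_map_inv (l : List (Σ i, G i)) :
    ((l.map (fun x => (⟨x.1, x.2⁻¹⟩ : Σ i, G i))).reverse).map Sigma.fst = (l.map Sigma.fst).reverse := by
  rw [List.map_reverse, List.map_map]
  rfl

theorem Am1_uniq (hφ : Inj φ) {l l' : List (Σ i, G i)} (hl : Rd φ l) (hl' : Rd φ l') (a : H)
    (h : (Pr φ l)⁻¹ * PushoutI.base φ a * Pr φ l' ∈ Am φ) :
    l.map Sigma.fst = l'.map Sigma.fst ∧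
      ∀ k, (Pr φ (l.take k))⁻¹ * PushoutI.base φ a * Pr φ (l'.take k) ∈ Am φ := by
  have hbase : ∀ b : H, PushoutI.base φ b ∈ Am φ := fun b => ⟨b, rfl⟩
  induction l generalizing l' a with
  | nil =>
    rw [Am1_Pr_nil, inv_one, one_mul] at h
    have h1 : Pr φ l' ∈ Am φ := (Subgroup.mul_mem_cancel_left _ (hbase a)).mp h
    have h2 := Am1_nil hφ hl' h1
    subst h2
    refine ⟨rfl, fun k => ?_⟩
    rw [List.take_nil, Am1_Pr_nil, inv_one, one_mul, mul_one]
    exact hbase a
  | cons x t ih =>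
    cases l' with
    | nil =>
      rw [Am1_Pr_nil, mul_one] at h
      have h1 : (Pr φ (x :: t))⁻¹ ∈ Am φ := (Subgroup.mul_mem_cancel_right _ (hbase a)).mp h
      have h2 := Am1_nil hφ hl ((Subgroup.inv_mem_iff _).mp h1)
      exact absurd h2 (List.cons_ne_nil _ _)
    | cons x' t' =>
      by_cases hij : x.1 = x'.1
      · obtain ⟨i, x⟩ := x
        obtain ⟨j, x'⟩ := x'
        simp only at hij
        subst hij
        have hcalc : ∀ s s' : List (Σ i, G i),
            (Pr φ (⟨i, x⟩ :: s))⁻¹ * PushoutI.base φ a * Pr φ (⟨i, x'⟩ :: s') =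
            (Pr φ s)⁻¹ * PushoutI.of i (x⁻¹ * φ i a * x') * Pr φ s' := by
          intro s s'
          rw [Am1_Pr_cons, Am1_Pr_cons, map_mul, map_mul, map_inv, PushoutI.of_apply_eq_base]
          group
        rw [hcalc] at h
        by_cases hy : x⁻¹ * φ i a * x' ∈ (φ i).range
        · obtain ⟨b, hb⟩ := hy
          rw [← hb, PushoutI.of_apply_eq_base] at h
          obtain ⟨h1, h2⟩ := ih (Am1_tail hl) (Am1_tail hl') b h
          refine ⟨by simp [h1], fun k => ?_⟩
          cases k with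
          | zero =>
            rw [List.take_zero, List.take_zero, Am1_Pr_nil, inv_one, one_mul, mul_one]
            exact hbase a
          | succ k =>
            rw [List.take_succ_cons, List.take_succ_cons, hcalc, ← hb, PushoutI.of_apply_eq_base]
            exact h2 k
        · exfalso
          obtain ⟨hi1, hi2⟩ := Am1_inv (Am1_tail hl)
          have hr2 : Rd φ (⟨i, x⁻¹ * φ i a * x'⟩ :: t') := Am1_repl (x := ⟨i, x'⟩) hl' hy
          have hr : Rd φ ((t.map (fun z => (⟨z.1, z.2⁻¹⟩ : Σ i, G i))).reverse ++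
              ⟨i, x⁻¹ * φ i a * x'⟩ :: t') := by
            refine Am1_app hi1 hr2 ?_
            rw [Am1_map_inv, List.map_cons, List.isChain_split]
            constructor
            · have h3 : (t.map Sigma.fst).reverse ++ [i] = (i :: t.map Sigma.fst).reverse := by simp
              show ((t.map Sigma.fst).reverse ++ [i]).IsChain (· ≠ ·)
              rw [h3, List.isChain_reverse]
              exact (Am1_rd_iff.mp hl).1.imp fun a b h => Ne.symm h
            · exact (Am1_rd_iff.mp hr2).1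
          have hp : Pr φ ((t.map (fun x => (⟨x.1, x.2⁻¹⟩ : Σ i, G i))).reverse ++
              ⟨i, x⁻¹ * φ i a * x'⟩ :: t') ∈ Am φ := by
            rw [Am1_Pr_append, hi2, Am1_Pr_cons, ← mul_assoc]
            exact h
          have h4 := Am1_nil hφ hr hp
          simp at h4
      · exfalso
        obtain ⟨hi1, hi2⟩ := Am1_inv hl
        obtain ⟨hr2, hp2⟩ := Am1_abs_left hl' a
        have hr : Rd φ (((x :: t).map (fun x => (⟨x.1, x.2⁻¹⟩ : Σ i, G i))).reverse ++
            ⟨x'.1, φ x'.1 a * x'.2⟩ :: t') := by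
          refine Am1_app hi1 hr2 ?_
          rw [Am1_map_inv, List.isChain_append]
          refine ⟨?_, (Am1_rd_iff.mp hr2).1, ?_⟩
          · rw [List.isChain_reverse]
            exact (Am1_rd_iff.mp hl).1.imp fun a b h => Ne.symm h
          · intro u hu v hv
            rw [List.getLast?_reverse, List.map_cons, List.head?_cons] at hu
            rw [List.map_cons, List.head?_cons] at hv
            simp only [Option.mem_def, Option.some.injEq] at hu hv
            rw [← hu, ← hv]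
            exact hij
        have hp : Pr φ (((x :: t).map (fun x => (⟨x.1, x.2⁻¹⟩ : Σ i, G i))).reverse ++
            ⟨x'.1, φ x'.1 a * x'.2⟩ :: t') ∈ Am φ := by
          rw [Am1_Pr_append, hi2, hp2, ← mul_assoc]
          exact h
        have h4 := Am1_nil hφ hr hp
        simp at h4

/-- `g` has a normal form. -/
def Am1_F (φ : ∀ i, H →* G i) (g : PushoutI φ) : Prop :=
  ∃ (l : List (Σ i, G i)) (a : H), Rd φ l ∧ g = Pr φ l * PushoutI.base φ a

theorem Am1_rd_nil : Rd φ ([] : List (Σ i, G i)) :=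
  ⟨List.isChain_nil, fun x hx => absurd hx (List.not_mem_nil)⟩

theorem Am1_F_base {g : PushoutI φ} (hg : Am1_F φ g) (b : H) : Am1_F φ (PushoutI.base φ b * g) := by
  obtain ⟨l, a, hl, rfl⟩ := hg
  by_cases hne : l = []
  · subst hne
    refine ⟨[], b * a, hl, ?_⟩
    rw [Am1_Pr_nil, map_mul]
    group
  · obtain ⟨l', h1, -, h2⟩ := Am1_abs hl hne b
    refine ⟨l', a, h1, ?_⟩
    rw [h2]
    group

theorem Am1_F_of {g : PushoutI φ} (hg : Am1_F φ g) (i : ι) (x : G i) :
    Am1_F φ (PushoutI.of i x * g) := by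
  by_cases hx : x ∈ (φ i).range
  · obtain ⟨b, rfl⟩ := hx
    rw [PushoutI.of_apply_eq_base]
    exact Am1_F_base hg b
  · obtain ⟨l, a, hl, rfl⟩ := hg
    have hsing : ∀ s : List (Σ i, G i), Rd φ s → (∀ y ∈ s.head?, i ≠ y.1) →
        Rd φ ((⟨i, x⟩ : Σ i, G i) :: s) := by
      intro s hs hh
      refine ⟨hs.1.cons hh, ?_⟩
      intro z hz
      rcases List.mem_cons.mp hz with rfl | hz
      · exact hx
      · exact hs.2 z hz
    cases l with
    | nil =>
      refine ⟨[⟨i, x⟩], a, hsing [] hl (by simp), ?_⟩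
      rw [Am1_Pr_cons, Am1_Pr_nil]
      group
    | cons z t =>
      obtain ⟨j, y⟩ := z
      by_cases hij : i = j
      · subst hij
        by_cases hw : x * y ∈ (φ i).range
        · obtain ⟨b, hb⟩ := hw
          have h1 : PushoutI.of i x * (Pr φ (⟨i, y⟩ :: t) * PushoutI.base φ a) =
              PushoutI.base φ b * (Pr φ t * PushoutI.base φ a) := by
            rw [Am1_Pr_cons, ← PushoutI.of_apply_eq_base φ i b, hb, map_mul]
            group
          rw [h1]
          exact Am1_F_base ⟨t, a, Am1_tail hl, rfl⟩ b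
        · refine ⟨⟨i, x * y⟩ :: t, a, Am1_repl (x := ⟨i, y⟩) hl hw, ?_⟩
          rw [Am1_Pr_cons, Am1_Pr_cons, map_mul]
          group
      · refine ⟨⟨i, x⟩ :: ⟨j, y⟩ :: t, a, hsing _ hl ?_, ?_⟩
        · intro y' hy'
          rw [List.head?_cons, Option.mem_def, Option.some.injEq] at hy'
          rw [← hy']
          exact hij
        · rw [Am1_Pr_cons (⟨i, x⟩ : Σ i, G i), mul_assoc]

theorem Am1_ex (g : PushoutI φ) : ∃ (l : List (Σ i, G i)) (a : H), Rd φ l ∧
    g = Pr φ l * PushoutI.base φ a := by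
  have h : ∀ g' : PushoutI φ, ∀ g : PushoutI φ, Am1_F φ g → Am1_F φ (g' * g) := by
    intro g'
    induction g' using PushoutI.induction_on with
    | of i x => exact fun g hg => Am1_F_of hg i x
    | base b => exact fun g hg => Am1_F_base hg b
    | mul x y hx hy =>
      intro g hg
      rw [mul_assoc]
      exact hx _ (hy _ hg)
  have h1 := h g 1 ⟨[], 1, Am1_rd_nil, by rw [Am1_Pr_nil, map_one, mul_one]⟩
  rwa [mul_one] at h1

end RQ
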