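import Pool.Agent.H34.RQ.Am1

/-!
# Am2 (helper34, MP_fbf562_RQ): the type of an element of an amalgam

`ty g` is the list of the indices of a reduced list representing `g`, by `Am1_uniq` (with `a = 1`) it does not depend on the
reduced list: `ty_eq`. All the rules follow by writing `g = Pr l * base a`, `h = Pr l' * base a'` (`Am1_ex`).

* `ty_mul` : if `l' = []` then `g * h = Pr l * base (a * ...)`; otherwise absorb `a` on the left of `l'` (`Am1_abs`) and use
  `Am1_app`, `Am1_Pr_append`.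
* `ty_inv` : `g⁻¹ = base a⁻¹ * Pr (inv l)`, absorb (`Am1_inv`, `Am1_abs`); if `l = []` trivial.
* `ty_nil` : `Pr l * base a ∈ A` iff `Pr l ∈ A` iff `l = []`.
* `ty_head` : from `l = x :: t`: `g = of x.1 x.2 * (Pr t * base a)`, `ty` of the second factor is `t.map fst` (sublist of a chain).
* `ty_last` : apply `ty_head` to `g⁻¹`, or split `l = s ++ [x]`.
* `ty_mul_lt` : `g = g1 * of i x`, `h = of i y * h1` (`ty_last`, `ty_head`), `x * y` is a letter or in `A`, so
  `ty (g * h)` has length at most `|s| + 1 + |t|` by `ty_len_le` (triangle inequality, three factors).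
* `ty_len_le` (triangle inequality): by strong induction on the length of `ty g`: if the concatenation is a chain use `ty_mul`.
  Otherwise `ty g = s ++ [i]`, `ty h = i :: t`; `g = g1 * of i x`, `h = of i y * h1`, `g * h = g1 * (of i (x*y) * h1)`;
  `of i (x * y) * h1` has length `≤ 1 + |t|` (it is `h1` up to `A` or `ty_mul`), and induction for `g1`.
* `ty_prefix` : see the docstring.
-/

namespace RQ

open Monoid

variable {ι H : Type} {G : ι → Type} [∀ i, Group (G i)] [Group H] {φ : ∀ i, H →* G i}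

/-- The type of an element: the list of the indices of the letters of a reduced list. -/
noncomputable def ty (g : PushoutI φ) : List ι := ((Am1_ex g).choose).map Sigma.fst

theorem Am2_base (a : H) : (PushoutI.base φ a) ∈ Am φ := ⟨a, rfl⟩

theorem Am2_nil : Pr φ [] = 1 := by simp [Pr]

theorem Am2_Rd_nil : Rd φ ([] : List (Σ i, G i)) := ⟨List.isChain_nil, by simp⟩

theorem Am2_cons (x : Σ i, G i) (t : List (Σ i, G i)) :
    Pr φ (x :: t) = PushoutI.of x.1 x.2 * Pr φ t := by simp [Pr]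

theorem Am2_chain {l : List (Σ i, G i)} (hl : Rd φ l) : (l.map Sigma.fst).IsChain (· ≠ ·) := by
  rw [List.isChain_map]; exact hl.1

theorem Am2_tail {x : Σ i, G i} {t : List (Σ i, G i)} (h : Rd φ (x :: t)) : Rd φ t :=
  ⟨h.1.tail, fun y hy => h.2 y (List.mem_cons_of_mem _ hy)⟩

theorem ty_eq (hφ : Inj φ) {l : List (Σ i, G i)} (hl : Rd φ l) (a : H) :
    ty (Pr φ l * PushoutI.base φ a) = l.map Sigma.fst := by
  unfold ty
  obtain ⟨a', h1, h2⟩ := (Am1_ex (Pr φ l * PushoutI.base φ a)).choose_spec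
  generalize (Am1_ex (Pr φ l * PushoutI.base φ a)).choose = m at h1 h2 ⊢
  have h3 : (Pr φ l)⁻¹ * PushoutI.base φ 1 * Pr φ m ∈ Am φ := by
    have e1 : Pr φ m = Pr φ l * PushoutI.base φ a * (PushoutI.base φ a')⁻¹ := by
      rw [h2, mul_inv_cancel_right]
    have : (Pr φ l)⁻¹ * PushoutI.base φ 1 * Pr φ m = PushoutI.base φ (a * a'⁻¹) := by
      rw [e1, map_one, map_mul, map_inv]; group
    rw [this]; exact Am2_base _
  exact (Am1_uniq hφ hl h1 1 h3).1.symm

theorem ty_chain (g : PushoutI φ) : (ty g).IsChain (· ≠ ·) := by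
  obtain ⟨a', h1, h2⟩ := (Am1_ex g).choose_spec
  exact Am2_chain h1

theorem Am2_ex (hφ : Inj φ) (g : PushoutI φ) : ∃ (l : List (Σ i, G i)) (a : H), Rd φ l ∧
    g = Pr φ l * PushoutI.base φ a ∧ ty g = l.map Sigma.fst := by
  obtain ⟨l, a, hl, rfl⟩ := Am1_ex g
  exact ⟨l, a, hl, rfl, ty_eq hφ hl a⟩

theorem ty_nil (hφ : Inj φ) (g : PushoutI φ) : ty g = [] ↔ g ∈ Am φ := by
  obtain ⟨l, a, hl, hg, ht⟩ := Am2_ex hφ g
  rw [ht, List.map_eq_nil_iff, hg, Subgroup.mul_mem_cancel_right _ (Am2_base a)]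
  constructor
  · rintro rfl
    rw [Am2_nil]; exact one_mem _
  · exact Am1_nil hφ hl

theorem ty_left (hφ : Inj φ) (g : PushoutI φ) {a : PushoutI φ} (ha : a ∈ Am φ) :
    ty (a * g) = ty g := by
  obtain ⟨b, rfl⟩ := ha
  obtain ⟨l, c, hl, hg, ht⟩ := Am2_ex hφ g
  by_cases h0 : l = []
  · subst h0
    have h1 : ty g = [] := by rw [ht]; rfl
    have h2 := (ty_nil hφ g).mp h1
    rw [h1, ty_nil hφ]
    exact mul_mem (Am2_base b) h2
  · obtain ⟨l', h1, h2, h3⟩ := Am1_abs hl h0 b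
    rw [ht, hg, ← mul_assoc, ← h3, ty_eq hφ h1, h2]

theorem ty_right (hφ : Inj φ) (g : PushoutI φ) {a : PushoutI φ} (ha : a ∈ Am φ) :
    ty (g * a) = ty g := by
  obtain ⟨b, rfl⟩ := ha
  obtain ⟨l, c, hl, hg, ht⟩ := Am2_ex hφ g
  rw [ht, hg, mul_assoc, ← map_mul, ty_eq hφ hl]

theorem Am2_Pr (hφ : Inj φ) {l : List (Σ i, G i)} (hl : Rd φ l) : ty (Pr φ l) = l.map Sigma.fst := by
  have := ty_eq hφ hl 1
  rwa [map_one, mul_one] at this

theorem ty_inv (hφ : Inj φ) (g : PushoutI φ) : ty g⁻¹ = (ty g).reverse := by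
  obtain ⟨l, c, hl, hg, ht⟩ := Am2_ex hφ g
  obtain ⟨h1, h2⟩ := Am1_inv hl
  rw [ht, hg, mul_inv_rev, ← map_inv, ty_left hφ _ (Am2_base _), ← h2, Am2_Pr hφ h1]
  simp [Function.comp_def]

theorem ty_mul (hφ : Inj φ) (g h : PushoutI φ) (hc : (ty g ++ ty h).IsChain (· ≠ ·)) :
    ty (g * h) = ty g ++ ty h := by
  obtain ⟨l, a, hl, hg, ht⟩ := Am2_ex hφ g
  obtain ⟨l', a', hl', hg', ht'⟩ := Am2_ex hφ h
  by_cases h0 : l' = []
  · subst h0
    have h1 : ty h = [] := by rw [ht']; rfl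
    rw [h1, List.append_nil]
    exact ty_right hφ g ((ty_nil hφ h).mp h1)
  · obtain ⟨m, h1, h2, h3⟩ := Am1_abs hl' h0 a
    have h4 : g * h = Pr φ (l ++ m) * PushoutI.base φ a' := by
      rw [hg, hg', Am1_Pr_append, h3]; group
    have h5 : Rd φ (l ++ m) := by
      apply Am1_app hl h1
      rw [h2, ← ht, ← ht']; exact hc
    rw [h4, ty_eq hφ h5, List.map_append, h2, ← ht, ← ht']

theorem ty_of (hφ : Inj φ) {i : ι} {x : G i} (hx : x ∉ (φ i).range) :
    ty (PushoutI.of i x : PushoutI φ) = [i] := by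
  have h1 : Rd φ [(⟨i, x⟩ : Σ i, G i)] := ⟨List.isChain_singleton _, by simpa using hx⟩
  have h2 := Am2_Pr hφ h1
  rw [Am2_cons, Am2_nil, mul_one] at h2
  exact h2

theorem of_mem_Am (hφ : Inj φ) {i : ι} {x : G i} :
    (PushoutI.of i x : PushoutI φ) ∈ Am φ ↔ x ∈ (φ i).range := by
  constructor
  · intro h
    by_contra hx
    have h1 := ty_of hφ hx
    rw [(ty_nil hφ _).mpr h] at h1
    exact absurd h1 (by simp)
  · rintro ⟨b, rfl⟩
    rw [PushoutI.of_apply_eq_base]
    exact Am2_base b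

theorem ty_head (hφ : Inj φ) {g : PushoutI φ} {i : ι} {t : List ι} (h : ty g = i :: t) :
    ∃ (x : G i) (g' : PushoutI φ), x ∉ (φ i).range ∧ g = PushoutI.of i x * g' ∧ ty g' = t := by
  obtain ⟨l, a, hl, hg, ht⟩ := Am2_ex hφ g
  rw [ht] at h
  obtain ⟨⟨j, x⟩, l', rfl, h1, h2⟩ := List.map_eq_cons_iff.mp h
  change j = i at h1
  subst h1
  refine ⟨x, Pr φ l' * PushoutI.base φ a, hl.2 ⟨j, x⟩ (by simp), ?_, ?_⟩
  · rw [hg, Am2_cons, mul_assoc]
  · rw [ty_eq hφ (Am2_tail hl), h2]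

theorem ty_last (hφ : Inj φ) {g : PushoutI φ} {i : ι} {s : List ι} (h : ty g = s ++ [i]) :
    ∃ (x : G i) (g' : PushoutI φ), x ∉ (φ i).range ∧ g = g' * PushoutI.of i x ∧ ty g' = s := by
  have h1 : ty g⁻¹ = i :: s.reverse := by
    rw [ty_inv hφ, h]; simp
  obtain ⟨x, g', h2, h3, h4⟩ := ty_head hφ h1
  refine ⟨x⁻¹, g'⁻¹, fun hx => h2 (by simpa using inv_mem hx), ?_, ?_⟩
  · rw [map_inv, ← mul_inv_rev, ← h3, inv_inv]
  · rw [ty_inv hφ, h4, List.reverse_reverse]

theorem ty_single (hφ : Inj φ) {g : PushoutI φ} {i : ι} (h : ty g = [i]) :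
    ∃ x : G i, x ∉ (φ i).range ∧ g = PushoutI.of i x := by
  obtain ⟨x, g', h2, h3, h4⟩ := ty_head hφ h
  obtain ⟨b, hb⟩ := (ty_nil hφ g').mp h4
  refine ⟨x * φ i b, fun hx => h2 ?_, ?_⟩
  · exact (Subgroup.mul_mem_cancel_right _ (⟨b, rfl⟩ : φ i b ∈ (φ i).range)).mp hx
  · rw [h3, ← hb, map_mul, PushoutI.of_apply_eq_base]

theorem Am2_notchain {l l' : List ι} (hl : l.IsChain (· ≠ ·)) (hl' : l'.IsChain (· ≠ ·))
    (h : ¬ (l ++ l').IsChain (· ≠ ·)) : ∃ (i : ι) (s t : List ι), l = s ++ [i] ∧ l' = i :: t := by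
  rw [List.isChain_append] at h
  push Not at h
  obtain ⟨x, hx, y, hy, hxy⟩ := h hl hl'
  subst hxy
  obtain ⟨s, hs⟩ : ∃ s, l = s ++ [x] := by
    obtain ⟨hne, he⟩ := List.mem_getLast?_eq_getLast hx
    exact ⟨l.dropLast, by rw [he]; exact (List.dropLast_append_getLast hne).symm⟩
  cases l' with
  | nil => simp at hy
  | cons z t =>
    simp only [List.head?_cons, Option.mem_def, Option.some.injEq] at hy
    subst hy
    exact ⟨z, s, t, hs, rfl⟩

/-- The triangle inequality. -/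
theorem ty_len_le (hφ : Inj φ) (g h : PushoutI φ) :
    (ty (g * h)).length ≤ (ty g).length + (ty h).length := by
  induction hn : (ty g).length using Nat.strong_induction_on generalizing g h with
  | _ n ih =>
    subst hn
    by_cases hc : (ty g ++ ty h).IsChain (· ≠ ·)
    · rw [ty_mul hφ g h hc, List.length_append]
    · obtain ⟨i, s, t, hs, ht⟩ := Am2_notchain (ty_chain g) (ty_chain h) hc
      obtain ⟨x, g1, hx, hg1, hs1⟩ := ty_last hφ hs
      obtain ⟨y, h1, hy, hh1, ht1⟩ := ty_head hφ ht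
      have e1 : g * h = g1 * (PushoutI.of i (x * y) * h1) := by
        rw [hg1, hh1, map_mul]; group
      have e2 : (ty (PushoutI.of i (x * y) * h1)).length ≤ 1 + t.length := by
        by_cases hxy : x * y ∈ (φ i).range
        · rw [ty_left hφ h1 ((of_mem_Am hφ).mpr hxy), ht1]; omega
        · have h3 := ty_of hφ hxy
          have h4 : (ty (PushoutI.of i (x * y) : PushoutI φ) ++ ty h1).IsChain (· ≠ ·) := by
            rw [h3, ht1]
            have := ty_chain h
            rw [ht] at this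
            exact this
          rw [ty_mul hφ _ _ h4, h3, ht1, List.length_append, List.length_singleton]
      have e3 : (ty g).length = s.length + 1 := by rw [hs]; simp
      have e4 : (ty h).length = t.length + 1 := by rw [ht]; simp
      have e5 := ih (ty g1).length (by rw [hs1, e3]; omega) g1
        (PushoutI.of i (x * y) * h1) rfl
      rw [e1]
      rw [hs1] at e5
      omega

theorem ty_mul_lt (hφ : Inj φ) {g h : PushoutI φ} {i : ι} {s t : List ι} (hg : ty g = s ++ [i])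
    (hh : ty h = i :: t) : (ty (g * h)).length < (ty g).length + (ty h).length := by
  obtain ⟨x, g1, hx, hg1, hs1⟩ := ty_last hφ hg
  obtain ⟨y, h1, hy, hh1, ht1⟩ := ty_head hφ hh
  have e1 : g * h = g1 * (PushoutI.of i (x * y) * h1) := by
    rw [hg1, hh1, map_mul]; group
  have e2 : (ty (PushoutI.of i (x * y) * h1)).length ≤ 1 + t.length := by
    by_cases hxy : x * y ∈ (φ i).range
    · rw [ty_left hφ h1 ((of_mem_Am hφ).mpr hxy), ht1]; omega
    · have h3 := ty_of hφ hxy
      have h5 := ty_len_le hφ (PushoutI.of i (x * y)) h1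
      rw [h3, ht1] at h5
      simpa using h5
  have e5 := ty_len_le hφ g1 (PushoutI.of i (x * y) * h1)
  rw [e1]
  rw [hs1] at e5
  rw [hg, hh, List.length_append, List.length_singleton, List.length_cons]
  omega

/-- If lengths add up then the types are concatenated: otherwise the concatenation of `ty g` and `ty h` is not a chain,
both are chains (`ty_chain`), so `ty g = s ++ [i]`, `ty h = i :: t`, contradiction with `ty_mul_lt`. -/
theorem ty_mul_of_len (hφ : Inj φ) {g h : PushoutI φ}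
    (hl : (ty (g * h)).length = (ty g).length + (ty h).length) : ty (g * h) = ty g ++ ty h := by
  by_cases hc : (ty g ++ ty h).IsChain (· ≠ ·)
  · exact ty_mul hφ g h hc
  · obtain ⟨i, s, t, hs, ht⟩ := Am2_notchain (ty_chain g) (ty_chain h) hc
    have := ty_mul_lt hφ hs ht
    omega

theorem Am2_pre (hφ : Inj φ) {g x : PushoutI φ}
    (h1 : (ty x).length = (ty g).length + (ty (g⁻¹ * x)).length) :
    ∃ (l m : List (Σ i, G i)) (a b : H), Rd φ (l ++ m) ∧ l.map Sigma.fst = ty g ∧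
      g = Pr φ l * PushoutI.base φ a ∧ x = Pr φ (l ++ m) * PushoutI.base φ b := by
  obtain ⟨l, a, hl, hg, ht⟩ := Am2_ex hφ g
  obtain ⟨m, b, hm, hgm, htm⟩ := Am2_ex hφ (g⁻¹ * x)
  have h2 : ty x = ty g ++ ty (g⁻¹ * x) := by
    have := ty_mul_of_len hφ (g := g) (h := g⁻¹ * x) (by rw [mul_inv_cancel_left]; exact h1)
    rwa [mul_inv_cancel_left] at this
  have hx : x = g * (Pr φ m * PushoutI.base φ b) := by rw [← hgm, mul_inv_cancel_left]
  by_cases h0 : m = []
  · subst h0
    refine ⟨l, [], a, a * b, by rwa [List.append_nil], ht.symm, hg, ?_⟩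
    rw [hx, hg, List.append_nil, Am2_nil, one_mul, map_mul, mul_assoc]
  · obtain ⟨m', h3, h4, h5⟩ := Am1_abs hm h0 a
    refine ⟨l, m', a, b, ?_, ht.symm, hg, ?_⟩
    · apply Am1_app hl h3
      rw [h4, ← ht, ← htm, ← h2]
      exact ty_chain x
    · rw [hx, hg, Am1_Pr_append, h5]; group

/-- Uniqueness of prefixes. `g` and `h` are prefixes of `x` of the same length, so `g⁻¹ * h ∈ A`. Proof: write
`g = Pr l * base a`, `g⁻¹ * x = Pr m * base b`; by `ty_mul_of_len` the concatenation of the types is a chain; absorbing `a` in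
`m` (if `m` is nonempty) we get `x = Pr (l ++ m') * base b'` with `l ++ m'` reduced (if `m = []`: `x = Pr l * base b'`). The same
for `h = Pr l₁ * base a₁`: `x = Pr (l₁ ++ m₁') * base b₁'`. By `Am1_uniq` for the two reduced lists (with `a = 1`) and
`k = l.length = l₁.length`: `(Pr l)⁻¹ * Pr l₁ ∈ A`, so `g⁻¹ * h ∈ A`. -/
theorem ty_prefix (hφ : Inj φ) {g h x : PushoutI φ}
    (h1 : (ty x).length = (ty g).length + (ty (g⁻¹ * x)).length)
    (h2 : (ty x).length = (ty h).length + (ty (h⁻¹ * x)).length)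
    (h3 : (ty g).length = (ty h).length) : g⁻¹ * h ∈ Am φ := by
  obtain ⟨l, m, a, b, hr, hlg, hg, hx⟩ := Am2_pre hφ h1
  obtain ⟨l', m', a', b', hr', hlg', hg', hx'⟩ := Am2_pre hφ h2
  have hlen : l.length = l'.length := by
    have e1 := congrArg List.length hlg
    have e2 := congrArg List.length hlg'
    rw [List.length_map] at e1 e2
    omega
  have h4 : (Pr φ (l ++ m))⁻¹ * PushoutI.base φ 1 * Pr φ (l' ++ m') ∈ Am φ := by
    have h5 : (Pr φ (l ++ m))⁻¹ * PushoutI.base φ 1 * Pr φ (l' ++ m') =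
        PushoutI.base φ (b * b'⁻¹) := by
      have e1 : Pr φ (l' ++ m') = x * (PushoutI.base φ b')⁻¹ := by
        rw [hx', mul_inv_cancel_right]
      rw [e1, hx, map_one, map_mul, map_inv]; group
    rw [h5]; exact Am2_base _
  have h5 := (Am1_uniq hφ hr hr' 1 h4).2 l.length
  rw [List.take_left, hlen, List.take_left, map_one, mul_one] at h5
  have h6 : g⁻¹ * h = PushoutI.base φ a⁻¹ * ((Pr φ l)⁻¹ * Pr φ l') * PushoutI.base φ a' := by
    rw [hg, hg', map_inv]; group
  rw [h6]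
  exact mul_mem (mul_mem (Am2_base _) h5) (Am2_base _)

end RQ
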