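import Pool.Agent.H34.RQ.HO
import Pool.Agent.H64.LK.R3

/-!
# HL (helper34, MP_fbf562_RQ): loop spaces and honest retracts

`HL_abAt` : every fundamental group of a loop space is abelian: `LK.R2` gives a multiplication on `Path w w` for which the loop `l` is a
unit up to homotopy, `LK.R1` (or `LK.R3` with `X = Z = Path w w`, the identity).

`HL_hretract` : a retract up to homotopy is a rational retract: `TopCat.Homotopy` of maps gives equal maps in the localisation: the
projection `X × I → X` induces an isomorphism on singular homology (it is a homotopy equivalence; Mathlib: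
`TopCat.Homotopy.congr_homologyMap_singularChainComplexFunctor` in Mathlib/AlgebraicTopology/SingularHomology/HomotopyInvariance.lean
gives that homotopic maps induce the same map on homology, so the projection, which has a homotopy inverse `x ↦ (x, 0)`, is
in `ratIso`). If `H : f ~ g` then `f = H ∘ i0`, `g = H ∘ i1`, and `Q i0 = Q i1` because both are inverse (one-sided, the
projection being invertible) to `Q pr`. So `Q.map f = Q.map g` for homotopic `f, g`, and `Q.map i ≫ Q.map r = 𝟙`.
-/

open CategoryTheory Simplicial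
open scoped unitInterval

namespace RQ

theorem HL_abAt {W : Type} [TopologicalSpace W] (w : W) (l : Path w w) : LK.AbAt l := by
  obtain ⟨m, h1, h2⟩ := LK.R2 w l
  exact LK.R1 l m h1 h2

private theorem HL_map_eq {X Y : TopCat.{0}} {f g : X ⟶ Y} (H : TopCat.Homotopy f g) (n : ℕ) :
    (HQ n).map f = (HQ n).map g :=
  H.congr_homologyMap_singularChainComplexFunctor (ModuleCat.of ℚ ℚ) n

/-- the cylinder -/
private def HL_cyl (X : TopCat.{0}) : TopCat.{0} := TopCat.of (X × I)

private def HL_pr (X : TopCat.{0}) : HL_cyl X ⟶ X := TopCat.ofHom ⟨Prod.fst, continuous_fst⟩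

private def HL_in (X : TopCat.{0}) (t : I) : X ⟶ HL_cyl X :=
  TopCat.ofHom ⟨fun x => (x, t), Continuous.prodMk continuous_id continuous_const⟩

private theorem HL_in_pr (X : TopCat.{0}) (t : I) : HL_in X t ≫ HL_pr X = 𝟙 X := rfl

private noncomputable def HL_hom (X : TopCat.{0}) :
    TopCat.Homotopy (HL_pr X ≫ HL_in X 0) (𝟙 (HL_cyl X)) where
  toFun p := (p.2.1, p.1 * p.2.2)
  continuous_toFun := by fun_prop
  map_zero_left := by
    rintro ⟨x, s⟩
    show (x, (0 : I) * s) = (x, (0 : I))
    rw [zero_mul]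
  map_one_left := by
    rintro ⟨x, s⟩
    show (x, (1 : I) * s) = (x, s)
    rw [one_mul]

private theorem HL_pr_mem (X : TopCat.{0}) : ratIso (HL_pr X) := by
  intro n
  refine ⟨(HQ n).map (HL_in X 0), ?_, ?_⟩
  · rw [← Functor.map_comp, HL_map_eq (HL_hom X) n, CategoryTheory.Functor.map_id]
  · rw [← Functor.map_comp, HL_in_pr, CategoryTheory.Functor.map_id]

private theorem HL_Q_in (X : TopCat.{0}) (s t : I) :
    ratIso.Q.map (HL_in X s) = ratIso.Q.map (HL_in X t) := by
  have h1 : IsIso (ratIso.Q.map (HL_pr X)) := ratIso.Q_inverts _ (HL_pr_mem X)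
  rw [← cancel_mono (ratIso.Q.map (HL_pr X)), ← Functor.map_comp, ← Functor.map_comp, HL_in_pr,
    HL_in_pr]

private theorem HL_Q_eq {X Y : TopCat.{0}} {f g : X ⟶ Y} (H : TopCat.Homotopy f g) :
    ratIso.Q.map f = ratIso.Q.map g := by
  obtain ⟨K, hK⟩ : ∃ K : HL_cyl X ⟶ Y, K = TopCat.ofHom
    ⟨fun p => H (p.2, p.1), by fun_prop⟩ := ⟨_, rfl⟩
  have h0 : f = HL_in X 0 ≫ K := by
    rw [hK]
    ext x
    exact (H.map_zero_left x).symm
  have h1 : g = HL_in X 1 ≫ K := by
    rw [hK]
    ext x
    exact (H.map_one_left x).symm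
  rw [h0, h1, Functor.map_comp, Functor.map_comp, HL_Q_in X 0 1]

theorem HL_hretract {X Z : Type} [TopologicalSpace X] [TopologicalSpace Z] (h : LK.HRetract X Z) :
    RetractIn ratIso X Z := by
  obtain ⟨i, r, ⟨H⟩⟩ := h
  have H' : TopCat.Homotopy (TopCat.ofHom i ≫ TopCat.ofHom r) (𝟙 (TopCat.of X)) := H
  have h1 := HL_Q_eq H'
  rw [Functor.map_comp, CategoryTheory.Functor.map_id] at h1
  exact ⟨⟨ratIso.Q.map (TopCat.ofHom i), ratIso.Q.map (TopCat.ofHom r), h1⟩⟩

end RQ
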