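import Pool.Agent.H34.RQ.A5
import Pool.Agent.H34.RQ.HL

/-!
# Asm (helper34, MP_fbf562_RQ): the obstruction in terms of a transport action on `GG`
-/

open CategoryTheory
open scoped unitInterval

namespace RQ

open Monoid

/-- The obstruction, for an action `T` of the loops with `T (p q) = T p * T q`. -/
theorem Asm_obs {X : Type} [TopologicalSpace X] {g : X} (T : Path g g → MulAut GG)
    (hT : ∀ p q : Path g g, T (p.trans q) = T p * T q)
    (hh : ∀ p q : Path g g, p.Homotopic q → T p = T q) (hmu : ∀ p, T p mu = mu)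
    {p q : Path g g} {c d : Fin 3 → GG} (hc : IsDat (T p) c) (hd : IsDat (T q) d)
    (hne : (psi c).x * (psi d).y ≠ (psi c).y * (psi d).x)
    {Z : Type} [TopologicalSpace Z] (hZ : ∀ z : Z, LK.AbAt z) : ¬ RetractIn ratIso X Z := by
  intro hr
  obtain ⟨Φ, h1, h2, h3⟩ := A5_main T hmu
  have h := heis_obstruction hr hZ g Φ (fun p q => h2 p q _ (hT p q))
    (fun p q hpq => h3 p q (hh p q hpq)) p q
  rw [h1 p c hc, h1 q d hd] at h
  exact hne h

/-- The obstruction, for an action `T` of the loops with `T (p q) = T q * T p`. -/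
theorem Asm_obs' {X : Type} [TopologicalSpace X] {g : X} (T : Path g g → MulAut GG)
    (hT : ∀ p q : Path g g, T (p.trans q) = T q * T p)
    (hh : ∀ p q : Path g g, p.Homotopic q → T p = T q) (hmu : ∀ p, T p mu = mu)
    {p q : Path g g} {c d : Fin 3 → GG} (hc : IsDat (T p) c) (hd : IsDat (T q) d)
    (hne : (psi c).x * (psi d).y ≠ (psi c).y * (psi d).x)
    {Z : Type} [TopologicalSpace Z] (hZ : ∀ z : Z, LK.AbAt z) : ¬ RetractIn ratIso X Z := by
  refine Asm_obs (fun p => T p.symm) (fun p q => ?_) (fun p q h => ?_) (fun p => hmu _)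
    (p := p.symm) (q := q.symm) (c := c) (d := d) ?_ ?_ hne hZ
  · rw [Path.trans_symm, hT]
  · obtain ⟨H⟩ := h
    exact hh _ _ ⟨H.symm₂⟩
  · simpa using hc
  · simpa using hd

/-- The numbers for the two loops: `l i = zz i ^ e i * mu ^ f i`. -/
theorem Asm_num (e f : Fin 3 → ℤ) (h1 : e 1 ≠ 0) (h2 : e 2 ≠ 0) {c d : Fin 3 → GG}
    (hc0 : c 0 = (zz 0 ^ e 0 * mu ^ f 0) * (zz 1 ^ e 1 * mu ^ f 1) ∨
      c 0 = (zz 1 ^ e 1 * mu ^ f 1) * (zz 0 ^ e 0 * mu ^ f 0))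
    (hc1 : c 1 = zz 0 ^ e 0 * mu ^ f 0) (hc2 : c 2 = 1) (hd0 : d 0 = 1)
    (hd1 : d 1 = (zz 1 ^ e 1 * mu ^ f 1) * (zz 2 ^ e 2 * mu ^ f 2) ∨
      d 1 = (zz 2 ^ e 2 * mu ^ f 2) * (zz 1 ^ e 1 * mu ^ f 1))
    (hd2 : d 2 = zz 1 ^ e 1 * mu ^ f 1) :
    (psi c).x * (psi d).y ≠ (psi c).y * (psi d).x := by
  have hmuf : ∀ n : ℤ, mu ^ n ∈ KK := fun n => KK.zpow_mem mu_mem n
  have hzf : ∀ (i : Fin 3) (n : ℤ), zz i ^ n ∈ KK := fun i n => KK.zpow_mem (zz_mem i) n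
  have hl : ∀ i : Fin 3, ∀ n k : ℤ, zz i ^ n * mu ^ k ∈ KK := fun i n k =>
    KK.mul_mem (hzf i n) (hmuf k)
  have v : ∀ i : Fin 3, ∀ n k : ℤ, hh (zz i ^ n * mu ^ k) = hh (zz i) ^ n := by
    intro i n k
    rw [hh_mul (hzf i n) (hmuf k), hh_zpow (zz_mem i), hh_zpow mu_mem, hh_mu, one_zpow, mul_one]
  have hone : hh (1 : GG) = 1 := by
    have := hh_mul (g := 1) (g' := 1) KK.one_mem KK.one_mem
    rw [mul_one] at this
    exact (mul_eq_left.1 this.symm)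
  have x0 : (hh (c 0)).x = e 1 := by
    rcases hc0 with h | h <;>
    · rw [h, hh_mul (hl _ _ _) (hl _ _ _), v, v, hh_zz0, hh_zz1]
      simp
  have y0 : (hh (c 0)).y = 0 := by
    rcases hc0 with h | h <;>
    · rw [h, hh_mul (hl _ _ _) (hl _ _ _), v, v, hh_zz0, hh_zz1]
      simp
  have px : (psi c).x = - e 1 := by
    rw [psi_x, hc2, hone, x0]
    simp
  have py : (psi c).y = 0 := by
    rw [psi_y, hc1, v, hh_zz0, y0]
    simp
  have qy : (psi d).y = e 2 := by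
    rw [psi_y, hd0, hone]
    rcases hd1 with h | h <;>
    · rw [h, hh_mul (hl _ _ _) (hl _ _ _), v, v, hh_zz2, hh_zz1]
      simp
  rw [px, py, qy]
  simp only [zero_mul]
  exact mul_ne_zero (neg_ne_zero.2 h1) h2

end RQ
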