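import Pool.Agent.H34.RQ.GD

/-!
# DK (helper34, MP_fbf562_RQ): the subgroup `KK` generated by `mu` and the `zz i`, and its map to the Heisenberg group

`DD` is the amalgam of three copies of `ℤ × ℤ` along `ℤ × 0`; `kap : DD → GG` sends `(k, n)` in the `i`-th factor to
`mu ^ k * zz i ^ n`.

* `dTo` is a homomorphism because `tMu` and `tZ` commute (`tZ_comm`).
* `dBase_range` : `ofAdd (k, n)` is in the range iff `n = 0`.
* `kap_list` : for a reduced list `l` of `DD` the list `l.map (fun x => ⟨x.1, dTo (qq x.1) x.2⟩)` is reduced for `GG`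
  (`muZ_mem`), and its product is `kap (Pr l)`.
* `kap_ty` : write `g = Pr l * base a` (`Am1_ex`), `ty_eq` on both sides.
* `kap_inj` : `kap g = 1` implies `ty g = []`, so `g = base a` (`ty_nil`), `kap g = mu ^ a`, injectivity of `base`
  (`PushoutI.base_injective`, `GG_inj`).
* `hD : DD → Heis` : factor `0 ↦ 1`, factor `1 : (k, n) ↦ X ^ n`, factor `2 : (k, n) ↦ Y ^ n`, base `↦ 1`.
* `hh g` for `g ∈ KK = range kap` is `hD` of the preimage.
* `KK_comm` : all elements of `KK` commute with `mu` (`PushoutI.induction_on`, `zz_comm_mu`).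
* `KK_head` : `g = kap d`, `ty d = i :: t`, `ty_head` in `DD`: `d = of i (ofAdd (a, b)) * d'` with `b ≠ 0`; apply `kap` (`kap_of`).
* `KK_ext` : two homomorphisms from `DD` agreeing on the elements `of i (ofAdd (1, 0))`, `of i (ofAdd (0, 1))` agree.
-/

namespace RQ

open Monoid

/-- The inclusion of `ℤ` into `ℤ × ℤ`, multiplicatively. -/
def dBase : Multiplicative ℤ →* Multiplicative (ℤ × ℤ) :=
  AddMonoidHom.toMultiplicative (AddMonoidHom.inl ℤ ℤ)

/-- The amalgam of three copies of `ℤ × ℤ` along `ℤ × 0`. -/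
abbrev DD : Type := PushoutI (fun _ : Fin 3 => dBase)

/-- `(k, n) ↦ μ ^ k z ^ n`. -/
def dTo (q : ℤ) : Multiplicative (ℤ × ℤ) →* TG q where
  toFun x := tMu q ^ (Multiplicative.toAdd x).1 * tZ q ^ (Multiplicative.toAdd x).2
  map_one' := by simp
  map_mul' := by
    intro x y
    have h : Commute (tZ q ^ (Multiplicative.toAdd x).2) (tMu q ^ (Multiplicative.toAdd y).1) :=
      (tZ_comm q (tMu q)).zpow_zpow _ _
    simp only [toAdd_mul, Prod.fst_add, Prod.snd_add, zpow_add]
    rw [mul_assoc, ← mul_assoc (tMu q ^ (Multiplicative.toAdd y).1), ← h.eq]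
    simp only [mul_assoc]

/-- The map to `GG`. -/
def kap : DD →* GG :=
  PushoutI.lift (fun i => (PushoutI.of i).comp (dTo (qq i))) (PushoutI.base _) (by
    intro i
    rw [MonoidHom.comp_assoc, ← PushoutI.of_comp_eq_base i]
    congr 1
    ext
    simp [dTo, dBase, merHom])

theorem DD_inj : Inj (fun _ : Fin 3 => dBase) := by
  intro i x y h
  have h1 : (Multiplicative.toAdd (dBase x)).1 = (Multiplicative.toAdd (dBase y)).1 :=
    congrArg (fun z => (Multiplicative.toAdd z).1) h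
  exact Multiplicative.toAdd.injective h1

theorem dBase_range (a b : ℤ) : Multiplicative.ofAdd (a, b) ∈ dBase.range ↔ b = 0 := by
  constructor
  · rintro ⟨x, hx⟩
    have h1 : (Multiplicative.toAdd (dBase x)).2 = b :=
      congrArg (fun z => (Multiplicative.toAdd z).2) hx
    exact h1.symm
  · rintro rfl
    exact ⟨Multiplicative.ofAdd a, rfl⟩

theorem DK_kap_of' (i : Fin 3) (x : Multiplicative (ℤ × ℤ)) :
    kap (PushoutI.of i x) = PushoutI.of i (dTo (qq i) x) := by
  unfold kap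
  rw [PushoutI.lift_of]
  rfl

theorem kap_of (i : Fin 3) (a b : ℤ) :
    kap (PushoutI.of i (Multiplicative.ofAdd (a, b))) = mu ^ a * zz i ^ b := by
  rw [DK_kap_of']
  exact of_muZ i a b

theorem DK_base (a : ℤ) :
    (PushoutI.base (fun i : Fin 3 => merHom (qq i)) (Multiplicative.ofAdd a) : GG) = mu ^ a := by
  have h : (Multiplicative.ofAdd a : Multiplicative ℤ) = Multiplicative.ofAdd (1 : ℤ) ^ a := by
    simp [← ofAdd_zsmul]
  rw [h, map_zpow]
  rfl

theorem DK_kap_base (x : Multiplicative ℤ) : kap (PushoutI.base _ x) =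
    PushoutI.base (fun i : Fin 3 => merHom (qq i)) x := by
  unfold kap
  rw [PushoutI.lift_base]

theorem kap_base (a : ℤ) : kap (PushoutI.base _ (Multiplicative.ofAdd a)) = mu ^ a := by
  rw [DK_kap_base, DK_base]

theorem DK_pair (x : Multiplicative (ℤ × ℤ)) :
    x = Multiplicative.ofAdd ((Multiplicative.toAdd x).1, (Multiplicative.toAdd x).2) := rfl

theorem DK_mem (i : Fin 3) (x : Multiplicative (ℤ × ℤ)) :
    dTo (qq i) x ∈ (merHom (qq i)).range ↔ x ∈ dBase.range := by
  rw [DK_pair x, dBase_range, ← muZ_mem (qq_ge i) (qq_odd i) (Multiplicative.toAdd x).1]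
  rfl

/-- the map on letters -/
def DK_let (x : Σ _ : Fin 3, Multiplicative (ℤ × ℤ)) : Σ i : Fin 3, TG (qq i) :=
  ⟨x.1, dTo (qq x.1) x.2⟩

theorem DK_Rd {l : List (Σ _ : Fin 3, Multiplicative (ℤ × ℤ))} (hl : Rd (fun _ : Fin 3 => dBase) l) :
    Rd (fun i : Fin 3 => merHom (qq i)) (l.map DK_let) := by
  refine ⟨?_, ?_⟩
  · rw [List.isChain_map]
    exact hl.1
  · intro x hx
    rw [List.mem_map] at hx
    obtain ⟨y, hy, rfl⟩ := hx
    intro h
    exact hl.2 y hy ((DK_mem y.1 y.2).1 h)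

theorem DK_Pr (l : List (Σ _ : Fin 3, Multiplicative (ℤ × ℤ))) :
    kap (Pr (fun _ : Fin 3 => dBase) l) = Pr (fun i : Fin 3 => merHom (qq i)) (l.map DK_let) := by
  induction l with
  | nil => rw [List.map_nil, Am2_nil, Am2_nil, map_one]
  | cons x t ih =>
    rw [List.map_cons, Am2_cons, Am2_cons, map_mul, ih, DK_kap_of']
    rfl

theorem DK_fst (l : List (Σ _ : Fin 3, Multiplicative (ℤ × ℤ))) :
    (l.map DK_let).map Sigma.fst = l.map Sigma.fst := by
  rw [List.map_map]
  rfl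

theorem kap_ty (d : DD) : ty (kap d) = ty d := by
  obtain ⟨l, a, hl, hd, ht⟩ := Am2_ex DD_inj d
  have h2 : kap d = Pr (fun i : Fin 3 => merHom (qq i)) (l.map DK_let) *
        PushoutI.base (fun i : Fin 3 => merHom (qq i)) a := by
    rw [hd, map_mul, DK_kap_base, DK_Pr]
  rw [h2, ty_eq GG_inj (DK_Rd hl) a, ht, DK_fst]

theorem kap_inj : Function.Injective kap := by
  rw [injective_iff_map_eq_one]
  intro g hg
  have h1 : ty g = [] := by
    rw [← kap_ty, hg]
    exact (ty_nil GG_inj _).2 (one_mem _)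
  obtain ⟨a, ha⟩ := (ty_nil DD_inj g).1 h1
  rw [← ha, DK_kap_base] at hg
  have h2 : a = 1 := by
    apply PushoutI.base_injective (φ := fun i : Fin 3 => merHom (qq i)) GG_inj
    rw [hg, map_one]
  rw [← ha, h2, map_one]

/-- The subgroup generated by `mu` and the `zz i`. -/
def KK : Subgroup GG := kap.range

theorem mu_mem : mu ∈ KK := by
  refine ⟨PushoutI.base _ (Multiplicative.ofAdd 1), ?_⟩
  rw [kap_base, zpow_one]

theorem DK_zz (i : Fin 3) : kap (PushoutI.of i (Multiplicative.ofAdd ((0 : ℤ), (1 : ℤ)))) = zz i := by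
  rw [kap_of, zpow_zero, one_mul, zpow_one]

theorem DK_mu : kap (PushoutI.base _ (Multiplicative.ofAdd (1 : ℤ))) = mu := by
  rw [kap_base, zpow_one]

theorem zz_mem (i : Fin 3) : zz i ∈ KK := ⟨_, DK_zz i⟩

theorem KK_comm {g : GG} (h : g ∈ KK) : Commute g mu := by
  obtain ⟨d, rfl⟩ := h
  induction d using PushoutI.induction_on with
  | of i x =>
    rw [DK_pair x, kap_of]
    exact ((Commute.refl mu).zpow_left _).mul_left ((zz_comm_mu i).zpow_left _)
  | base x =>
    have : kap (PushoutI.base _ x) = mu ^ (Multiplicative.toAdd x) := kap_base _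
    rw [this]
    exact (Commute.refl mu).zpow_left _
  | mul x y hx hy =>
    rw [map_mul]
    exact hx.mul_left hy

theorem KK_head {g : GG} (h : g ∈ KK) {i : Fin 3} {t : List (Fin 3)} (ht : ty g = i :: t) :
    ∃ (a b : ℤ) (g' : GG), b ≠ 0 ∧ g' ∈ KK ∧ g = mu ^ a * zz i ^ b * g' ∧ ty g' = t := by
  obtain ⟨d, rfl⟩ := h
  rw [kap_ty] at ht
  obtain ⟨x, g', hx, hd, ht'⟩ := ty_head DD_inj ht
  refine ⟨(Multiplicative.toAdd x).1, (Multiplicative.toAdd x).2, kap g', ?_, ⟨g', rfl⟩, ?_, ?_⟩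
  · intro h0
    apply hx
    rw [DK_pair x]
    exact (dBase_range _ _).2 h0
  · rw [hd, map_mul, DK_pair x, kap_of]
    rfl
  · rw [kap_ty, ht']

/-- The map from the `i`-th factor to the Heisenberg group. -/
def hFac (i : Fin 3) : Multiplicative (ℤ × ℤ) →* Heis :=
  (zpowersHom Heis (if i = 1 then Heis.X else if i = 2 then Heis.Y else 1)).comp
    (AddMonoidHom.toMultiplicative (AddMonoidHom.snd ℤ ℤ))

/-- The map from `DD` to the Heisenberg group. -/
def hD : DD →* Heis :=
  PushoutI.lift hFac 1 (by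
    intro i
    ext <;> simp [hFac, dBase])

open Classical in
/-- The map from `KK` to the Heisenberg group, extended by `1`. -/
noncomputable def hh (g : GG) : Heis := if h : ∃ d, kap d = g then hD h.choose else 1

theorem hh_kap (d : DD) : hh (kap d) = hD d := by
  have h : ∃ d', kap d' = kap d := ⟨d, rfl⟩
  unfold hh
  rw [dif_pos h]
  congr 1
  exact kap_inj h.choose_spec

theorem hh_mul {g g' : GG} (h : g ∈ KK) (h' : g' ∈ KK) : hh (g * g') = hh g * hh g' := by
  obtain ⟨d, rfl⟩ := h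
  obtain ⟨d', rfl⟩ := h'
  rw [← map_mul, hh_kap, hh_kap, hh_kap, map_mul]

theorem hh_inv {g : GG} (h : g ∈ KK) : hh g⁻¹ = (hh g)⁻¹ := by
  obtain ⟨d, rfl⟩ := h
  rw [← map_inv, hh_kap, hh_kap, map_inv]

theorem hh_zpow {g : GG} (h : g ∈ KK) (n : ℤ) : hh (g ^ n) = hh g ^ n := by
  obtain ⟨d, rfl⟩ := h
  have h1 : kap d ^ n = kap (d ^ n) := (map_zpow kap d n).symm
  rw [h1, hh_kap, hh_kap, map_zpow]

theorem hh_mu : hh mu = 1 := by
  rw [← DK_mu, hh_kap]
  unfold hD
  rw [PushoutI.lift_base]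
  rfl

theorem DK_hFac (i : Fin 3) (a b : ℤ) : hFac i (Multiplicative.ofAdd (a, b)) =
    (if i = 1 then Heis.X else if i = 2 then Heis.Y else 1) ^ b := rfl

theorem DK_hh_zz (i : Fin 3) : hh (zz i) = if i = 1 then Heis.X else if i = 2 then Heis.Y else 1 := by
  rw [← DK_zz, hh_kap]
  unfold hD
  rw [PushoutI.lift_of, DK_hFac, zpow_one]

theorem hh_zz0 : hh (zz 0) = 1 := by
  rw [DK_hh_zz]
  rfl

theorem hh_zz1 : hh (zz 1) = Heis.X := by
  rw [DK_hh_zz]
  rfl

theorem hh_zz2 : hh (zz 2) = Heis.Y := by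
  rw [DK_hh_zz]
  rfl

/-- A map of `KK` to a group which is multiplicative is determined by its values on `mu` and the `zz i`. -/
theorem KK_hom_ext {Q : Type} [Group Q] (f f' : GG → Q)
    (hf : ∀ a ∈ KK, ∀ b ∈ KK, f (a * b) = f a * f b)
    (hf' : ∀ a ∈ KK, ∀ b ∈ KK, f' (a * b) = f' a * f' b) (h0 : f mu = f' mu)
    (hi : ∀ i, f (zz i) = f' (zz i)) : ∀ a ∈ KK, f a = f' a := by
  let F : DD →* Q := MonoidHom.mk' (fun d => f (kap d)) fun a b => by
    show f (kap (a * b)) = f (kap a) * f (kap b)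
    rw [map_mul]
    exact hf _ ⟨a, rfl⟩ _ ⟨b, rfl⟩
  let F' : DD →* Q := MonoidHom.mk' (fun d => f' (kap d)) fun a b => by
    show f' (kap (a * b)) = f' (kap a) * f' (kap b)
    rw [map_mul]
    exact hf' _ ⟨a, rfl⟩ _ ⟨b, rfl⟩
  have hbase : ∀ x : Multiplicative ℤ, F (PushoutI.base _ x) = F' (PushoutI.base _ x) := by
    intro x
    have h1 : x = Multiplicative.ofAdd (1 : ℤ) ^ (Multiplicative.toAdd x) := by
      rw [← ofAdd_zsmul, smul_eq_mul, mul_one, ofAdd_toAdd]
    have h2 : F (PushoutI.base _ (Multiplicative.ofAdd (1 : ℤ))) =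
        F' (PushoutI.base _ (Multiplicative.ofAdd (1 : ℤ))) := by
      show f (kap _) = f' (kap _)
      rw [DK_mu]
      exact h0
    rw [h1, map_zpow, map_zpow, map_zpow, h2]
  have hof : ∀ (i : Fin 3) (x : Multiplicative (ℤ × ℤ)), F (PushoutI.of i x) = F' (PushoutI.of i x) := by
    intro i x
    have h1 : x = dBase (Multiplicative.ofAdd (Multiplicative.toAdd x).1) *
        Multiplicative.ofAdd ((0 : ℤ), (1 : ℤ)) ^ (Multiplicative.toAdd x).2 := by
      apply Multiplicative.toAdd.injective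
      rw [toAdd_mul, toAdd_zpow]
      ext <;> simp [dBase]
    have h2 : F (PushoutI.of i (Multiplicative.ofAdd ((0 : ℤ), (1 : ℤ)))) =
        F' (PushoutI.of i (Multiplicative.ofAdd ((0 : ℤ), (1 : ℤ)))) := by
      show f (kap _) = f' (kap _)
      rw [DK_zz]
      exact hi i
    rw [h1, map_mul, map_mul, map_mul, PushoutI.of_apply_eq_base (fun _ : Fin 3 => dBase) i, hbase,
      map_zpow, map_zpow, map_zpow, h2]
  rintro _ ⟨d, rfl⟩
  show F d = F' d
  induction d using PushoutI.induction_on with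
  | of i x => exact hof i x
  | base x => exact hbase x
  | mul x y hx hy => rw [map_mul, map_mul, hx, hy]

end RQ
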