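import Pool.Agent.H34.RQ.Last

/-!
# Final (helper34, MP_fbf562_RQ): the final theorem from the torus knot data
-/

open CategoryTheory
open scoped unitInterval

namespace RQ

theorem Final_loop {D : LQ.Tri} (t : TorData D) {S : MorphismProperty TopCat.{0}} (hS : S ≤ ratIso)
    {W : Type} [TopologicalSpace W] (w : W) :
    ¬ RetractIn S (LK.LongKnot 3) (Path w w) ∧ ¬ RetractIn S (LK.FramedLongKnot 3) (Path w w) := by
  have h := Last_main t (Z := Path w w) (fun l => HL_abAt w l)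
  exact ⟨fun h1 => h.1 (RetractIn_mono hS h1), fun h1 => h.2 (RetractIn_mono hS h1)⟩

theorem Final_main {D : LQ.Tri} (t : TorData D) :
    (∀ S : MorphismProperty TopCat.{0}, S ≤ ratIso → ∀ y0 : LK.YY 2,
        ¬ RetractIn S (LK.LongKnot 3) (LK.O2S2 y0) ∧
          ¬ RetractIn S (LK.FramedLongKnot 3) (LK.O2S2 y0)) ∧
      (∀ S : MorphismProperty TopCat.{0}, S ≤ ratIso → ∀ (W : Type) [TopologicalSpace W] (w : W),
        ¬ RetractIn S (LK.LongKnot 3) (Path w w) ∧
          ¬ RetractIn S (LK.FramedLongKnot 3) (Path w w)) ∧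
      ∀ y0 : LK.YY 2, ¬ LK.HRetract (LK.LongKnot 3) (LK.O2S2 y0) ∧
        ¬ LK.HRetract (LK.FramedLongKnot 3) (LK.O2S2 y0) :=
  ⟨fun _ hS _ => Final_loop t hS _, fun _ hS _ _ w => Final_loop t hS w,
    fun y0 => ⟨fun h => (Final_loop t le_rfl (Path.refl (LK.suspBase (LK.suspBase y0)))).1
      (HL_hretract h), fun h => (Final_loop t le_rfl (Path.refl (LK.suspBase (LK.suspBase y0)))).2
      (HL_hretract h)⟩⟩

end RQ
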