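import Pool.Agent.H34.RQ.T0

/-!
# GD (helper34, MP_fbf562_RQ): the amalgam `GG` of the three groups

* `merHom_inj` : `tDeg q (tMu q ^ n) = ofAdd n` (`tDeg_mu`).
* `gDeg` : the homomorphism `GG → ℤ` which is `tDeg` on each factor and the identity on the base.
* `gHom_unique` : two homomorphisms to `ℤ` which agree on `mu` agree: `mu = of i (tMu (qq i))` (`of_merHom` with `n = 1`), so on each
  factor they agree on `tMu`, and `tHom_unique`; then `PushoutI.hom_ext_nonempty`.
* `zz_comm_of` : `zz i` commutes with `of i x` (`tZ_comm`), in particular with `mu`.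
* `GG_T0` : `T0` transported by the injective map `of i` (`PushoutI.of_injective`): if `x : TG (qq i)`.
* `mem_Am_GG` : `base (ofAdd n) = mu ^ n`.
-/

namespace RQ

open Monoid

theorem qq_odd (i : Fin 3) : Odd (qq i) := by
  fin_cases i
  · exact ⟨1, by simp [qq]⟩
  · exact ⟨2, by simp [qq]⟩
  · exact ⟨3, by simp [qq]⟩

theorem qq_ge (i : Fin 3) : 3 ≤ qq i := by
  fin_cases i <;> simp [qq]

theorem merHom_apply (q n : ℤ) : merHom q (Multiplicative.ofAdd n) = tMu q ^ n := by
  simp [merHom, zpowersHom_apply]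

theorem merHom_inj {q : ℤ} (hq : Odd q) : Function.Injective (merHom q) := by
  intro x y hxy
  have h1 : merHom q x = tMu q ^ (Multiplicative.toAdd x) := merHom_apply q (Multiplicative.toAdd x)
  have h2 : merHom q y = tMu q ^ (Multiplicative.toAdd y) := merHom_apply q (Multiplicative.toAdd y)
  rw [h1, h2] at hxy
  have h3 := congrArg (tDeg q) hxy
  rw [map_zpow, map_zpow, tDeg_mu hq, ← ofAdd_zsmul, ← ofAdd_zsmul] at h3
  have h4 := Multiplicative.ofAdd.injective h3
  simpa using h4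

theorem GG_inj : Inj (fun i : Fin 3 => merHom (qq i)) := fun i => merHom_inj (qq_odd i)

/-- The abelianisation of `GG`. -/
def gDeg : GG →* Multiplicative ℤ :=
  PushoutI.lift (fun i => tDeg (qq i)) (MonoidHom.id (Multiplicative ℤ)) (by
    intro i
    ext
    simp [merHom, tDeg_mu (qq_odd i)])

theorem gDeg_mu : gDeg mu = Multiplicative.ofAdd 1 := by
  unfold gDeg mu
  rw [PushoutI.lift_base]
  rfl

theorem gDeg_zz (i : Fin 3) : gDeg (zz i) = Multiplicative.ofAdd (2 * qq i) := by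
  unfold gDeg zz
  rw [PushoutI.lift_of, tDeg_Z]

theorem gHom_unique (f g : GG →* Multiplicative ℤ) (h : f mu = g mu) : f = g := by
  apply PushoutI.hom_ext_nonempty
  intro i
  apply tHom_unique (qq_odd i)
  have h1 := of_merHom i 1
  rw [zpow_one, zpow_one] at h1
  rw [MonoidHom.comp_apply, MonoidHom.comp_apply, h1, h]

theorem mem_Am_GG (g : GG) : g ∈ Am (fun i : Fin 3 => merHom (qq i)) ↔ ∃ n : ℤ, g = mu ^ n := by
  have h2 : ∀ n : ℤ, (PushoutI.base (fun i : Fin 3 => merHom (qq i)) (Multiplicative.ofAdd n) : GG)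
      = mu ^ n := by
    intro n
    have h2 : (Multiplicative.ofAdd n : Multiplicative ℤ) = (Multiplicative.ofAdd (1 : ℤ)) ^ n := by
      simp [← ofAdd_zsmul]
    rw [h2, map_zpow]
    rfl
  constructor
  · rintro ⟨b, rfl⟩
    exact ⟨Multiplicative.toAdd b, h2 _⟩
  · rintro ⟨n, rfl⟩
    exact ⟨Multiplicative.ofAdd n, h2 n⟩

theorem zz_comm_of (i : Fin 3) (x : TG (qq i)) :
    Commute (zz i) (PushoutI.of (φ := fun i : Fin 3 => merHom (qq i)) i x) := by
  have h := (tZ_comm (qq i) x).map (PushoutI.of (φ := fun i : Fin 3 => merHom (qq i)) i)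
  exact h

theorem zz_comm_mu (i : Fin 3) : Commute (zz i) mu := by
  have h1 := of_merHom i 1
  rw [zpow_one, zpow_one] at h1
  rw [← h1]
  exact zz_comm_of i _

/-- `of i (μ ^ a z ^ b)`. -/
theorem of_muZ (i : Fin 3) (a b : ℤ) :
    (PushoutI.of i (tMu (qq i) ^ a * tZ (qq i) ^ b) : GG) = mu ^ a * zz i ^ b := by
  rw [map_mul, of_merHom, map_zpow]
  rfl

/-- The range of `merHom q`. -/
theorem mem_merHom_range {q : ℤ} {x : TG q} : x ∈ (merHom q).range ↔ ∃ n : ℤ, x = tMu q ^ n := by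
  constructor
  · rintro ⟨b, rfl⟩
    exact ⟨Multiplicative.toAdd b, merHom_apply q (Multiplicative.toAdd b)⟩
  · rintro ⟨n, rfl⟩
    exact ⟨Multiplicative.ofAdd n, merHom_apply q n⟩

/-- `μ ^ a z ^ b` is in the subgroup generated by `μ` only if `b = 0` (`T0` with `u = 1`). -/
theorem muZ_mem {q : ℤ} (h3 : 3 ≤ q) (hq : Odd q) (a b : ℤ) :
    tMu q ^ a * tZ q ^ b ∈ (merHom q).range ↔ b = 0 := by
  rw [mem_merHom_range]
  constructor
  · rintro ⟨n, hn⟩
    by_contra hb
    have h1 : (1 : TG q)⁻¹ * (tMu q ^ a * tZ q ^ b) * 1 = tMu q ^ n := by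
      rw [inv_one, one_mul, mul_one, hn]
    exact hb (T0 h3 hq h1 (Or.inr hb)).1
  · rintro rfl
    exact ⟨a, by rw [zpow_zero, mul_one]⟩

/-- `a` is not of the form `μ ^ s z ^ t`: its type has length 1, the one of `μ ^ s z ^ t` is `2 |s|` (`T0a_lenMu`, `ty_right`,
`ty_tA` with `n = 1`). -/
theorem tA_not {q : ℤ} (h3 : 3 ≤ q) (hq : Odd q) (s t : ℤ) : tA q ≠ tMu q ^ s * tZ q ^ t := by
  intro h
  have h1 := T0a_lenMuZ h3 hq s t
  have h2 : ¬ q ∣ 1 := by
    intro hd
    have := Int.le_of_dvd one_pos hd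
    omega
  have h4 := ty_tA (q := q) (by omega) h2
  rw [zpow_one, h] at h4
  rw [h4, List.length_singleton] at h1
  omega

end RQ
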