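import Mathlib

/-!
# The integral Heisenberg group (helper34, MP_fbf562_gt)
-/

namespace RQ

/-- The Heisenberg group over the integers: `(x, y, z) (x', y', z') = (x + x', y + y', z + z' + x y')`. -/
@[ext] structure Heis : Type where
  x : ℤ
  y : ℤ
  z : ℤ

namespace Heis

instance : Mul Heis := ⟨fun a b => ⟨a.x + b.x, a.y + b.y, a.z + b.z + a.x * b.y⟩⟩
instance : One Heis := ⟨⟨0, 0, 0⟩⟩
instance : Inv Heis := ⟨fun a => ⟨-a.x, -a.y, -a.z + a.x * a.y⟩⟩

@[simp] theorem mul_x (a b : Heis) : (a * b).x = a.x + b.x := rfl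
@[simp] theorem mul_y (a b : Heis) : (a * b).y = a.y + b.y := rfl
@[simp] theorem mul_z (a b : Heis) : (a * b).z = a.z + b.z + a.x * b.y := rfl
@[simp] theorem one_x : (1 : Heis).x = 0 := rfl
@[simp] theorem one_y : (1 : Heis).y = 0 := rfl
@[simp] theorem one_z : (1 : Heis).z = 0 := rfl
@[simp] theorem inv_x (a : Heis) : (a⁻¹).x = -a.x := rfl
@[simp] theorem inv_y (a : Heis) : (a⁻¹).y = -a.y := rfl
@[simp] theorem inv_z (a : Heis) : (a⁻¹).z = -a.z + a.x * a.y := rfl

instance : Group Heis :=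
  Group.ofLeftAxioms
    (by intro a b c; ext <;> simp <;> ring)
    (by intro a; ext <;> simp)
    (by intro a; ext <;> simp)

/-- The generator `X`. -/
def X : Heis := ⟨1, 0, 0⟩

/-- The generator `Y`. -/
def Y : Heis := ⟨0, 1, 0⟩

/-- The first coordinate, as a homomorphism. -/
def xHom : Heis →* Multiplicative ℤ where
  toFun a := Multiplicative.ofAdd a.x
  map_one' := rfl
  map_mul' _ _ := rfl

/-- The second coordinate, as a homomorphism. -/
def yHom : Heis →* Multiplicative ℤ where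
  toFun a := Multiplicative.ofAdd a.y
  map_one' := rfl
  map_mul' _ _ := rfl

@[simp] theorem zpow_x (a : Heis) (n : ℤ) : (a ^ n).x = n * a.x := by
  have h := map_zpow xHom a n
  have h2 : Multiplicative.ofAdd (a ^ n).x = (Multiplicative.ofAdd a.x) ^ n := h
  rw [← ofAdd_zsmul] at h2
  simpa using Multiplicative.ofAdd.injective h2

@[simp] theorem zpow_y (a : Heis) (n : ℤ) : (a ^ n).y = n * a.y := by
  have h := map_zpow yHom a n
  have h2 : Multiplicative.ofAdd (a ^ n).y = (Multiplicative.ofAdd a.y) ^ n := h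
  rw [← ofAdd_zsmul] at h2
  simpa using Multiplicative.ofAdd.injective h2

@[simp] theorem X_x : X.x = 1 := rfl
@[simp] theorem X_y : X.y = 0 := rfl
@[simp] theorem Y_x : Y.x = 0 := rfl
@[simp] theorem Y_y : Y.y = 1 := rfl

end Heis

end RQ
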