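import Pool.Agent.H34.RQ.Stmt
import Pool.Agent.H34.RQ.Heis

/-!
# HC (helper34, MP_fbf562_RQ): cochains on simplicial sets with values in `ℚ`

`Cc S k` = functions on the `k`-simplices, `cobd` = alternating sum over the faces, `act`, `cupc` = low degree cup products,
`pull` = pullback.

All statements are pointwise computations. Expand `cobd` with `Fin.sum_univ_succ` (degrees 0, 1, 2: two, three, four terms) and
use the simplicial identities for faces of faces. For a 2-simplex `s` with vertices `0, 1, 2`: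
`δ 0 s = [12]`, `δ 1 s = [02]`, `δ 2 s = [01]`; for a 1-simplex `e`: `δ 1 e` is the source and `δ 0 e` the target. From
`S.δ_comp_δ` (`CategoryTheory.SimplicialObject.δ_comp_δ`, `i ≤ j → S.δ j.succ ≫ S.δ i = S.δ i.castSucc ≫ S.δ j`, apply to elements with
`CategoryTheory.congr_hom` or `congrFun`) one gets for 2-simplices
`δ 1 (δ 2 s) = δ 1 (δ 1 s)` (vertex 0), `δ 0 (δ 2 s) = δ 1 (δ 0 s)` (vertex 1), `δ 0 (δ 1 s) = δ 0 (δ 0 s)` (vertex 2)
(`HC_v0`, `HC_v1`, `HC_v2`), and for 3-simplices the six identities `δ i (δ (j+1) t) = δ j (δ i t)`, `i ≤ j` (`HC_3`).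

* `cobd_pull` : `HomologicalComplex`-free: `f.app _ (S.δ i x) = T.δ i (f.app _ x)` (naturality, `SSet.δ_naturality_apply` or
  `SimplicialObject.δ_naturality`).
* `HC_act_closed` : `a (δ 1 e) = a (δ 0 e)` for every `e` when `cobd a = 0`; so for a 2-simplex all the three vertices have the same
  value of `a` (`HC_v0` ..), and `cobd 1 (act a u) s = a (vertex 0) * cobd 1 u s`.
* `HC_act_exact` : `act a (cobd 0 b) = cobd 0 (a * b)`, using `a (δ 0 e) = a (δ 1 e)`.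
* `HC_cup_closed` : for a 3-simplex with vertices 0123: `cobd 2 (cupc u v)` is
  `u[12] v[23] - u[02] v[23] + u[01] v[13] - u[01] v[12]`, and `u[02] = u[01] + u[12]`, `v[13] = v[12] + v[23]` by the
  cocycle equations for the faces.
* `HC_cup_left` : `cupc (cobd 0 a) v = cobd 1 (act a v)` when `cobd 1 v = 0`.
* `HC_cup_right` : `cupc u (cobd 0 b) = cobd 1 w` with `w e = - (u e * b (δ 0 e))` when `cobd 1 u = 0`.
-/

open CategoryTheory Simplicial

namespace RQ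

/-- Cochains of degree `k`. -/
abbrev Cc (S : SSet.{0}) (k : ℕ) : Type := S _⦋k⦌ → ℚ

/-- The coboundary. -/
def cobd (S : SSet.{0}) (k : ℕ) : Cc S k →ₗ[ℚ] Cc S (k + 1) where
  toFun φ x := ∑ i : Fin (k + 2), (-1 : ℚ) ^ (i : ℕ) * φ (S.δ i x)
  map_add' φ ψ := by
    funext x
    simp [mul_add, Finset.sum_add_distrib]
  map_smul' r φ := by
    funext x
    simp only [Pi.smul_apply, smul_eq_mul, RingHom.id_apply, Finset.mul_sum]
    exact Finset.sum_congr rfl fun i _ => by ring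

/-- The pullback of cochains. -/
def pull {S T : SSet.{0}} (f : S ⟶ T) (k : ℕ) : Cc T k →ₗ[ℚ] Cc S k where
  toFun φ x := φ (f.app _ x)
  map_add' _ _ := rfl
  map_smul' _ _ := rfl

/-- The product of a cochain of degree `0` and a cochain of degree `1`. -/
def act {S : SSet.{0}} (a : Cc S 0) (u : Cc S 1) : Cc S 1 := fun e => a (S.δ 1 e) * u e

/-- The cup product of two cochains of degree `1`. -/
def cupc {S : SSet.{0}} (u v : Cc S 1) : Cc S 2 := fun s => u (S.δ 2 s) * v (S.δ 0 s)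

theorem cobd0_apply {S : SSet.{0}} (a : Cc S 0) (e : S _⦋1⦌) :
    cobd S 0 a e = a (S.δ 0 e) - a (S.δ 1 e) := by
  have h : cobd S 0 a e = ∑ i : Fin 2, (-1 : ℚ) ^ (i : ℕ) * a (S.δ i e) := rfl
  rw [h, Fin.sum_univ_two]
  simp only [Fin.val_zero, Fin.val_one, pow_zero, pow_one]
  ring

theorem cobd1_apply {S : SSet.{0}} (u : Cc S 1) (s : S _⦋2⦌) :
    cobd S 1 u s = u (S.δ 0 s) - u (S.δ 1 s) + u (S.δ 2 s) := by
  have h : cobd S 1 u s = ∑ i : Fin 3, (-1 : ℚ) ^ (i : ℕ) * u (S.δ i s) := rfl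
  rw [h, Fin.sum_univ_three]
  simp only [Fin.val_zero, Fin.val_one, Fin.val_two, pow_zero, pow_one]
  ring

theorem HC_cobd2_apply {S : SSet.{0}} (φ : Cc S 2) (t : S _⦋3⦌) :
    cobd S 2 φ t = φ (S.δ 0 t) - φ (S.δ 1 t) + φ (S.δ 2 t) - φ (S.δ 3 t) := by
  have h : cobd S 2 φ t = ∑ i : Fin 4, (-1 : ℚ) ^ (i : ℕ) * φ (S.δ i t) := rfl
  rw [h, Fin.sum_univ_four]
  have h3 : ((3 : Fin 4) : ℕ) = 3 := rfl
  simp only [Fin.val_zero, Fin.val_one, Fin.val_two, h3, pow_zero, pow_one]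
  ring

theorem HC_v0 {S : SSet.{0}} (s : S _⦋2⦌) : S.δ 1 (S.δ 2 s) = S.δ 1 (S.δ 1 s) := by
  exact SSet.δ_comp_δ_apply (i := 1) (j := 1) le_rfl s

theorem HC_v1 {S : SSet.{0}} (s : S _⦋2⦌) : S.δ 0 (S.δ 2 s) = S.δ 1 (S.δ 0 s) := by
  exact SSet.δ_comp_δ_apply (i := 0) (j := 1) (Fin.zero_le _) s

theorem HC_v2 {S : SSet.{0}} (s : S _⦋2⦌) : S.δ 0 (S.δ 1 s) = S.δ 0 (S.δ 0 s) := by
  exact SSet.δ_comp_δ_apply (i := 0) (j := 0) le_rfl s

theorem cobd_pull {S T : SSet.{0}} (f : S ⟶ T) (k : ℕ) (φ : Cc T k) :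
    cobd S k (pull f k φ) = pull f (k + 1) (cobd T k φ) := by
  funext x
  show ∑ i : Fin (k + 2), (-1 : ℚ) ^ (i : ℕ) * φ (f.app _ (S.δ i x)) =
    ∑ i : Fin (k + 2), (-1 : ℚ) ^ (i : ℕ) * φ (T.δ i (f.app _ x))
  refine Finset.sum_congr rfl fun i _ => ?_
  rw [SSet.δ_naturality_apply]

theorem pull_act {S T : SSet.{0}} (f : S ⟶ T) (a : Cc T 0) (u : Cc T 1) :
    pull f 1 (act a u) = act (pull f 0 a) (pull f 1 u) := by
  funext e
  show a (T.δ 1 (f.app _ e)) * u (f.app _ e) = a (f.app _ (S.δ 1 e)) * u (f.app _ e)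
  rw [SSet.δ_naturality_apply]

theorem pull_cupc {S T : SSet.{0}} (f : S ⟶ T) (u v : Cc T 1) :
    pull f 2 (cupc u v) = cupc (pull f 1 u) (pull f 1 v) := by
  funext e
  show u (T.δ 2 (f.app _ e)) * v (T.δ 0 (f.app _ e)) =
    u (f.app _ (S.δ 2 e)) * v (f.app _ (S.δ 0 e))
  rw [SSet.δ_naturality_apply, SSet.δ_naturality_apply]

theorem HC_one (S : SSet.{0}) : cobd S 0 1 = 0 := by
  funext e
  rw [cobd0_apply]
  simp

theorem HC_cl {S : SSet.{0}} {a : Cc S 0} (ha : cobd S 0 a = 0) (e : S _⦋1⦌) :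
    a (S.δ 0 e) = a (S.δ 1 e) := by
  have h := congrFun ha e
  rw [cobd0_apply, Pi.zero_apply] at h
  linarith

theorem HC_cl1 {S : SSet.{0}} {u : Cc S 1} (hu : cobd S 1 u = 0) (s : S _⦋2⦌) :
    u (S.δ 1 s) = u (S.δ 0 s) + u (S.δ 2 s) := by
  have h := congrFun hu s
  rw [cobd1_apply, Pi.zero_apply] at h
  linarith

theorem HC_mul {S : SSet.{0}} {a b : Cc S 0} (ha : cobd S 0 a = 0) (hb : cobd S 0 b = 0) :
    cobd S 0 (a * b) = 0 := by
  funext e
  have h1 := HC_cl ha e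
  have h2 := HC_cl hb e
  rw [cobd0_apply]
  simp only [Pi.mul_apply, Pi.zero_apply, h1, h2, sub_self]

theorem HC_act_closed {S : SSet.{0}} {a : Cc S 0} {u : Cc S 1} (ha : cobd S 0 a = 0)
    (hu : cobd S 1 u = 0) : cobd S 1 (act a u) = 0 := by
  funext s
  have h1 := HC_cl ha (S.δ 2 s)
  have h2 := HC_cl1 hu s
  rw [HC_v1, HC_v0] at h1
  rw [cobd1_apply, Pi.zero_apply]
  unfold act
  rw [HC_v0, h1, h2]
  ring

theorem HC_act_exact {S : SSet.{0}} {a b : Cc S 0} (ha : cobd S 0 a = 0) :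
    act a (cobd S 0 b) = cobd S 0 (a * b) := by
  funext e
  have h1 := HC_cl ha e
  rw [cobd0_apply]
  unfold act
  rw [cobd0_apply, Pi.mul_apply, Pi.mul_apply, h1]
  ring

theorem HC_cup_closed {S : SSet.{0}} {u v : Cc S 1} (hu : cobd S 1 u = 0) (hv : cobd S 1 v = 0) :
    cobd S 2 (cupc u v) = 0 := by
  funext t
  have h1 := HC_cl1 hu (S.δ 3 t)
  have h2 := HC_cl1 hv (S.δ 0 t)
  have e1 : S.δ 0 (S.δ 1 t) = S.δ 0 (S.δ 0 t) :=
    SSet.δ_comp_δ_apply (i := (0 : Fin 3)) (j := 0) le_rfl t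
  have e2 : S.δ 0 (S.δ 2 t) = S.δ 1 (S.δ 0 t) :=
    SSet.δ_comp_δ_apply (i := (0 : Fin 3)) (j := 1) (Fin.zero_le _) t
  have e3 : S.δ 0 (S.δ 3 t) = S.δ 2 (S.δ 0 t) :=
    SSet.δ_comp_δ_apply (i := (0 : Fin 3)) (j := 2) (Fin.zero_le _) t
  have e4 : S.δ 1 (S.δ 3 t) = S.δ 2 (S.δ 1 t) :=
    SSet.δ_comp_δ_apply (i := (1 : Fin 3)) (j := 2) (by decide) t
  have e5 : S.δ 2 (S.δ 3 t) = S.δ 2 (S.δ 2 t) :=
    SSet.δ_comp_δ_apply (i := (2 : Fin 3)) (j := 2) le_rfl t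
  rw [e3, e4, e5] at h1
  rw [HC_cobd2_apply, Pi.zero_apply]
  unfold cupc
  rw [e1, e2, e3, e5, h2]
  linear_combination v (S.δ 0 (S.δ 0 t)) * (-h1)

theorem HC_cup_left {S : SSet.{0}} {a : Cc S 0} {v : Cc S 1} (hv : cobd S 1 v = 0) :
    ∃ w, cupc (cobd S 0 a) v = cobd S 1 w := by
  refine ⟨act a v, ?_⟩
  funext s
  have h1 := HC_cl1 hv s
  rw [cobd1_apply]
  unfold cupc act
  rw [cobd0_apply, HC_v0, HC_v1, h1]
  ring

theorem HC_cup_right {S : SSet.{0}} {u : Cc S 1} {b : Cc S 0} (hu : cobd S 1 u = 0) :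
    ∃ w, cupc u (cobd S 0 b) = cobd S 1 w := by
  refine ⟨fun e => -(u e * b (S.δ 0 e)), ?_⟩
  funext s
  have h1 := HC_cl1 hu s
  rw [cobd1_apply]
  unfold cupc
  rw [cobd0_apply, HC_v1, HC_v2, h1]
  ring

/-- Additivity of the operations. -/
theorem act_add {S : SSet.{0}} (a : Cc S 0) (u v : Cc S 1) : act a (u + v) = act a u + act a v := by
  funext e
  simp only [act, Pi.add_apply]
  ring

theorem cupc_add_left {S : SSet.{0}} (u u' v : Cc S 1) : cupc (u + u') v = cupc u v + cupc u' v := by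
  funext e
  simp only [cupc, Pi.add_apply]
  ring

theorem cupc_add_right {S : SSet.{0}} (u v v' : Cc S 1) : cupc u (v + v') = cupc u v + cupc u v' := by
  funext e
  simp only [cupc, Pi.add_apply]
  ring

end RQ
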