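import Pool.Agent.H34.RQ.HU3

/-!
# HF (helper34, MP_fbf562_RQ): the cohomology in degrees `0, 1, 2` as a functor on the rational localisation

`HAlg` : sets `A0, A1, A2` with operations; a morphism `P ⟶ Q` is a triple of maps in the opposite direction preserving the
operations. `hal S` : the cohomology of a simplicial set. `HFun : TopCat ⥤ HAlg` inverts `ratIso`.

All definitions are complete. To prove:
* `HAlg_isIso` : a morphism all of whose three components are bijective is an isomorphism (build the inverse with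
  `Equiv.ofBijective`; the operations are preserved by the inverse maps because they are preserved by the maps).
* `HF_inv` : for `f` in `ratIso` the components of `HFun.map f` are bijective: degree 0: `HU3_inj0` (applied to a difference),
  `HU3_surj0`; degrees 1 and 2: `HU3_inj`, `HU3_surj` with `k = 0, 1` (injectivity: if the pullbacks are equivalent, apply
  `HU3_inj` to the difference).
* `HF_main` : the consequence for retracts. Let `R : Retract (ratIso.Q.obj X) (ratIso.Q.obj Z)`. The functor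
  `G = Localization.Construction.lift HFun HF_inv : ratIso.Localization ⥤ HAlg` satisfies `ratIso.Q ⋙ G = HFun`
  (`Localization.Construction.fac`), so `G` maps `R` to a retract (`Retract.map`) `G.obj (Q.obj X)`, `G.obj (Q.obj Z)`, and
  these objects are equal to `HFun.obj X`, `HFun.obj Z` (`Functor.congr_obj`; or use the natural isomorphism
  `eqToIso (fac ..)` and `Retract.ofIso`-style composition: `i' = e.inv.app X ≫ G.map i ≫ e.hom.app Z`).
  So there are morphisms `i : hal X ⟶ hal Z`, `r : hal Z ⟶ hal X` with `i ≫ r = 𝟙`. Everything else is in terms of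
  these morphisms.
-/

open CategoryTheory Simplicial

namespace RQ

/-- Sets with the operations of the cohomology in degrees `0, 1, 2`. -/
structure HAlg : Type 1 where
  A0 : Type
  A1 : Type
  A2 : Type
  one : A0
  add0 : A0 → A0 → A0
  mul0 : A0 → A0 → A0
  smul : A0 → A1 → A1
  add1 : A1 → A1 → A1
  zero1 : A1
  cup : A1 → A1 → A2
  zero2 : A2

/-- A morphism: maps in the opposite direction preserving the operations. -/
@[ext] structure HHom (P Q : HAlg) : Type where
  f0 : Q.A0 → P.A0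
  f1 : Q.A1 → P.A1
  f2 : Q.A2 → P.A2
  one : f0 Q.one = P.one
  add0 : ∀ a b, f0 (Q.add0 a b) = P.add0 (f0 a) (f0 b)
  mul0 : ∀ a b, f0 (Q.mul0 a b) = P.mul0 (f0 a) (f0 b)
  smul : ∀ a u, f1 (Q.smul a u) = P.smul (f0 a) (f1 u)
  add1 : ∀ u v, f1 (Q.add1 u v) = P.add1 (f1 u) (f1 v)
  zero1 : f1 Q.zero1 = P.zero1
  cup : ∀ u v, f2 (Q.cup u v) = P.cup (f1 u) (f1 v)
  zero2 : f2 Q.zero2 = P.zero2

instance : Category HAlg where
  Hom P Q := HHom P Q
  id P :=
    { f0 := id, f1 := id, f2 := id, one := rfl, add0 := fun _ _ => rfl, mul0 := fun _ _ => rfl,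
      smul := fun _ _ => rfl, add1 := fun _ _ => rfl, zero1 := rfl, cup := fun _ _ => rfl,
      zero2 := rfl }
  comp f g :=
    { f0 := fun a => f.f0 (g.f0 a), f1 := fun a => f.f1 (g.f1 a), f2 := fun a => f.f2 (g.f2 a),
      one := by rw [g.one, f.one], add0 := fun _ _ => by rw [g.add0, f.add0],
      mul0 := fun _ _ => by rw [g.mul0, f.mul0], smul := fun _ _ => by rw [g.smul, f.smul],
      add1 := fun _ _ => by rw [g.add1, f.add1], zero1 := by rw [g.zero1, f.zero1],
      cup := fun _ _ => by rw [g.cup, f.cup], zero2 := by rw [g.zero2, f.zero2] }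

/-- Cocycles. -/
abbrev Zc (S : SSet.{0}) (k : ℕ) : Type := {u : Cc S k // cobd S k u = 0}

/-- Cohomologous cocycles. -/
def cohSetoid (S : SSet.{0}) (k : ℕ) : Setoid (Zc S (k + 1)) where
  r u v := ∃ a : Cc S k, u.1 = v.1 + cobd S k a
  iseqv :=
    { refl := fun u => ⟨0, by simp⟩
      symm := fun {u v} ⟨a, h⟩ => ⟨-a, by rw [h, map_neg]; abel⟩
      trans := fun {u v w} ⟨a, h⟩ ⟨b, h'⟩ => ⟨a + b, by rw [h, h', map_add]; abel⟩ }

/-- Cohomology in degree `k + 1`. -/
def HH (S : SSet.{0}) (k : ℕ) : Type := Quotient (cohSetoid S k)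

/-- The class of a cocycle. -/
def cls {S : SSet.{0}} {k : ℕ} (u : Zc S (k + 1)) : HH S k := Quotient.mk _ u

theorem cls_eq {S : SSet.{0}} {k : ℕ} {u v : Zc S (k + 1)} :
    cls u = cls v ↔ ∃ a : Cc S k, u.1 = v.1 + cobd S k a :=
  ⟨fun h => Quotient.exact h, fun h => Quotient.sound h⟩

/-- Addition of classes of degree `1`. -/
def hadd (S : SSet.{0}) : HH S 0 → HH S 0 → HH S 0 :=
  Quotient.map₂ (fun u v => ⟨u.1 + v.1, by rw [map_add, u.2, v.2, add_zero]⟩) (by
    rintro u u' ⟨a, ha⟩ v v' ⟨b, hb⟩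
    exact ⟨a + b, by simp only [ha, hb, map_add]; abel⟩)

/-- Action of degree `0` on degree `1`. -/
def hact (S : SSet.{0}) (a : Zc S 0) : HH S 0 → HH S 0 :=
  Quotient.map (fun u => ⟨act a.1 u.1, HC_act_closed a.2 u.2⟩) (by
    rintro u u' ⟨b, hb⟩
    refine ⟨a.1 * b, ?_⟩
    have h1 := act_add a.1 u'.1 (cobd S 0 b)
    have h2 := HC_act_exact (b := b) a.2
    show act a.1 u.1 = act a.1 u'.1 + cobd S 0 (a.1 * b)
    rw [hb, ← h2]
    exact h1)

/-- The cup product of classes of degree `1`. -/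
def hcup (S : SSet.{0}) : HH S 0 → HH S 0 → HH S 1 :=
  Quotient.map₂ (fun u v => ⟨cupc u.1 v.1, HC_cup_closed u.2 v.2⟩) (by
    rintro u u' ⟨a, ha⟩ v v' ⟨b, hb⟩
    obtain ⟨w, hw⟩ := HC_cup_left (a := a) v'.2
    obtain ⟨w', hw'⟩ := HC_cup_right (b := b) u.2
    refine ⟨w + w', ?_⟩
    have h1 : cupc u.1 v.1 = cupc u.1 v'.1 + cupc u.1 (cobd S 0 b) := by
      rw [hb, cupc_add_right]
    have h2 : cupc u.1 v'.1 = cupc u'.1 v'.1 + cupc (cobd S 0 a) v'.1 := by
      rw [ha, cupc_add_left]
    show cupc u.1 v.1 = cupc u'.1 v'.1 + cobd S 1 (w + w')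
    rw [h1, h2, hw, hw', map_add, add_assoc])

/-- The cohomology of a simplicial set in degrees `0, 1, 2`. -/
def hal (S : SSet.{0}) : HAlg where
  A0 := Zc S 0
  A1 := HH S 0
  A2 := HH S 1
  one := ⟨1, HC_one S⟩
  add0 a b := ⟨a.1 + b.1, by rw [map_add, a.2, b.2, add_zero]⟩
  mul0 a b := ⟨a.1 * b.1, HC_mul a.2 b.2⟩
  smul := hact S
  add1 := hadd S
  zero1 := cls ⟨0, map_zero _⟩
  cup := hcup S
  zero2 := cls ⟨0, map_zero _⟩

theorem pull_closed {S T : SSet.{0}} (f : S ⟶ T) (k : ℕ) (u : Zc T k) :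
    cobd S k (pull f k u.1) = 0 := by
  rw [cobd_pull, u.2, map_zero]

/-- Pullback of classes. -/
def hpull {S T : SSet.{0}} (f : S ⟶ T) (k : ℕ) : HH T k → HH S k :=
  Quotient.map (fun u => ⟨pull f (k + 1) u.1, pull_closed f (k + 1) u⟩) (by
    rintro u u' ⟨b, hb⟩
    exact ⟨pull f k b, by simp only [hb, map_add, cobd_pull]⟩)

/-- The morphism induced by a map of simplicial sets. -/
def halMap {S T : SSet.{0}} (f : S ⟶ T) : hal S ⟶ hal T :=
  { f0 := fun a => ⟨pull f 0 a.1, pull_closed f 0 a⟩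
    f1 := hpull f 0
    f2 := hpull f 1
    one := rfl
    add0 := fun _ _ => rfl
    mul0 := fun _ _ => rfl
    smul := fun a u => by
      induction u using Quotient.inductionOn with
      | h u => exact congrArg cls (Subtype.ext (pull_act f a.1 u.1))
    add1 := fun u v => by
      induction u, v using Quotient.inductionOn₂ with
      | h u v => rfl
    zero1 := rfl
    cup := fun u v => by
      induction u, v using Quotient.inductionOn₂ with
      | h u v => exact congrArg cls (Subtype.ext (pull_cupc f u.1 v.1))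
    zero2 := rfl }

/-- The functor from simplicial sets. -/
def halFun : SSet.{0} ⥤ HAlg where
  obj S := hal S
  map f := halMap f
  map_id S := by
    refine HHom.ext rfl ?_ ?_ <;> funext u <;>
      induction u using Quotient.inductionOn with
      | h u => rfl
  map_comp f g := by
    refine HHom.ext rfl ?_ ?_ <;> funext u <;>
      induction u using Quotient.inductionOn with
      | h u => rfl

/-- The functor from spaces. -/
noncomputable def HFun : TopCat.{0} ⥤ HAlg := TopCat.toSSet ⋙ halFun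

theorem HAlg_isIso {P Q : HAlg} (f : P ⟶ Q) (h0 : Function.Bijective (HHom.f0 f))
    (h1 : Function.Bijective (HHom.f1 f)) (h2 : Function.Bijective (HHom.f2 f)) : IsIso f := by
  have s0 : ∀ x, HHom.f0 f ((Equiv.ofBijective _ h0).symm x) = x := fun x =>
    (Equiv.ofBijective _ h0).apply_symm_apply x
  have s1 : ∀ x, HHom.f1 f ((Equiv.ofBijective _ h1).symm x) = x := fun x =>
    (Equiv.ofBijective _ h1).apply_symm_apply x
  have s2 : ∀ x, HHom.f2 f ((Equiv.ofBijective _ h2).symm x) = x := fun x =>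
    (Equiv.ofBijective _ h2).apply_symm_apply x
  have t0 : ∀ x, (Equiv.ofBijective _ h0).symm (HHom.f0 f x) = x := fun x =>
    (Equiv.ofBijective _ h0).symm_apply_apply x
  have t1 : ∀ x, (Equiv.ofBijective _ h1).symm (HHom.f1 f x) = x := fun x =>
    (Equiv.ofBijective _ h1).symm_apply_apply x
  have t2 : ∀ x, (Equiv.ofBijective _ h2).symm (HHom.f2 f x) = x := fun x =>
    (Equiv.ofBijective _ h2).symm_apply_apply x
  let g : HHom Q P :=
    { f0 := (Equiv.ofBijective _ h0).symm
      f1 := (Equiv.ofBijective _ h1).symm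
      f2 := (Equiv.ofBijective _ h2).symm
      one := h0.1 (by rw [s0, HHom.one f])
      add0 := fun a b => h0.1 (by rw [s0, HHom.add0 f, s0, s0])
      mul0 := fun a b => h0.1 (by rw [s0, HHom.mul0 f, s0, s0])
      smul := fun a u => h1.1 (by rw [s1, HHom.smul f, s0, s1])
      add1 := fun u v => h1.1 (by rw [s1, HHom.add1 f, s1, s1])
      zero1 := h1.1 (by rw [s1, HHom.zero1 f])
      cup := fun u v => h2.1 (by rw [s2, HHom.cup f, s1, s1])
      zero2 := h2.1 (by rw [s2, HHom.zero2 f]) }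
  refine ⟨g, ?_, ?_⟩
  · exact HHom.ext (funext fun x => s0 x) (funext fun x => s1 x) (funext fun x => s2 x)
  · exact HHom.ext (funext fun x => t0 x) (funext fun x => t1 x) (funext fun x => t2 x)

private theorem HF_bij {X Y : TopCat.{0}} {f : X ⟶ Y} (hf : ratIso f) (k : ℕ) :
    Function.Bijective (hpull (TopCat.toSSet.map f) k) := by
  constructor
  · intro u v h
    induction u, v using Quotient.inductionOn₂ with
    | h u v =>
      have h' : cls (⟨pull (TopCat.toSSet.map f) (k + 1) u.1, pull_closed _ (k + 1) u⟩ :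
          Zc (TopCat.toSSet.obj X) (k + 1)) =
          cls ⟨pull (TopCat.toSSet.map f) (k + 1) v.1, pull_closed _ (k + 1) v⟩ := h
      obtain ⟨a, ha⟩ := cls_eq.mp h'
      obtain ⟨χ, hχ⟩ := HU3_inj hf k (φ := u.1 - v.1) (ψ := a)
        (by rw [map_sub, u.2, v.2, sub_zero]) (by
          rw [map_sub, sub_eq_iff_eq_add']
          exact ha)
      exact cls_eq.mpr ⟨χ, by rw [← hχ]; abel⟩
  · intro w
    induction w using Quotient.inductionOn with
    | h w =>
      obtain ⟨Φ, ψ, h1, h2⟩ := HU3_surj hf k (φ := w.1) w.2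
      exact ⟨cls ⟨Φ, h1⟩, cls_eq.mpr ⟨ψ, h2⟩⟩

theorem HF_inv : ratIso.IsInvertedBy HFun := by
  intro X Y f hf
  refine HAlg_isIso _ ?_ (HF_bij hf 0) (HF_bij hf 1)
  constructor
  · intro a b h
    have h' : pull (TopCat.toSSet.map f) 0 a.1 = pull (TopCat.toSSet.map f) 0 b.1 :=
      congrArg Subtype.val h
    have h2 := HU3_inj0 hf (φ := a.1 - b.1) (by rw [map_sub, a.2, b.2, sub_zero])
      (by rw [map_sub, h', sub_self])
    exact Subtype.ext (sub_eq_zero.mp h2)
  · intro w
    obtain ⟨Φ, h1, h2⟩ := HU3_surj0 hf (φ := w.1) w.2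
    exact ⟨⟨Φ, h1⟩, Subtype.ext h2⟩

theorem HF_main {X Z : TopCat.{0}} (R : Retract (ratIso.Q.obj X) (ratIso.Q.obj Z)) :
    ∃ (i : hal (TopCat.toSSet.obj X) ⟶ hal (TopCat.toSSet.obj Z))
      (r : hal (TopCat.toSSet.obj Z) ⟶ hal (TopCat.toSSet.obj X)), i ≫ r = 𝟙 _ := by
  have e : ratIso.Q ⋙ Localization.Construction.lift HFun HF_inv ≅ HFun :=
    eqToIso (Localization.Construction.fac HFun HF_inv)
  let G := Localization.Construction.lift HFun HF_inv
  have key : (e.inv.app X ≫ G.map R.i ≫ e.hom.app Z) ≫ (e.inv.app Z ≫ G.map R.r ≫ e.hom.app X)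
      = 𝟙 (HFun.obj X) := by
    have h1 : e.hom.app Z ≫ e.inv.app Z = 𝟙 _ := e.hom_inv_id_app Z
    have h2 : e.inv.app X ≫ e.hom.app X = 𝟙 _ := e.inv_hom_id_app X
    have h3 : G.map R.i ≫ G.map R.r = 𝟙 _ := by
      rw [← G.map_comp, R.retract, G.map_id]
    calc (e.inv.app X ≫ G.map R.i ≫ e.hom.app Z) ≫ (e.inv.app Z ≫ G.map R.r ≫ e.hom.app X)
        = e.inv.app X ≫ G.map R.i ≫ (e.hom.app Z ≫ e.inv.app Z) ≫ G.map R.r ≫ e.hom.app X := by
          simp only [Category.assoc]
      _ = e.inv.app X ≫ (G.map R.i ≫ G.map R.r) ≫ e.hom.app X := by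
          rw [h1]
          simp only [Category.assoc]
          congr 2
      _ = e.inv.app X ≫ e.hom.app X := by
          rw [h3]
          congr 1
      _ = 𝟙 _ := h2
  exact ⟨_, _, key⟩

end RQ
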