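import Pool.Agent.H34.RQ.HS

/-!
# HK (helper34, MP_fbf562_RQ): two-dimensional singular simplices from paths and homotopies

Faces are computed with `HS_face` (or directly with `TopCat.toSSetObjEquiv_δ_apply`): the face `δ i` of `smk 2 τ` is the edge
`t ↦ τ (z)` where `z` has coordinate `0` at `i` and the two coordinates of `t` elsewhere.

* `K1` : `s = smk 2 τ`, `τ z = (p.trans q) (z 1 / 2 + z 2)`. Face `δ 2` (`z = (t0, t1, 0)`): `(p.trans q) (t1 / 2) = p t1`. Face `δ 0`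
  (`z = (0, t0, t1)`): `z 1 / 2 + z 2 = t0 / 2 + t1 = (1 + t1) / 2`, value `q t1`. Face `δ 1` (`z = (t0, 0, t1)`): `(p.trans q) t1`.
* `K2` : `H : p.Homotopy q` (`H (a, t)`, `H (0, t) = p t`, `H (1, t) = q t`, `H (a, 0) = x`, `H (a, 1) = y`). `s = smk 2 (z ↦ H (z 2, z 1 + z 2))`:
  `δ 2`: `H (0, t1) = p t1`; `δ 0`: `H (t1, 1) = y`; `δ 1`: `H (t1, t1)`. `s' = smk 2 (z ↦ H (z 1 + z 2, z 2))`: `δ 2`: `H (t1, 0) = x`;
  `δ 0`: `H (1, t1) = q t1`; `δ 1`: `H (t1, t1)`.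
* `K3` : `τ` the continuous map of `s` on the simplex; `v i` the vertices (`stdSimplex.vertex i`). Let `E i j : Path (v i) (v j)` in the simplex be the
  affine path `t ↦ (1 - t) v i + t v j`; `x, y, z = τ (v 0), τ (v 1), τ (v 2)`, `p = (E 0 1).map`, `q = (E 1 2).map`, `r = (E 0 2).map`. The simplex
  is contractible (convex), so simply connected: `(E 0 1).trans (E 1 2)` and `E 0 2` are homotopic
  (`SimplyConnectedSpace.paths_homotopic`), then `Path.Homotopic.map` and `Path.map_trans`.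
* `K4` : the constant 2-simplex.
-/

open CategoryTheory Simplicial Opposite
open scoped unitInterval

namespace RQ

variable {X : Type} [TopologicalSpace X]

/-- the projection to the unit interval -/
private noncomputable def HK_c (t : ℝ) : I := Set.projIcc (0 : ℝ) 1 zero_le_one t

private theorem HK_cont : Continuous HK_c := continuous_projIcc (h := zero_le_one)

private theorem HK_c_of {t : ℝ} (h0 : 0 ≤ t) (h1 : t ≤ 1) : HK_c t = ⟨t, h0, h1⟩ :=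
  Set.projIcc_of_mem _ ⟨h0, h1⟩

private theorem HK_c0 : HK_c 0 = 0 := by
  rw [HK_c_of le_rfl zero_le_one]
  rfl

private theorem HK_c1 : HK_c 1 = 1 := by
  rw [HK_c_of zero_le_one le_rfl]
  rfl

private theorem HK_face {x y : X} (τ : C(stdSimplex ℝ (Fin 3), X)) (i : Fin 3) (p : Path x y)
    (h : ∀ (z : stdSimplex ℝ (Fin 2)) (w : stdSimplex ℝ (Fin 3)), w.1 i = 0 →
      (∀ j, w.1 (i.succAbove j) = z.1 j) → τ w = p (HK_c (z.1 1))) :
    (SX X).δ i (smk 2 τ) = ed p := by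
  obtain ⟨g, g0, g1, g2⟩ := HS_face 1 τ i
  rw [g2]
  unfold ed
  congr 1
  ext z
  exact h z (g z) (g0 z) (g1 z)

private theorem HK_sum2 (z : stdSimplex ℝ (Fin 2)) :
    0 ≤ z.1 0 ∧ 0 ≤ z.1 1 ∧ z.1 0 + z.1 1 = 1 := by
  have h := z.2.2
  rw [Fin.sum_univ_two] at h
  exact ⟨z.2.1 0, z.2.1 1, h⟩

private theorem HK_sa0 (z : stdSimplex ℝ (Fin 2)) (w : stdSimplex ℝ (Fin 3))
    (h : ∀ j, w.1 ((0 : Fin 3).succAbove j) = z.1 j) : w.1 1 = z.1 0 ∧ w.1 2 = z.1 1 :=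
  ⟨h 0, h 1⟩

private theorem HK_sa1 (z : stdSimplex ℝ (Fin 2)) (w : stdSimplex ℝ (Fin 3))
    (h : ∀ j, w.1 ((1 : Fin 3).succAbove j) = z.1 j) : w.1 0 = z.1 0 ∧ w.1 2 = z.1 1 :=
  ⟨h 0, h 1⟩

private theorem HK_sa2 (z : stdSimplex ℝ (Fin 2)) (w : stdSimplex ℝ (Fin 3))
    (h : ∀ j, w.1 ((2 : Fin 3).succAbove j) = z.1 j) : w.1 0 = z.1 0 ∧ w.1 1 = z.1 1 :=
  ⟨h 0, h 1⟩

private theorem HK_co (k : Fin 3) : Continuous fun z : stdSimplex ℝ (Fin 3) => z.1 k :=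
  (continuous_apply k).comp continuous_subtype_val

theorem K1 {x y z : X} (p : Path x y) (q : Path y z) : ∃ s : (SX X) _⦋2⦌,
    (SX X).δ 2 s = ed p ∧ (SX X).δ 0 s = ed q ∧ (SX X).δ 1 s = ed (p.trans q) := by
  have hc : Continuous fun w : stdSimplex ℝ (Fin 3) =>
      (p.trans q) (HK_c (w.1 1 / 2 + w.1 2)) :=
    (p.trans q).continuous.comp (HK_cont.comp (((HK_co 1).div_const 2).add (HK_co 2)))
  refine ⟨smk 2 ⟨_, hc⟩, ?_, ?_, ?_⟩
  · refine HK_face _ 2 p fun t w h0 h1 => ?_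
    obtain ⟨e1, e2⟩ := HK_sa2 t w h1
    obtain ⟨b0, b1, b2⟩ := HK_sum2 t
    show (p.trans q) (HK_c (w.1 1 / 2 + w.1 2)) = _
    rw [h0, e2, HK_c_of (by linarith) (by linarith), HK_c_of b1 (by linarith),
      Path.trans_apply, dif_pos (by show t.1 1 / 2 + 0 ≤ 1 / 2; linarith)]
    congr 1
    ext
    show 2 * (t.1 1 / 2 + 0) = t.1 1
    ring
  · refine HK_face _ 0 q fun t w h0 h1 => ?_
    obtain ⟨e1, e2⟩ := HK_sa0 t w h1
    obtain ⟨b0, b1, b2⟩ := HK_sum2 t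
    show (p.trans q) (HK_c (w.1 1 / 2 + w.1 2)) = _
    rw [e1, e2, HK_c_of (by linarith) (by linarith), HK_c_of b1 (by linarith),
      Path.trans_apply]
    by_cases hh : t.1 0 / 2 + t.1 1 ≤ 1 / 2
    · rw [dif_pos hh]
      have h3 : t.1 1 = 0 := by linarith
      have h4 : (⟨2 * (t.1 0 / 2 + t.1 1), (unitInterval.mul_pos_mem_iff zero_lt_two).2
          ⟨by show 0 ≤ t.1 0 / 2 + t.1 1; linarith, hh⟩⟩ : I) = 1 := by
        ext
        show 2 * (t.1 0 / 2 + t.1 1) = 1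
        linarith
      have h5 : (⟨t.1 1, b1, by linarith⟩ : I) = 0 := by
        ext
        exact h3
      rw [h5, q.source]
      refine Eq.trans ?_ p.target
      exact congrArg p h4
    · rw [dif_neg hh]
      congr 1
      ext
      show 2 * (t.1 0 / 2 + t.1 1) - 1 = t.1 1
      linarith
  · refine HK_face _ 1 (p.trans q) fun t w h0 h1 => ?_
    obtain ⟨e1, e2⟩ := HK_sa1 t w h1
    show (p.trans q) (HK_c (w.1 1 / 2 + w.1 2)) = _
    rw [h0, e2]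
    congr 2
    ring

theorem K2 {x y : X} {p q : Path x y} (h : p.Homotopic q) : ∃ s s' : (SX X) _⦋2⦌,
    (SX X).δ 2 s = ed p ∧ (SX X).δ 0 s = ed (Path.refl y) ∧ (SX X).δ 2 s' = ed (Path.refl x) ∧
      (SX X).δ 0 s' = ed q ∧ (SX X).δ 1 s = (SX X).δ 1 s' := by
  obtain ⟨H⟩ := h
  have hc : Continuous fun w : stdSimplex ℝ (Fin 3) => H (HK_c (w.1 2), HK_c (w.1 1 + w.1 2)) :=
    H.continuous.comp ((HK_cont.comp (HK_co 2)).prodMk
      (HK_cont.comp ((HK_co 1).add (HK_co 2))))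
  have hc' : Continuous fun w : stdSimplex ℝ (Fin 3) =>
      H (HK_c (w.1 1 + w.1 2), HK_c (w.1 2)) :=
    H.continuous.comp ((HK_cont.comp ((HK_co 1).add (HK_co 2))).prodMk
      (HK_cont.comp (HK_co 2)))
  refine ⟨smk 2 ⟨_, hc⟩, smk 2 ⟨_, hc'⟩, ?_, ?_, ?_, ?_, ?_⟩
  · refine HK_face _ 2 p fun t w h0 h1 => ?_
    obtain ⟨e1, e2⟩ := HK_sa2 t w h1
    show H (HK_c (w.1 2), HK_c (w.1 1 + w.1 2)) = _
    rw [h0, e2, HK_c0, add_zero]
    exact H.apply_zero _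
  · refine HK_face _ 0 (Path.refl y) fun t w h0 h1 => ?_
    obtain ⟨e1, e2⟩ := HK_sa0 t w h1
    obtain ⟨b0, b1, b2⟩ := HK_sum2 t
    show H (HK_c (w.1 2), HK_c (w.1 1 + w.1 2)) = _
    rw [e1, e2, b2, HK_c1]
    exact H.target _
  · refine HK_face _ 2 (Path.refl x) fun t w h0 h1 => ?_
    obtain ⟨e1, e2⟩ := HK_sa2 t w h1
    show H (HK_c (w.1 1 + w.1 2), HK_c (w.1 2)) = _
    rw [h0, HK_c0]
    exact H.source _
  · refine HK_face _ 0 q fun t w h0 h1 => ?_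
    obtain ⟨e1, e2⟩ := HK_sa0 t w h1
    obtain ⟨b0, b1, b2⟩ := HK_sum2 t
    show H (HK_c (w.1 1 + w.1 2), HK_c (w.1 2)) = _
    rw [e1, e2, b2, HK_c1]
    exact H.apply_one _
  · obtain ⟨g, g0, g1, g2⟩ := HS_face 1 (⟨_, hc⟩ : C(stdSimplex ℝ (Fin 3), X)) 1
    obtain ⟨g', g0', g1', g2'⟩ := HS_face 1 (⟨_, hc'⟩ : C(stdSimplex ℝ (Fin 3), X)) 1
    refine g2.trans (Eq.trans ?_ g2'.symm)
    congr 1
    ext z
    have a1 := (HK_sa1 z (g z) (g1 z)).2
    have a2 := (HK_sa1 z (g' z) (g1' z)).2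
    have a3 := g0 z
    have a4 := g0' z
    show H (HK_c ((g z).1 2), HK_c ((g z).1 1 + (g z).1 2)) =
      H (HK_c ((g' z).1 1 + (g' z).1 2), HK_c ((g' z).1 2))
    rw [a1, a2, a3, a4, zero_add]

/-- the vertices of the triangle -/
private noncomputable def HK_v (i : Fin 3) : stdSimplex ℝ (Fin 3) :=
  ⟨Pi.single i 1, single_mem_stdSimplex ℝ i⟩

/-- the edges of the triangle -/
private noncomputable def HK_E (i j : Fin 3) : Path (HK_v i) (HK_v j) where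
  toFun t := ⟨fun k => (1 - (t : ℝ)) * (HK_v i).1 k + (t : ℝ) * (HK_v j).1 k, by
    have h := convex_stdSimplex ℝ (Fin 3) (HK_v i).2 (HK_v j).2
      (a := 1 - (t : ℝ)) (b := (t : ℝ)) (by linarith [t.2.2]) t.2.1 (by ring)
    exact h⟩
  continuous_toFun := by
    refine Continuous.subtype_mk ?_ _
    refine continuous_pi fun k => ?_
    exact ((continuous_const.sub continuous_subtype_val).mul continuous_const).add
      (continuous_subtype_val.mul continuous_const)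
  source' := by
    apply Subtype.ext
    funext k
    show (1 - (0 : ℝ)) * (HK_v i).1 k + (0 : ℝ) * (HK_v j).1 k = (HK_v i).1 k
    ring
  target' := by
    apply Subtype.ext
    funext k
    show (1 - (1 : ℝ)) * (HK_v i).1 k + (1 : ℝ) * (HK_v j).1 k = (HK_v j).1 k
    ring

private theorem HK_Eap (i j : Fin 3) {t : ℝ} (h0 : 0 ≤ t) (h1 : t ≤ 1) (k : Fin 3) :
    (HK_E i j (HK_c t)).1 k =
      (1 - t) * (Pi.single i 1 : Fin 3 → ℝ) k + t * (Pi.single j 1 : Fin 3 → ℝ) k := by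
  rw [HK_c_of h0 h1]
  rfl

theorem K3 (s : (SX X) _⦋2⦌) : ∃ (x y z : X) (p : Path x y) (q : Path y z) (r : Path x z),
    (SX X).δ 2 s = ed p ∧ (SX X).δ 0 s = ed q ∧ (SX X).δ 1 s = ed r ∧ (p.trans q).Homotopic r := by
  obtain ⟨τ, rfl⟩ := smk_surj 2 s
  have hcon : ContractibleSpace (stdSimplex ℝ (Fin 3)) :=
    (convex_stdSimplex ℝ (Fin 3)).contractibleSpace ⟨_, (HK_v 0).2⟩
  refine ⟨τ (HK_v 0), τ (HK_v 1), τ (HK_v 2), (HK_E 0 1).map τ.continuous,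
    (HK_E 1 2).map τ.continuous, (HK_E 0 2).map τ.continuous, ?_, ?_, ?_, ?_⟩
  · refine HK_face _ 2 _ fun t w h0 h1 => ?_
    obtain ⟨e1, e2⟩ := HK_sa2 t w h1
    obtain ⟨b0, b1, b2⟩ := HK_sum2 t
    show τ w = τ (HK_E 0 1 (HK_c (t.1 1)))
    congr 1
    apply Subtype.ext
    funext k
    rw [HK_Eap 0 1 b1 (by linarith)]
    fin_cases k
    · simp [e1]
      linarith
    · simp [e2]
    · simp [h0]
  · refine HK_face _ 0 _ fun t w h0 h1 => ?_
    obtain ⟨e1, e2⟩ := HK_sa0 t w h1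
    obtain ⟨b0, b1, b2⟩ := HK_sum2 t
    show τ w = τ (HK_E 1 2 (HK_c (t.1 1)))
    congr 1
    apply Subtype.ext
    funext k
    rw [HK_Eap 1 2 b1 (by linarith)]
    fin_cases k
    · simp [h0]
    · simp [e1]
      linarith
    · simp [e2]
  · refine HK_face _ 1 _ fun t w h0 h1 => ?_
    obtain ⟨e1, e2⟩ := HK_sa1 t w h1
    obtain ⟨b0, b1, b2⟩ := HK_sum2 t
    show τ w = τ (HK_E 0 2 (HK_c (t.1 1)))
    congr 1
    apply Subtype.ext
    funext k
    rw [HK_Eap 0 2 b1 (by linarith)]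
    fin_cases k
    · simp [e1]
      linarith
    · simp [h0]
    · simp [e2]
  · rw [← Path.map_trans]
    exact Path.Homotopic.map (SimplyConnectedSpace.paths_homotopic _ _) τ

theorem K4 (x : X) : ∃ s : (SX X) _⦋2⦌, (SX X).δ 2 s = ed (Path.refl x) ∧
    (SX X).δ 0 s = ed (Path.refl x) ∧ (SX X).δ 1 s = ed (Path.refl x) :=
  ⟨smk 2 (ContinuousMap.const _ x), HK_face _ 2 _ fun _ _ _ _ => rfl,
    HK_face _ 0 _ fun _ _ _ _ => rfl, HK_face _ 1 _ fun _ _ _ _ => rfl⟩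

end RQ
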