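import Pool.Agent.H34.RQ.HV

/-!
# HX (helper34, MP_fbf562_RQ): cocycles from a homomorphism to the Heisenberg group

`Φ : Path x0 x0 → Heis` multiplicative and invariant under homotopy; so `Φ (refl) = 1` (from `refl.trans refl ~ refl`) and
`Φ p.symm = (Φ p)⁻¹`. For every point `y` joined to `x0` choose a path `k y : Path x0 y`. For an edge `e = ed p`, `p : Path x y`: if `x` is joined to
`x0` put `F e = Φ (((k x).trans p).trans (k y).symm)`, otherwise `F e = 1`. (Define `F` on `(SX X) _⦋1⦌` by choosing `x, y, p` from `ed_surj`;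
the value does not depend on the choice since `ed p = ed p'` implies equal underlying functions (`smk_inj`), so equal end points; or prove
the formula `F (ed p) = ...` by `subst`.) For a 2-simplex (`K3`): `F (δ 1 s) = F (δ 2 s) * F (δ 0 s)`: in the component of `x0`
the loop `k x · r · (k z)⁻¹` is homotopic to `(k x · p · (k y)⁻¹) · (k y · q · (k z)⁻¹)`.
(All homotopies can be done in `Path.Homotopic.Quotient` or with the fundamental groupoid.)

So `u e = (F e).x`, `v e = (F e).y`, `w e = - (F e).z` satisfy `cobd 1 u = 0`, `cobd 1 v = 0`,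
`cobd 1 w s = -(z0 - z1 + z2)` with `z1 = z2 + z0 + x2 * y0`, so `cobd 1 w s = x2 y0 = u (δ 2 s) v (δ 0 s) = cupc u v s`.
For a loop `p` at `x0`: `F (ed p) = Φ (k x0 · p · (k x0)⁻¹) = Φ (k x0) Φ p Φ (k x0)⁻¹` has the same `x` and `y` coordinates as `Φ p`.
-/

open CategoryTheory Simplicial
open scoped unitInterval

namespace RQ

variable {X : Type} [TopologicalSpace X]

theorem HX_ed_inj {x y x' y' : X} (p : Path x y) (q : Path x' y') (h : ed p = ed q) :
    ∀ t, p t = q t := by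
  intro t
  have h1 := smk_inj 1 h
  have h2 : (fun i : Fin 2 => if i = 1 then (t : ℝ) else 1 - t) ∈ stdSimplex ℝ (Fin 2) := by
    refine ⟨?_, ?_⟩
    · intro i
      have h3 := t.2.1
      have h4 := t.2.2
      fin_cases i
      · simp [h4]
      · simp [h3]
    · rw [Fin.sum_univ_two]
      simp
  have h3 := congrArg (fun f : C(stdSimplex ℝ (Fin (1 + 1)), X) => f ⟨_, h2⟩) h1
  have h4 : p (Set.projIcc (0 : ℝ) 1 zero_le_one (t : ℝ)) =
      q (Set.projIcc (0 : ℝ) 1 zero_le_one (t : ℝ)) := h3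
  rwa [Set.projIcc_val] at h4

theorem HX_ed_inj' {x y x' y' : X} (p : Path x y) (q : Path x' y') (h : ed p = ed q) :
    x = x' ∧ y = y' := by
  have h1 := HX_ed_inj p q h 0
  have h2 := HX_ed_inj p q h 1
  rw [p.source, q.source] at h1
  rw [p.target, q.target] at h2
  exact ⟨h1, h2⟩

open Classical in
/-- The value on a path. -/
noncomputable def HX_G {x0 : X} (Φ : Path x0 x0 → Heis) {x y : X} (p : Path x y) : Heis :=
  if h : Joined x0 x ∧ Joined x0 y then Φ ((h.1.somePath.trans p).trans h.2.somePath.symm) else 1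

theorem HX_G_congr {x0 : X} (Φ : Path x0 x0 → Heis) {x y x' y' : X} (p : Path x y)
    (q : Path x' y') (h : ed p = ed q) : HX_G Φ p = HX_G Φ q := by
  obtain ⟨rfl, rfl⟩ := HX_ed_inj' p q h
  have h1 : p = q := by
    ext1
    funext t
    exact HX_ed_inj p q h t
  rw [h1]

theorem HX_hom {x0 x y z : X} (k : Path x0 x) (l : Path x0 y) (m : Path x0 z) (p : Path x y)
    (q : Path y z) (r : Path x z) (h : (p.trans q).Homotopic r) :
    ((k.trans r).trans m.symm).Homotopic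
      (((k.trans p).trans l.symm).trans ((l.trans q).trans m.symm)) := by
  rw [← Path.Homotopic.Quotient.eq] at h ⊢
  simp only [Path.Homotopic.Quotient.mk_trans, Path.Homotopic.Quotient.mk_symm] at h ⊢
  rw [← h]
  generalize Path.Homotopic.Quotient.mk k = K at *
  generalize Path.Homotopic.Quotient.mk l = L at *
  generalize Path.Homotopic.Quotient.mk m = M at *
  generalize Path.Homotopic.Quotient.mk p = P at *
  generalize Path.Homotopic.Quotient.mk q = Q at *
  have e1 : L.symm.trans (L.trans (Q.trans M.symm)) = Q.trans M.symm := by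
    rw [← Path.Homotopic.Quotient.trans_assoc, Path.Homotopic.Quotient.symm_trans,
      Path.Homotopic.Quotient.refl_trans]
  simp only [Path.Homotopic.Quotient.trans_assoc]
  rw [e1]

theorem HX_refl {x0 : X} (Φ : Path x0 x0 → Heis) (hm : ∀ p q, Φ (p.trans q) = Φ p * Φ q)
    (hh : ∀ p q, p.Homotopic q → Φ p = Φ q) (k : Path x0 x0) : Φ k.symm = (Φ k)⁻¹ := by
  have h1 : Φ (Path.refl x0) = 1 := by
    have h2 := hm (Path.refl x0) (Path.refl x0)
    rw [hh _ _ (Path.Homotopic.refl_trans (Path.refl x0))] at h2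
    exact mul_eq_left.1 h2.symm
  have h3 := hm k k.symm
  rw [hh _ _ (Path.Homotopic.trans_symm k), h1] at h3
  exact eq_inv_of_mul_eq_one_right h3.symm

theorem HX_F {x0 : X} (Φ : Path x0 x0 → Heis) (hm : ∀ p q, Φ (p.trans q) = Φ p * Φ q)
    (hh : ∀ p q, p.Homotopic q → Φ p = Φ q) : ∃ F : (SX X) _⦋1⦌ → Heis,
      (∀ s : (SX X) _⦋2⦌, F ((SX X).δ 1 s) = F ((SX X).δ 2 s) * F ((SX X).δ 0 s)) ∧
      ∀ p : Path x0 x0, ∃ c : Heis, F (ed p) = c * Φ p * c⁻¹ := by
  classical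
  choose X1 Y1 P1 hP1 using fun e : (SX X) _⦋1⦌ => ed_surj e
  have hF : ∀ {x y : X} (p : Path x y), HX_G Φ (P1 (ed p)) = HX_G Φ p := by
    intro x y p
    exact HX_G_congr Φ _ _ (hP1 (ed p)).symm
  refine ⟨fun e => HX_G Φ (P1 e), ?_, ?_⟩
  · intro s
    obtain ⟨x, y, z, p, q, r, h2, h0, h1, hhom⟩ := K3 s
    show HX_G Φ (P1 ((SX X).δ 1 s)) =
      HX_G Φ (P1 ((SX X).δ 2 s)) * HX_G Φ (P1 ((SX X).δ 0 s))
    rw [h2, h0, h1, hF, hF, hF]
    unfold HX_G
    by_cases hx : Joined x0 x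
    · have hy : Joined x0 y := hx.trans ⟨p⟩
      have hz : Joined x0 z := hy.trans ⟨q⟩
      rw [dif_pos ⟨hx, hz⟩, dif_pos ⟨hx, hy⟩, dif_pos ⟨hy, hz⟩, ← hm]
      exact hh _ _ (HX_hom _ _ _ p q r hhom)
    · have hy : ¬ Joined x0 y := fun h => hx (h.trans ⟨p.symm⟩)
      rw [dif_neg (fun h => hx h.1), dif_neg (fun h => hx h.1), dif_neg (fun h => hy h.1),
        mul_one]
  · intro p
    have h0 : Joined x0 x0 := Joined.refl x0
    refine ⟨Φ h0.somePath, ?_⟩
    show HX_G Φ (P1 (ed p)) = _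
    rw [hF]
    unfold HX_G
    rw [dif_pos ⟨h0, h0⟩, hm, hm, HX_refl Φ hm hh]

theorem HX_main {x0 : X} (Φ : Path x0 x0 → Heis) (hm : ∀ p q, Φ (p.trans q) = Φ p * Φ q)
    (hh : ∀ p q, p.Homotopic q → Φ p = Φ q) : ∃ u v w : Cc (SX X) 1,
      cobd (SX X) 1 u = 0 ∧ cobd (SX X) 1 v = 0 ∧ cupc u v = cobd (SX X) 1 w ∧
      (∀ p : Path x0 x0, u (ed p) = (Φ p).x) ∧ ∀ p : Path x0 x0, v (ed p) = (Φ p).y := by
  obtain ⟨F, hF, hc⟩ := HX_F Φ hm hh
  refine ⟨fun e => ((F e).x : ℚ), fun e => ((F e).y : ℚ), fun e => -((F e).z : ℚ),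
    ?_, ?_, ?_, ?_, ?_⟩
  · funext s
    rw [cobd1_apply]
    have h1 := congrArg Heis.x (hF s)
    rw [Heis.mul_x] at h1
    show ((F ((SX X).δ 0 s)).x : ℚ) - ((F ((SX X).δ 1 s)).x : ℚ) + ((F ((SX X).δ 2 s)).x : ℚ) = 0
    rw [h1]
    push_cast
    ring
  · funext s
    rw [cobd1_apply]
    have h1 := congrArg Heis.y (hF s)
    rw [Heis.mul_y] at h1
    show ((F ((SX X).δ 0 s)).y : ℚ) - ((F ((SX X).δ 1 s)).y : ℚ) + ((F ((SX X).δ 2 s)).y : ℚ) = 0
    rw [h1]
    push_cast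
    ring
  · funext s
    rw [cobd1_apply]
    have h1 := congrArg Heis.z (hF s)
    rw [Heis.mul_z] at h1
    show ((F ((SX X).δ 2 s)).x : ℚ) * ((F ((SX X).δ 0 s)).y : ℚ) =
      -((F ((SX X).δ 0 s)).z : ℚ) - -((F ((SX X).δ 1 s)).z : ℚ) + -((F ((SX X).δ 2 s)).z : ℚ)
    rw [h1]
    push_cast
    ring
  · intro p
    obtain ⟨c, hcp⟩ := hc p
    show ((F (ed p)).x : ℚ) = _
    rw [hcp]
    simp
  · intro p
    obtain ⟨c, hcp⟩ := hc p
    show ((F (ed p)).y : ℚ) = _
    rw [hcp]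
    simp

end RQ
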