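import Pool.Agent.H34.RQ.HV

/-!
# HZ (helper34, MP_fbf562_RQ): two cocycles with exact cup product on a space with abelian fundamental groups

`Z` has abelian fundamental group at every point (`LK.AbAt`), `u, v` cocycles with `cupc u v = cobd 1 w`. By `HV_main`
`u (a) v (b) = u (b) v (a)` for all loops `a, b` at the same point.

Choose for every point `z` a representative `ρ z` of its path component (`Quotient.out` for `ZerothHomotopy Z` or `pathSetoid Z`):
`Joined (ρ z) z`, and `Joined z z' → ρ z = ρ z'`, and a path `γ z : Path (ρ z) z`.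

For `c : Z` choose `(α, β, γ', δ) : ℚ ^ 4` with `α u(a) + β v(a) = 0` for all loops `a` at `c` and `γ' α + δ β = 1` (`HZ_point`): if there is a
loop `b` with `(u b, v b) ≠ (0, 0)` take `(α, β) = (v b, - u b)`; otherwise `(α, β) = (1, 0)`. Since `(α, β) ≠ (0, 0)` take
`(γ', δ) = (1/α, 0)` or `(0, 1/β)`.

Define the degree 0 cochains `al s = α (ρ z)` etc. where `s = pt z` (a function of `z`: use `pt_surj`, `pt_inj` to define a cochain from a
function `Z → ℚ`: `HZ_ofFun`). They are closed (`HV_closed0`). The cocycle `t = act al u + act be v` vanishes on all loops at the points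
`ρ z` (`act_ed`), `s0 (pt z) = t (ed (γ z))`. For an edge `ed p`, `p : Path x y`: `ρ x = ρ y`; let `γy' : Path (ρ x) y` be the cast of `γ y`
(`Path.cast`, `ed_congr`). The loop `(γ x).trans p |>.trans γy'.symm` at `ρ x` has value `0`: `s0 x + t (ed p) - s0 y = 0`
(`val_trans`, `val_symm`). So `t = cobd 0 s0` (`HV_exact`, `ed_surj`).
-/

open CategoryTheory Simplicial
open scoped unitInterval

namespace RQ

variable {Z : Type} [TopologicalSpace Z]

theorem HZ_point {u v : Cc (SX Z) 1} {c : Z}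
    (h : ∀ a b : Path c c, u (ed a) * v (ed b) = u (ed b) * v (ed a)) :
    ∃ α β γ δ : ℚ, (∀ a : Path c c, α * u (ed a) + β * v (ed a) = 0) ∧ γ * α + δ * β = 1 := by
  by_cases h1 : ∀ a : Path c c, u (ed a) = 0 ∧ v (ed a) = 0
  · refine ⟨1, 0, 1, 0, fun a => ?_, by norm_num⟩
    rw [(h1 a).1, (h1 a).2]
    norm_num
  · obtain ⟨b, hb⟩ := not_forall.1 h1
    have h2 : ∀ a : Path c c, v (ed b) * u (ed a) + -u (ed b) * v (ed a) = 0 := fun a => by
      have := h a b
      linear_combination this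
    by_cases hv : v (ed b) = 0
    · have hu : u (ed b) ≠ 0 := fun hu => hb ⟨hu, hv⟩
      refine ⟨v (ed b), -u (ed b), 0, -(u (ed b))⁻¹, h2, ?_⟩
      rw [zero_mul, zero_add, neg_mul_neg, inv_mul_cancel₀ hu]
    · refine ⟨v (ed b), -u (ed b), (v (ed b))⁻¹, 0, h2, ?_⟩
      rw [zero_mul, add_zero, inv_mul_cancel₀ hv]

theorem HZ_ofFun (f : Z → ℚ) : ∃ a : Cc (SX Z) 0, ∀ z, a (pt z) = f z := by
  choose g hg using pt_surj (X := Z)
  refine ⟨fun s => f (g s), fun z => ?_⟩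
  have := pt_inj (hg (pt z))
  show f (g (pt z)) = f z
  rw [← this]

private theorem HZ_rep (Z : Type) [TopologicalSpace Z] : ∃ ρ : Z → Z, (∀ z, Joined (ρ z) z) ∧
    ∀ z z', Joined z z' → ρ z = ρ z' := by
  refine ⟨fun z => (Quotient.mk (pathSetoid Z) z).out, fun z => ?_, fun z z' h => ?_⟩
  · exact Quotient.mk_out (s := pathSetoid Z) z
  · have : (Quotient.mk (pathSetoid Z) z) = Quotient.mk (pathSetoid Z) z' := Quotient.sound h
    show (Quotient.mk (pathSetoid Z) z).out = (Quotient.mk (pathSetoid Z) z').out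
    rw [this]

theorem HZ_main (hZ : ∀ z : Z, LK.AbAt z) {u v w : Cc (SX Z) 1} (hu : cobd (SX Z) 1 u = 0)
    (hv : cobd (SX Z) 1 v = 0) (hw : cupc u v = cobd (SX Z) 1 w) :
    ∃ α β γ δ s : Cc (SX Z) 0, cobd (SX Z) 0 α = 0 ∧ cobd (SX Z) 0 β = 0 ∧ cobd (SX Z) 0 γ = 0 ∧
      cobd (SX Z) 0 δ = 0 ∧ act α u + act β v = cobd (SX Z) 0 s ∧ γ * α + δ * β = 1 := by
  obtain ⟨ρ, hρ1, hρ2⟩ := HZ_rep Z
  have hp : ∀ c : Z, ∃ α β γ δ : ℚ, (∀ a : Path c c, α * u (ed a) + β * v (ed a) = 0) ∧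
      γ * α + δ * β = 1 := fun c =>
    HZ_point fun a b => HV_main hu hv hw.symm (hZ c a b)
  choose α₀ β₀ γ₀ δ₀ h0 h1 using hp
  have hcl : ∀ (f : Z → ℚ) (a : Cc (SX Z) 0), (∀ z, a (pt z) = f (ρ z)) → cobd (SX Z) 0 a = 0 := by
    intro f a ha
    rw [HV_closed0]
    intro x y hxy
    rw [ha, ha, hρ2 x y hxy]
  obtain ⟨al, hal⟩ := HZ_ofFun (fun z => α₀ (ρ z))
  obtain ⟨be, hbe⟩ := HZ_ofFun (fun z => β₀ (ρ z))
  obtain ⟨ga, hga⟩ := HZ_ofFun (fun z => γ₀ (ρ z))
  obtain ⟨de, hde⟩ := HZ_ofFun (fun z => δ₀ (ρ z))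
  have hal0 := hcl α₀ al hal
  have hbe0 := hcl β₀ be hbe
  have ht : cobd (SX Z) 1 (act al u + act be v) = 0 := by
    rw [map_add, HC_act_closed hal0 hu, HC_act_closed hbe0 hv, add_zero]
  obtain ⟨s0, hs0⟩ := HZ_ofFun (fun z => (act al u + act be v) (ed (hρ1 z).somePath))
  refine ⟨al, be, ga, de, s0, hal0, hbe0, hcl γ₀ ga hga, hcl δ₀ de hde, ?_, ?_⟩
  · funext e
    obtain ⟨x, y, p, rfl⟩ := ed_surj e
    rw [HV_exact, hs0, hs0]
    have hxy : ρ x = ρ y := hρ2 x y ⟨p⟩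
    have hρρ : ρ (ρ x) = ρ x := hρ2 _ _ (hρ1 x)
    have e1 : ed ((hρ1 y).somePath.cast hxy rfl) = ed (hρ1 y).somePath :=
      ed_congr _ _ fun t => by rw [Path.cast_coe]
    have e2 : (act al u + act be v) (ed (((hρ1 x).somePath.trans p).trans
        ((hρ1 y).somePath.cast hxy rfl).symm)) = 0 := by
      rw [Pi.add_apply, act_ed, act_ed, hal, hbe, hρρ]
      exact h0 (ρ x) _
    rw [val_trans ht, val_trans ht, val_symm ht, e1] at e2
    linear_combination e2
  · funext s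
    obtain ⟨z, rfl⟩ := pt_surj s
    rw [Pi.add_apply, Pi.mul_apply, Pi.mul_apply, hga, hal, hde, hbe, Pi.one_apply]
    exact h1 (ρ z)

end RQ
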