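import Pool.Agent.H34.RQ.HF
import Pool.Agent.H34.RQ.HZ
import Pool.Agent.H34.RQ.HX

/-!
# HO (helper34, MP_fbf562_RQ): the obstruction

`heis_obstruction` : by `HX_main` there are cocycles `u, v` on `X` with `cupc u v = cobd 1 w`. By `HF_main` there are morphisms `i`, `r` with
`i ≫ r = 𝟙`, i.e. maps `r.f1 : HH X → HH Z`, `i.f1 : HH Z → HH X` with `i.f1 ∘ r.f1 = id` (`(i ≫ r).f1 a = i.f1 (r.f1 a)`) etc. Let `u', v'` be
cocycles of `Z` with `cls u' = r.f1 (cls u)`, `cls v' = r.f1 (cls v)` (`Quotient.exists_rep`). Then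
`cls (cupc u' v') = (hal Z).cup (r.f1 [u]) (r.f1 [v]) = r.f2 ((hal X).cup [u] [v]) = r.f2 0 = 0` (`(hal X).cup [u] [v] = cls (cupc u v) = zero2` by
`cls_eq`), so `cupc u' v' = cobd 1 w'` (`cls_eq`). `HZ_main`: `α β γ δ s`. In `hal Z`:
`add1 (smul α [u']) (smul β [v']) = zero1` and `add0 (mul0 γ α) (mul0 δ β) = one`. Apply `i`: `α' = i.f0 α` etc.:
`add1 (smul α' [u]) (smul β' [v]) = zero1` in `hal X` (as `i.f1 [u'] = i.f1 (r.f1 [u]) = [u]`), `γ' α' + δ' β' = 1`. So
`act α' u + act β' v = cobd 0 s'` (`cls_eq`). Evaluate on `ed p` for a loop `p` at `x0` (`act_ed`, `HV_exact`):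
`α'(x0) u(p) + β'(x0) v(p) = 0`, and `γ'(x0) α'(x0) + δ'(x0) β'(x0) = 1`. The two vectors `(u p, v p)` and `(u q, v q)` are orthogonal to
the same nonzero vector, so `u p * v q = v p * u q` (if `α' ≠ 0`, `u p = - β' v p / α'`...; `nlinarith`/`linear_combination`:
multiply: `α' (u p v q - v p u q) = 0` and `β' (u p v q - v p u q) = 0`, then use `γ' α' + δ' β' = 1`). Finally cast to `ℤ`.

`RetractIn_mono` : `S ≤ S'`: the functor `S'.Q` inverts `S`, so it factors through `S.Q` (`Localization.Construction.lift`,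
`Localization.Construction.fac`), map the retract.
-/

open CategoryTheory Simplicial
open scoped unitInterval

namespace RQ

theorem RetractIn_mono {S S' : MorphismProperty TopCat.{0}} (h : S ≤ S') {X Z : Type}
    [TopologicalSpace X] [TopologicalSpace Z] (hr : RetractIn S X Z) : RetractIn S' X Z := by
  obtain ⟨R⟩ := hr
  have hinv : S.IsInvertedBy S'.Q := fun A B f hf => Localization.inverts S'.Q S' f (h f hf)
  exact ⟨R.map (Localization.Construction.lift S'.Q hinv)⟩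

theorem HO_num {a b c d x y x' y' : ℚ} (h1 : a * x + b * y = 0) (h2 : a * x' + b * y' = 0)
    (h3 : c * a + d * b = 1) : x * y' = y * x' := by
  have e1 : a * (x * y' - y * x') = 0 := by linear_combination y' * h1 - y * h2
  have e2 : b * (x * y' - y * x') = 0 := by linear_combination (-x') * h1 + x * h2
  have e3 : x * y' - y * x' = 0 := by
    linear_combination c * e1 + d * e2 - (x * y' - y * x') * h3
  linarith

theorem heis_obstruction {X Z : Type} [TopologicalSpace X] [TopologicalSpace Z]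
    (h : RetractIn ratIso X Z) (hZ : ∀ z : Z, LK.AbAt z) (x0 : X) (Φ : Path x0 x0 → Heis)
    (hm : ∀ p q, Φ (p.trans q) = Φ p * Φ q) (hh : ∀ p q, p.Homotopic q → Φ p = Φ q)
    (p q : Path x0 x0) : (Φ p).x * (Φ q).y = (Φ p).y * (Φ q).x := by
  obtain ⟨u, v, w, hu, hv, hw, hup, hvp⟩ := HX_main Φ hm hh
  obtain ⟨R⟩ := h
  obtain ⟨i, r, hir⟩ := HF_main R
  let U : HH (SX X) 0 := cls ⟨u, hu⟩
  let V : HH (SX X) 0 := cls ⟨v, hv⟩
  have hcomp : ∀ a : HH (SX X) 0, HHom.f1 i (HHom.f1 r a) = a := by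
    intro a
    have h1 := congrArg (fun f => HHom.f1 f a) hir
    exact h1
  obtain ⟨u', hu'⟩ := Quotient.exists_rep (HHom.f1 r U)
  obtain ⟨v', hv'⟩ := Quotient.exists_rep (HHom.f1 r V)
  have hc0 : (hal (SX X)).cup U V = (hal (SX X)).zero2 := by
    show cls ⟨cupc u v, HC_cup_closed hu hv⟩ = cls ⟨0, map_zero _⟩
    rw [cls_eq]
    exact ⟨w, by rw [zero_add]; exact hw⟩
  have hc1 : (hal (SX Z)).cup (HHom.f1 r U) (HHom.f1 r V) = (hal (SX Z)).zero2 := by
    have h1 := HHom.cup r U V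
    have h2 := HHom.zero2 r
    exact h1.symm.trans ((congrArg (HHom.f2 r) hc0).trans h2)
  rw [← hu', ← hv'] at hc1
  have hc2 : cls (S := SX Z) (k := 1) ⟨cupc u'.1 v'.1, HC_cup_closed u'.2 v'.2⟩ =
      cls ⟨0, map_zero _⟩ := hc1
  rw [cls_eq] at hc2
  obtain ⟨w', hw'⟩ := hc2
  simp only [zero_add] at hw'
  obtain ⟨α, β, γ, δ, s, hα, hβ, hγ, hδ, hs, h1⟩ := HZ_main hZ u'.2 v'.2 hw'
  let A : Zc (SX Z) 0 := ⟨α, hα⟩
  let B : Zc (SX Z) 0 := ⟨β, hβ⟩
  let C : Zc (SX Z) 0 := ⟨γ, hγ⟩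
  let D : Zc (SX Z) 0 := ⟨δ, hδ⟩
  have e1 : (hal (SX Z)).add1 ((hal (SX Z)).smul A (cls u')) ((hal (SX Z)).smul B (cls v')) =
      (hal (SX Z)).zero1 := by
    show cls ⟨act α u'.1 + act β v'.1, _⟩ = cls ⟨0, map_zero _⟩
    rw [cls_eq]
    exact ⟨s, hs.trans (zero_add _).symm⟩
  have e2 : (hal (SX Z)).add0 ((hal (SX Z)).mul0 C A) ((hal (SX Z)).mul0 D B) =
      (hal (SX Z)).one := Subtype.ext h1
  have f1 : (hal (SX X)).add1 ((hal (SX X)).smul (HHom.f0 i A) U)
      ((hal (SX X)).smul (HHom.f0 i B) V) = (hal (SX X)).zero1 := by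
    have g1 := congrArg (HHom.f1 i) e1
    have g2 := HHom.add1 i ((hal (SX Z)).smul A (cls u')) ((hal (SX Z)).smul B (cls v'))
    have g3 := HHom.smul i A (cls u')
    have g4 := HHom.smul i B (cls v')
    have g5 : HHom.f1 i (cls u') = U := by
      have : cls u' = HHom.f1 r U := hu'
      rw [this]
      exact hcomp U
    have g6 : HHom.f1 i (cls v') = V := by
      have : cls v' = HHom.f1 r V := hv'
      rw [this]
      exact hcomp V
    rw [g3, g4, g5, g6] at g2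
    exact g2.symm.trans (g1.trans (HHom.zero1 i))
  have f2 : (hal (SX X)).add0 ((hal (SX X)).mul0 (HHom.f0 i C) (HHom.f0 i A))
      ((hal (SX X)).mul0 (HHom.f0 i D) (HHom.f0 i B)) = (hal (SX X)).one := by
    have g1 := congrArg (HHom.f0 i) e2
    have g2 := HHom.add0 i ((hal (SX Z)).mul0 C A) ((hal (SX Z)).mul0 D B)
    rw [HHom.mul0 i C A, HHom.mul0 i D B] at g2
    exact g2.symm.trans (g1.trans (HHom.one i))
  generalize HHom.f0 i A = A' at f1 f2
  generalize HHom.f0 i B = B' at f1 f2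
  generalize HHom.f0 i C = C' at f2
  generalize HHom.f0 i D = D' at f2
  have f3 : cls (S := SX X) (k := 0) ⟨act A'.1 u + act B'.1 v, by
      rw [map_add, HC_act_closed A'.2 hu, HC_act_closed B'.2 hv, add_zero]⟩ =
      cls ⟨0, map_zero _⟩ := f1
  rw [cls_eq] at f3
  obtain ⟨s', hs'⟩ := f3
  simp only [zero_add] at hs'
  have key : ∀ p : Path x0 x0, A'.1 (pt x0) * ((Φ p).x : ℚ) + B'.1 (pt x0) * ((Φ p).y : ℚ) = 0 := by
    intro p
    have g1 := congrFun hs' (ed p)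
    rw [HV_exact, sub_self, Pi.add_apply, act_ed, act_ed, hup, hvp] at g1
    exact g1
  have f4 : C'.1 (pt x0) * A'.1 (pt x0) + D'.1 (pt x0) * B'.1 (pt x0) = 1 :=
    congrFun (congrArg Subtype.val f2) (pt x0)
  have h5 := HO_num (key p) (key q) f4
  exact_mod_cast h5

end RQ
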