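import Pool.Agent.H34.RQ.HC

/-!
# HS (helper34, MP_fbf562_RQ): singular simplices of dimension `0, 1, 2` and paths

Use `TopCat.toSSetObjEquiv` and the lemma `TopCat.toSSetObjEquiv_δ_apply` (file
Mathlib/AlgebraicTopology/SimplicialSet/TopAdj.lean):
`toSSetObjEquiv _ ((toSSet.obj X).δ i x) z = toSSetObjEquiv _ x (stdSimplex.map i.succAbove z)`, so the face `δ i` of `smk n τ` is
`smk (n-1) (τ ∘ stdSimplex.map i.succAbove)`, and `stdSimplex.map i.succAbove z` is the point with coordinate `0` at `i` and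
the coordinates of `z` in order elsewhere (`stdSimplex.map_coe`, `FunOnFinite.linearMap_apply` or similar; for `Fin 2 → Fin 3` check the three
coordinates with `fin_cases` / `Finset.sum`). `HS_face` states this.
-/

open CategoryTheory Simplicial Opposite
open scoped unitInterval

namespace RQ

variable {X : Type} [TopologicalSpace X]

/-- The singular simplicial set. -/
noncomputable abbrev SX (X : Type) [TopologicalSpace X] : SSet.{0} := TopCat.toSSet.obj (TopCat.of X)

/-- The simplex given by a continuous map. -/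
noncomputable def smk (n : ℕ) (τ : C(stdSimplex ℝ (Fin (n + 1)), X)) : (SX X) _⦋n⦌ :=
  ((TopCat.of X).toSSetObjEquiv (op ⦋n⦌)).symm τ

/-- The vertex given by a point. -/
noncomputable def pt (x : X) : (SX X) _⦋0⦌ := smk 0 (ContinuousMap.const _ x)

/-- The edge given by a path. -/
noncomputable def ed {x y : X} (p : Path x y) : (SX X) _⦋1⦌ :=
  smk 1 ⟨fun t => p (Set.projIcc (0 : ℝ) 1 zero_le_one (t.1 1)),
    p.continuous.comp (continuous_projIcc.comp ((continuous_apply 1).comp continuous_subtype_val))⟩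

theorem smk_surj (n : ℕ) : Function.Surjective (smk (X := X) n) := by
  intro s
  exact ⟨(TopCat.of X).toSSetObjEquiv (op ⦋n⦌) s, Equiv.symm_apply_apply _ _⟩

theorem smk_inj (n : ℕ) : Function.Injective (smk (X := X) n) := by
  intro a b h
  exact ((TopCat.of X).toSSetObjEquiv (op ⦋n⦌)).symm.injective h

/-- The coordinates of a face: `0` at `i` and the coordinates of `z` elsewhere. -/
theorem HS_face (n : ℕ) (τ : C(stdSimplex ℝ (Fin (n + 2)), X)) (i : Fin (n + 2)) :
    ∃ g : C(stdSimplex ℝ (Fin (n + 1)), stdSimplex ℝ (Fin (n + 2))),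
      (∀ z, (g z).1 i = 0) ∧ (∀ z j, (g z).1 (i.succAbove j) = z.1 j) ∧
      (SX X).δ i (smk (n + 1) τ) = smk n (τ.comp g) := by
  refine ⟨⟨stdSimplex.map i.succAbove, stdSimplex.continuous_map _⟩, ?_, ?_, ?_⟩
  · intro z
    change (FunOnFinite.linearMap ℝ ℝ i.succAbove z) i = 0
    rw [FunOnFinite.linearMap_apply_apply]
    refine Finset.sum_eq_zero fun j hj => ?_
    exact absurd (Finset.mem_filter.1 hj).2 (Fin.succAbove_ne i j)
  · intro z j
    change (FunOnFinite.linearMap ℝ ℝ i.succAbove z) (i.succAbove j) = z j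
    rw [FunOnFinite.linearMap_apply_apply]
    have h : (Finset.univ.filter fun k : Fin (n + 1) => i.succAbove k = i.succAbove j) = {j} := by
      ext k
      simp
    rw [h, Finset.sum_singleton]
  · rfl

theorem pt_surj (s : (SX X) _⦋0⦌) : ∃ x, s = pt x := by
  obtain ⟨τ, rfl⟩ := smk_surj 0 s
  refine ⟨τ default, ?_⟩
  unfold pt
  congr 1
  ext z
  exact congrArg τ (Subsingleton.elim z default)

theorem pt_inj {x y : X} (h : pt x = pt y) : x = y := by
  have h' := smk_inj 0 h
  exact congrArg (fun f : C(stdSimplex ℝ (Fin 1), X) => f default) h'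

theorem ed_surj (e : (SX X) _⦋1⦌) : ∃ (x y : X) (p : Path x y), e = ed p := by
  obtain ⟨τ, rfl⟩ := smk_surj 1 e
  let h := stdSimplexHomeomorphUnitInterval
  refine ⟨τ (h.symm 0), τ (h.symm 1),
    ⟨⟨fun t => τ (h.symm t), τ.continuous.comp h.symm.continuous⟩, rfl, rfl⟩, ?_⟩
  unfold ed
  congr 1
  ext t
  change τ t = τ (h.symm (Set.projIcc (0 : ℝ) 1 zero_le_one (t.1 1)))
  congr 1
  rw [Homeomorph.eq_symm_apply]
  apply Subtype.ext
  have h1 : t.1 1 ∈ Set.Icc (0 : ℝ) 1 := (h t).2
  rw [Set.projIcc_of_mem zero_le_one h1]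
  rfl

theorem ed_congr {x y x' y' : X} (p : Path x y) (q : Path x' y') (h : ∀ t, p t = q t) :
    ed p = ed q := by
  unfold ed
  congr 1
  ext t
  exact h _

theorem d0_ed {x y : X} (p : Path x y) : (SX X).δ 0 (ed p) = pt y := by
  unfold ed
  obtain ⟨g, hg0, hg1, hg⟩ := HS_face 0 ⟨fun t => p (Set.projIcc (0 : ℝ) 1 zero_le_one (t.1 1)),
    p.continuous.comp (continuous_projIcc.comp ((continuous_apply 1).comp continuous_subtype_val))⟩ 0
  rw [hg]
  unfold pt
  congr 1
  ext z
  have h1 : (g z).1 1 = 1 := by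
    have := hg1 z 0
    have e : (0 : Fin 2).succAbove (0 : Fin 1) = 1 := rfl
    rw [e] at this
    rw [this]
    have h2 := z.2.2
    rwa [Fin.sum_univ_one] at h2
  change p (Set.projIcc (0 : ℝ) 1 zero_le_one ((g z).1 1)) = y
  rw [h1, Set.projIcc_right]
  exact p.target

theorem d1_ed {x y : X} (p : Path x y) : (SX X).δ 1 (ed p) = pt x := by
  unfold ed
  obtain ⟨g, hg0, hg1, hg⟩ := HS_face 0 ⟨fun t => p (Set.projIcc (0 : ℝ) 1 zero_le_one (t.1 1)),
    p.continuous.comp (continuous_projIcc.comp ((continuous_apply 1).comp continuous_subtype_val))⟩ 1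
  rw [hg]
  unfold pt
  congr 1
  ext z
  have h1 : (g z).1 1 = 0 := hg0 z
  change p (Set.projIcc (0 : ℝ) 1 zero_le_one ((g z).1 1)) = x
  rw [h1, Set.projIcc_left]
  exact p.source

end RQ
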