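import Pool.Agent.H34.RQ.HC

/-!
# HU1 (helper34, MP_fbf562_RQ): universal coefficients for short complexes of vector spaces over `ℚ`

`τ : S₁ ⟶ S₂` a morphism of short complexes which is an isomorphism on homology. Elementwise facts:

`HU1_a` : for `y : S₂.X₂` with `S₂.g y = 0` there are `x : S₁.X₂`, `S₁.g x = 0`, and `e : S₂.X₁` with `y = τ.τ₂ x + S₂.f e`.
(The class of `y` in `S₂.homology` is the image of some class, which is represented by a cycle `x`; the difference is a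
cycle with zero class. Use the concrete description of homology in `ModuleCat`:
`CategoryTheory.ShortComplex.homologyπ`, `cyclesMk`/`moduleCatCyclesIso`, `ShortComplex.moduleCatHomologyIso`,
`ShortComplex.exact_iff_...`, or compare with `S.moduleCatLeftHomologyData`. Alternatively use
`ShortComplex.homologyπ` surjective (epi), `ShortComplex.toCycles` range = kernel of `homologyπ`
(`ShortComplex.homologyπ_...exact`), `homologyπ_naturality`, `cyclesMap_i`, `toCycles_i`.)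

`HU1_b` : for `x : S₁.X₂` with `S₁.g x = 0` and `τ.τ₂ x = S₂.f e` there is `e'` with `x = S₁.f e'`.

`HU1_factor` : linear algebra over a field: `φ : M → ℚ` vanishing on the kernel of `g : M → N` factors through `g`
(`LinearMap.exists_extend` applied to the map induced on the range, or `LinearMap.range_dualMap_eq_dualAnnihilator_ker`,
or choose a left inverse / `Module.Projective`...).

`HU1_inj` : `φ` vanishes on `ker S₂.g`: for `y` in the kernel, `y = τ.τ₂ x + S₂.f e` and `φ y = φ (τ.τ₂ x) + φ (S₂.f e) =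
ψ (S₁.g x) + 0 = 0`. Then `HU1_factor`.

`HU1_surj` : let `L : ker S₁.g × S₂.X₁ → S₂.X₂`, `(x, e) ↦ τ.τ₂ x + S₂.f e`, and `M : (x, e) ↦ φ x`. If `L (x, e) = 0` then
`τ.τ₂ x = S₂.f (-e)`, so `x = S₁.f e'` and `φ x = 0`: `M` vanishes on `ker L`, so `M = Φ ∘ L`. Then `S₂.f ≫ Φ = 0` (take `x = 0`)
and `τ.τ₂ ≫ Φ - φ` vanishes on `ker S₁.g` (take `e = 0`), so it is `S₁.g ≫ ψ` by `HU1_factor`.
-/

open CategoryTheory

namespace RQ

/-- The one dimensional vector space. -/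
noncomputable abbrev QQ : ModuleCat.{0} ℚ := ModuleCat.of ℚ ℚ

theorem HU1_factor {M N : Type} [AddCommGroup M] [Module ℚ M] [AddCommGroup N] [Module ℚ N]
    (g : M →ₗ[ℚ] N) (φ : M →ₗ[ℚ] ℚ) (h : ∀ x, g x = 0 → φ x = 0) :
    ∃ χ : N →ₗ[ℚ] ℚ, φ = χ ∘ₗ g := by
  have h1 : φ ∈ LinearMap.range g.dualMap := by
    rw [LinearMap.range_dualMap_eq_dualAnnihilator_ker, Submodule.mem_dualAnnihilator]
    intro x hx
    exact h x (LinearMap.mem_ker.1 hx)
  obtain ⟨χ, hχ⟩ := h1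
  exact ⟨χ, hχ.symm⟩

theorem HU1_lift (S : ShortComplex (ModuleCat.{0} ℚ)) (x : S.X₂) (hx : S.g x = 0) :
    ∃ z : S.cycles, S.iCycles z = x := by
  refine ⟨S.moduleCatCyclesIso.inv (⟨x, LinearMap.mem_ker.2 hx⟩ : LinearMap.ker S.g.hom), ?_⟩
  have h1 := ShortComplex.moduleCatCyclesIso_inv_iCycles_apply S
    (⟨x, LinearMap.mem_ker.2 hx⟩ : LinearMap.ker S.g.hom)
  exact h1

theorem HU1_bd (S : ShortComplex (ModuleCat.{0} ℚ)) (z : S.cycles) (hz : S.homologyπ z = 0) :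
    ∃ e : S.X₁, S.iCycles z = S.f e := by
  have h1 := ShortComplex.π_moduleCatCyclesIso_hom_apply S z
  rw [hz, map_zero] at h1
  obtain ⟨z', hz'⟩ : ∃ z' : LinearMap.ker S.g.hom, z' = S.moduleCatCyclesIso.hom z := ⟨_, rfl⟩
  have h1' : (LinearMap.range S.moduleCatToCycles).mkQ z' = 0 := by
    rw [hz']
    exact h1.symm
  have h2 : z' ∈ LinearMap.range S.moduleCatToCycles := by
    rw [Submodule.mkQ_apply, Submodule.Quotient.mk_eq_zero] at h1'
    exact h1'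
  obtain ⟨e, he⟩ := h2
  refine ⟨e, ?_⟩
  have h3 := ShortComplex.moduleCatCyclesIso_hom_i_apply S z
  have h4 : (z' : S.X₂) = S.iCycles z := by
    rw [hz']
    exact h3
  rw [← h4, ← he]
  rfl

theorem HU1_cyc (S : ShortComplex (ModuleCat.{0} ℚ)) (z : S.cycles) : S.g (S.iCycles z) = 0 := by
  have h1 : S.iCycles ≫ S.g = 0 := S.iCycles_g
  have h2 := congrArg (fun f => f.hom z) h1
  exact h2

theorem HU1_bdz (S : ShortComplex (ModuleCat.{0} ℚ)) (z : S.cycles) (e : S.X₁)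
    (h : S.iCycles z = S.f e) : S.homologyπ z = 0 := by
  have hinj : Function.Injective S.iCycles := (ModuleCat.mono_iff_injective _).1 inferInstance
  have h0 : S.iCycles (S.toCycles e) = S.f e := by
    have h1 := congrArg (fun f => f.hom e) S.toCycles_i
    exact h1
  have h2 : z = S.toCycles e := hinj (h.trans h0.symm)
  rw [h2]
  have h3 := congrArg (fun f => f.hom e) S.toCycles_comp_homologyπ
  exact h3

variable {S₁ S₂ : ShortComplex (ModuleCat.{0} ℚ)} (τ : S₁ ⟶ S₂)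

theorem HU1_a (h : IsIso (ShortComplex.homologyMap τ)) (y : S₂.X₂) (hy : S₂.g y = 0) :
    ∃ (x : S₁.X₂) (e : S₂.X₁), S₁.g x = 0 ∧ y = τ.τ₂ x + S₂.f e := by
  obtain ⟨z, hz⟩ := HU1_lift S₂ y hy
  have hsurj : Function.Surjective (ShortComplex.homologyMap τ) :=
    (ModuleCat.epi_iff_surjective _).1 inferInstance
  obtain ⟨c, hc⟩ := hsurj (S₂.homologyπ z)
  have hπ : Function.Surjective S₁.homologyπ := (ModuleCat.epi_iff_surjective _).1 inferInstance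
  obtain ⟨w, hw⟩ := hπ c
  have h1 : S₂.homologyπ (ShortComplex.cyclesMap τ w) = S₂.homologyπ z := by
    rw [← hc, ← hw]
    have h2 := congrArg (fun f => f.hom w) (ShortComplex.homologyπ_naturality τ)
    exact h2.symm
  have h3 : S₂.homologyπ (z - ShortComplex.cyclesMap τ w) = 0 := by
    rw [map_sub, h1, sub_self]
  obtain ⟨e, he⟩ := HU1_bd S₂ _ h3
  refine ⟨S₁.iCycles w, e, HU1_cyc S₁ w, ?_⟩
  have h4 : S₂.iCycles (ShortComplex.cyclesMap τ w) = τ.τ₂ (S₁.iCycles w) := by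
    have h5 := congrArg (fun f => f.hom w) (ShortComplex.cyclesMap_i τ)
    exact h5
  rw [← he, map_sub, hz, h4]
  abel

theorem HU1_b (h : IsIso (ShortComplex.homologyMap τ)) (x : S₁.X₂) (hx : S₁.g x = 0) (e : S₂.X₁)
    (he : τ.τ₂ x = S₂.f e) : ∃ e' : S₁.X₁, x = S₁.f e' := by
  obtain ⟨z, hz⟩ := HU1_lift S₁ x hx
  have hinj : Function.Injective (ShortComplex.homologyMap τ) :=
    (ModuleCat.mono_iff_injective _).1 inferInstance
  have h1 : ShortComplex.homologyMap τ (S₁.homologyπ z) =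
      S₂.homologyπ (ShortComplex.cyclesMap τ z) := by
    have h2 := congrArg (fun f => f.hom z) (ShortComplex.homologyπ_naturality τ)
    exact h2
  have h4 : S₂.iCycles (ShortComplex.cyclesMap τ z) = τ.τ₂ (S₁.iCycles z) := by
    have h5 := congrArg (fun f => f.hom z) (ShortComplex.cyclesMap_i τ)
    exact h5
  have h6 : S₂.homologyπ (ShortComplex.cyclesMap τ z) = 0 := by
    refine HU1_bdz S₂ _ e ?_
    rw [h4, hz, he]
  have h7 : S₁.homologyπ z = 0 := hinj (by rw [h1, h6, map_zero])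
  obtain ⟨e', he'⟩ := HU1_bd S₁ z h7
  exact ⟨e', by rw [← hz, he']⟩

theorem HU1_inj (h : IsIso (ShortComplex.homologyMap τ)) {φ : S₂.X₂ ⟶ QQ} {ψ : S₁.X₃ ⟶ QQ}
    (h1 : S₂.f ≫ φ = 0) (h2 : τ.τ₂ ≫ φ = S₁.g ≫ ψ) : ∃ χ : S₂.X₃ ⟶ QQ, φ = S₂.g ≫ χ := by
  have hf : ∀ e : S₂.X₁, φ (S₂.f e) = 0 := fun e => congrArg (fun f => f.hom e) h1
  have hg : ∀ x : S₁.X₂, φ (τ.τ₂ x) = ψ (S₁.g x) := fun x => congrArg (fun f => f.hom x) h2
  obtain ⟨χ, hχ⟩ := HU1_factor S₂.g.hom φ.hom (by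
    intro y hy
    obtain ⟨x, e, hx, rfl⟩ := HU1_a τ h y hy
    have h3 : φ (τ.τ₂ x + S₂.f e) = 0 := by
      rw [map_add, hf, hg, hx, map_zero, add_zero]
    exact h3)
  exact ⟨ModuleCat.ofHom χ, ModuleCat.hom_ext hχ⟩

theorem HU1_surj (h : IsIso (ShortComplex.homologyMap τ)) {φ : S₁.X₂ ⟶ QQ}
    (h1 : S₁.f ≫ φ = 0) : ∃ (Φ : S₂.X₂ ⟶ QQ) (ψ : S₁.X₃ ⟶ QQ),
      S₂.f ≫ Φ = 0 ∧ τ.τ₂ ≫ Φ = φ + S₁.g ≫ ψ := by
  have hf : ∀ e : S₁.X₁, φ (S₁.f e) = 0 := fun e => congrArg (fun f => f.hom e) h1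
  let L : (LinearMap.ker S₁.g.hom × S₂.X₁) →ₗ[ℚ] S₂.X₂ :=
    LinearMap.coprod (τ.τ₂.hom ∘ₗ (LinearMap.ker S₁.g.hom).subtype) S₂.f.hom
  let M : (LinearMap.ker S₁.g.hom × S₂.X₁) →ₗ[ℚ] ℚ :=
    LinearMap.coprod (φ.hom ∘ₗ (LinearMap.ker S₁.g.hom).subtype) 0
  obtain ⟨Φ, hΦ⟩ := HU1_factor L M (by
    rintro ⟨x, e⟩ hxe
    have h2 : τ.τ₂ (x : S₁.X₂) + S₂.f e = 0 := by
      simpa [L, LinearMap.coprod_apply] using hxe
    have h3 : τ.τ₂ (x : S₁.X₂) = S₂.f (-e) := by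
      rw [map_neg]
      exact eq_neg_of_add_eq_zero_left h2
    obtain ⟨e', he'⟩ := HU1_b τ h (x : S₁.X₂) (LinearMap.mem_ker.1 x.2) (-e) h3
    have h4 : φ (x : S₁.X₂) = 0 := by rw [he', hf]
    simpa [M, LinearMap.coprod_apply] using h4)
  have hΦ1 : ∀ e : S₂.X₁, Φ (S₂.f e) = 0 := by
    intro e
    have h2 := LinearMap.congr_fun hΦ ((0 : LinearMap.ker S₁.g.hom), e)
    simpa [L, M, LinearMap.coprod_apply] using h2.symm
  have hΦ2 : ∀ x : S₁.X₂, S₁.g x = 0 → Φ (τ.τ₂ x) = φ x := by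
    intro x hx
    have h2 := LinearMap.congr_fun hΦ ((⟨x, LinearMap.mem_ker.2 hx⟩ : LinearMap.ker S₁.g.hom), (0 : S₂.X₁))
    simpa [L, M, LinearMap.coprod_apply] using h2.symm
  obtain ⟨ψ, hψ⟩ := HU1_factor S₁.g.hom (Φ ∘ₗ τ.τ₂.hom - φ.hom) (by
    intro x hx
    have h2 := hΦ2 x hx
    have h3 : (Φ ∘ₗ τ.τ₂.hom - φ.hom) x = Φ (τ.τ₂ x) - φ x := rfl
    rw [h3, h2, sub_self])
  refine ⟨ModuleCat.ofHom Φ, ModuleCat.ofHom ψ, ?_, ?_⟩
  · apply ModuleCat.hom_ext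
    ext e
    exact hΦ1 e
  · apply ModuleCat.hom_ext
    ext x
    have h2 := LinearMap.congr_fun hψ x
    have h3 : Φ (τ.τ₂ x) - φ x = ψ (S₁.g x) := h2
    have h4 : Φ (τ.τ₂ x) = φ x + ψ (S₁.g x) := by rw [← h3]; ring
    exact h4

end RQ
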