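import Pool.Agent.H34.RQ.HU1

/-!
# HU2 (helper34, MP_fbf562_RQ): universal coefficients for chain complexes of vector spaces over `ℚ`

`f : C ⟶ D` a map of chain complexes of rational vector spaces which is an isomorphism on homology in degree `k`. Apply `HU1_inj`,
`HU1_surj` to the map of short complexes `(HomologicalComplex.shortComplexFunctor _ _ k).map f` (`C.sc k ⟶ D.sc k`), whose homology map is
by definition `HomologicalComplex.homologyMap f k`. For degree `k + 1` the short complex is isomorphic to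
`C.X (k+2) ⟶ C.X (k+1) ⟶ C.X k`: use `HomologicalComplex.shortComplexFunctor'` and the isomorphism `natIsoSc'`
(`HomologicalComplex.natIsoSc' _ _ (k+2) (k+1) k (by simp) (by simp)`; the homology map of the isomorphic map of short complexes
is also an isomorphism), or work directly with `C.sc (k+1)`, `ComplexShape.down ℕ` `prev`/`next` (`ChainComplex.prev`,
`ChainComplex.next_nat_succ`). For degree `0`: `C.sc 0` is `C.X 1 ⟶ C.X 0 ⟶ C.X (next 0)` and the second map is `0`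
(`ComplexShape.down`, no relation `0 → j`; `HomologicalComplex.shape`, `ChainComplex.next_nat_zero`).
-/

open CategoryTheory

namespace RQ

variable {C D : ChainComplex (ModuleCat.{0} ℚ) ℕ} (f : C ⟶ D)

theorem HU2_I (l i j : ℕ) (hl : (ComplexShape.down ℕ).prev i = l)
    (hj : (ComplexShape.down ℕ).next i = j) (h : IsIso (HomologicalComplex.homologyMap f i))
    {φ : D.X i ⟶ QQ} {ψ : C.X j ⟶ QQ} (h1 : D.d l i ≫ φ = 0)
    (h2 : f.f i ≫ φ = C.d i j ≫ ψ) : ∃ χ : D.X j ⟶ QQ, φ = D.d i j ≫ χ := by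
  subst hl hj
  exact HU1_inj ((HomologicalComplex.shortComplexFunctor _ _ i).map f) h h1 h2

theorem HU2_S (l i j : ℕ) (hl : (ComplexShape.down ℕ).prev i = l)
    (hj : (ComplexShape.down ℕ).next i = j) (h : IsIso (HomologicalComplex.homologyMap f i))
    {φ : C.X i ⟶ QQ} (h1 : C.d l i ≫ φ = 0) : ∃ (Φ : D.X i ⟶ QQ) (ψ : C.X j ⟶ QQ),
      D.d l i ≫ Φ = 0 ∧ f.f i ≫ Φ = φ + C.d i j ≫ ψ := by
  subst hl hj
  exact HU1_surj ((HomologicalComplex.shortComplexFunctor _ _ i).map f) h h1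

theorem HU2_d0 (E : ChainComplex (ModuleCat.{0} ℚ) ℕ) : E.d 0 0 = 0 :=
  E.shape 0 0 (by simp)

theorem HU2_inj0 (h : IsIso (HomologicalComplex.homologyMap f 0)) {φ : D.X 0 ⟶ QQ}
    (h1 : D.d 1 0 ≫ φ = 0) (h2 : f.f 0 ≫ φ = 0) : φ = 0 := by
  obtain ⟨χ, hχ⟩ := HU2_I f 1 0 0 (by simp) (by simp) h (φ := φ) (ψ := 0) h1
    (by rw [h2, Limits.comp_zero])
  rw [hχ, HU2_d0, Limits.zero_comp]

theorem HU2_surj0 (h : IsIso (HomologicalComplex.homologyMap f 0)) {φ : C.X 0 ⟶ QQ}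
    (h1 : C.d 1 0 ≫ φ = 0) : ∃ Φ : D.X 0 ⟶ QQ, D.d 1 0 ≫ Φ = 0 ∧ f.f 0 ≫ Φ = φ := by
  obtain ⟨Φ, ψ, hΦ, hψ⟩ := HU2_S f 1 0 0 (by simp) (by simp) h h1
  rw [HU2_d0, Limits.zero_comp, add_zero] at hψ
  exact ⟨Φ, hΦ, hψ⟩

theorem HU2_inj (k : ℕ) (h : IsIso (HomologicalComplex.homologyMap f (k + 1)))
    {φ : D.X (k + 1) ⟶ QQ} {ψ : C.X k ⟶ QQ}
    (h1 : D.d (k + 2) (k + 1) ≫ φ = 0) (h2 : f.f (k + 1) ≫ φ = C.d (k + 1) k ≫ ψ) :
    ∃ χ : D.X k ⟶ QQ, φ = D.d (k + 1) k ≫ χ :=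
  HU2_I f (k + 2) (k + 1) k (by simp) (by simp) h h1 h2

theorem HU2_surj (k : ℕ) (h : IsIso (HomologicalComplex.homologyMap f (k + 1)))
    {φ : C.X (k + 1) ⟶ QQ} (h1 : C.d (k + 2) (k + 1) ≫ φ = 0) :
    ∃ (Φ : D.X (k + 1) ⟶ QQ) (ψ : C.X k ⟶ QQ), D.d (k + 2) (k + 1) ≫ Φ = 0 ∧
      f.f (k + 1) ≫ Φ = φ + C.d (k + 1) k ≫ ψ :=
  HU2_S f (k + 2) (k + 1) k (by simp) (by simp) h h1

end RQ
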