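import Pool.Agent.H34.RQ.HU2

/-!
# HU3 (helper34, MP_fbf562_RQ): cochains and Mathlib's chain complex; invariance of the cohomology under rational equivalences

`lin φ` : the morphism `(S.chainComplex QQ).X k ⟶ QQ` whose restriction to the summand of the simplex `x` is multiplication by `φ x`:
`Cofan.IsColimit.desc (S.isColimitChainComplexXCofan QQ k)` (file Mathlib/AlgebraicTopology/SimplicialSet/Homology/Basic.lean).

* `lin_ι` : by the defining property of `desc`.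
* `lin_inj`, `lin_surj` : `SSet.chainComplex_hom_ext`; a morphism `QQ ⟶ QQ` is multiplication by the image of `1`.
* `lin_d` : `ι x ≫ d ≫ lin φ = (∑ (-1)^i • ι (δ i x)) ≫ lin φ` (`SSet.ιChainComplex_d`).
* `lin_map` : `SSet.ι_chainComplexMap_f`.

`HU3_*` : let `f : X ⟶ Y` be in `ratIso`, `F = TopCat.toSSet.map f`. The map
`((singularChainComplexFunctor (ModuleCat ℚ)).obj QQ).map f` is by definition `SSet.chainComplexMap F QQ`, and
`(HQ n).map f = HomologicalComplex.homologyMap (...) n` by definition. Apply `HU2_*` to the `lin` of the cochains and come back with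
`lin_surj`, `lin_inj`.
-/

open CategoryTheory Simplicial

namespace RQ

/-- The linear form on chains given by a cochain. -/
noncomputable def lin (S : SSet.{0}) (k : ℕ) (φ : Cc S k) : (S.chainComplex QQ).X k ⟶ QQ :=
  Limits.Cofan.IsColimit.desc (S.isColimitChainComplexXCofan QQ k)
    (fun x => ModuleCat.ofHom (φ x • (LinearMap.id : ℚ →ₗ[ℚ] ℚ)))

theorem lin_ι (S : SSet.{0}) (k : ℕ) (φ : Cc S k) (x : S _⦋k⦌) :
    S.ιChainComplex (R := QQ) x ≫ lin S k φ = ModuleCat.ofHom (φ x • (LinearMap.id : ℚ →ₗ[ℚ] ℚ)) := by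
  exact Limits.Cofan.IsColimit.fac (S.isColimitChainComplexXCofan QQ k)
    (fun x => ModuleCat.ofHom (φ x • (LinearMap.id : ℚ →ₗ[ℚ] ℚ))) x

theorem lin_inj (S : SSet.{0}) (k : ℕ) : Function.Injective (lin S k) := by
  intro φ ψ h
  funext x
  have h1 := congrArg (fun T => S.ιChainComplex (R := QQ) x ≫ T) h
  simp only [lin_ι] at h1
  have h2 := congrArg (fun T : QQ ⟶ QQ => T.hom (1 : ℚ)) h1
  simpa using h2

theorem HU3_QQ (T : QQ ⟶ QQ) : T = ModuleCat.ofHom (T.hom (1 : ℚ) • (LinearMap.id : ℚ →ₗ[ℚ] ℚ)) := by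
  apply ModuleCat.hom_ext
  apply LinearMap.ext_ring
  simp

theorem lin_surj (S : SSet.{0}) (k : ℕ) : Function.Surjective (lin S k) := by
  intro T
  refine ⟨fun x => (S.ιChainComplex (R := QQ) x ≫ T).hom (1 : ℚ), ?_⟩
  apply SSet.chainComplex_hom_ext
  intro x
  rw [lin_ι]
  exact (HU3_QQ _).symm

theorem lin_add (S : SSet.{0}) (k : ℕ) (φ ψ : Cc S k) : lin S k (φ + ψ) = lin S k φ + lin S k ψ := by
  apply SSet.chainComplex_hom_ext
  intro x
  rw [Preadditive.comp_add, lin_ι, lin_ι, lin_ι]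
  apply ModuleCat.hom_ext
  apply LinearMap.ext_ring
  simp

theorem lin_zero (S : SSet.{0}) (k : ℕ) : lin S k 0 = 0 := by
  apply SSet.chainComplex_hom_ext
  intro x
  rw [lin_ι, Limits.comp_zero]
  apply ModuleCat.hom_ext
  apply LinearMap.ext_ring
  simp

theorem lin_d (S : SSet.{0}) (k : ℕ) (φ : Cc S k) :
    (S.chainComplex QQ).d (k + 1) k ≫ lin S k φ = lin S (k + 1) (cobd S k φ) := by
  apply SSet.chainComplex_hom_ext
  intro x
  rw [lin_ι, ← Category.assoc, SSet.ιChainComplex_d, Preadditive.sum_comp]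
  have h : ∀ i : Fin (k + 2), ((-1 : ℤ) ^ (i : ℕ) • S.ιChainComplex (R := QQ) (S.δ i x)) ≫ lin S k φ =
      ModuleCat.ofHom (((-1 : ℚ) ^ (i : ℕ) * φ (S.δ i x)) • (LinearMap.id : ℚ →ₗ[ℚ] ℚ)) := by
    intro i
    rw [Preadditive.zsmul_comp, lin_ι]
    apply ModuleCat.hom_ext
    apply LinearMap.ext_ring
    rcases Nat.even_or_odd (i : ℕ) with hi | hi
    · rw [hi.neg_one_pow, hi.neg_one_pow]
      simp
    · rw [hi.neg_one_pow, hi.neg_one_pow]
      simp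
  rw [Finset.sum_congr rfl (fun i _ => h i)]
  apply ModuleCat.hom_ext
  apply LinearMap.ext_ring
  simp [cobd]

theorem lin_map {S T : SSet.{0}} (f : S ⟶ T) (k : ℕ) (φ : Cc T k) :
    (SSet.chainComplexMap f QQ).f k ≫ lin T k φ = lin S k (pull f k φ) := by
  apply SSet.chainComplex_hom_ext
  intro x
  rw [lin_ι, ← Category.assoc, SSet.ι_chainComplexMap_f, lin_ι]
  rfl

variable {X Y : TopCat.{0}} {f : X ⟶ Y}

theorem HU3_iso (hf : ratIso f) (n : ℕ) :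
    IsIso (HomologicalComplex.homologyMap (SSet.chainComplexMap (TopCat.toSSet.map f) QQ) n) :=
  hf n

theorem HU3_inj0 (hf : ratIso f) {φ : Cc (TopCat.toSSet.obj Y) 0} (h1 : cobd _ 0 φ = 0)
    (h2 : pull (TopCat.toSSet.map f) 0 φ = 0) : φ = 0 := by
  apply lin_inj
  rw [lin_zero]
  refine HU2_inj0 (SSet.chainComplexMap (TopCat.toSSet.map f) QQ) (HU3_iso hf 0) ?_ ?_
  · rw [lin_d, h1, lin_zero]
  · rw [lin_map, h2, lin_zero]

theorem HU3_surj0 (hf : ratIso f) {φ : Cc (TopCat.toSSet.obj X) 0} (h1 : cobd _ 0 φ = 0) :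
    ∃ Φ : Cc (TopCat.toSSet.obj Y) 0, cobd _ 0 Φ = 0 ∧ pull (TopCat.toSSet.map f) 0 Φ = φ := by
  obtain ⟨Φ', h2, h3⟩ := HU2_surj0 (SSet.chainComplexMap (TopCat.toSSet.map f) QQ) (HU3_iso hf 0)
    (φ := lin _ 0 φ) (by rw [lin_d, h1, lin_zero])
  obtain ⟨Φ, rfl⟩ := lin_surj _ _ Φ'
  rw [lin_d] at h2
  rw [lin_map] at h3
  refine ⟨Φ, lin_inj _ _ ?_, lin_inj _ _ h3⟩
  rw [h2, lin_zero]

theorem HU3_inj (hf : ratIso f) (k : ℕ) {φ : Cc (TopCat.toSSet.obj Y) (k + 1)}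
    {ψ : Cc (TopCat.toSSet.obj X) k} (h1 : cobd _ (k + 1) φ = 0)
    (h2 : pull (TopCat.toSSet.map f) (k + 1) φ = cobd _ k ψ) :
    ∃ χ : Cc (TopCat.toSSet.obj Y) k, φ = cobd _ k χ := by
  obtain ⟨χ', h3⟩ := HU2_inj (SSet.chainComplexMap (TopCat.toSSet.map f) QQ) k
    (HU3_iso hf (k + 1)) (φ := lin _ (k + 1) φ) (ψ := lin _ k ψ)
    (by rw [lin_d, h1, lin_zero]) (by rw [lin_map, lin_d, h2])
  obtain ⟨χ, rfl⟩ := lin_surj _ _ χ'
  rw [lin_d] at h3
  exact ⟨χ, lin_inj _ _ h3⟩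

theorem HU3_surj (hf : ratIso f) (k : ℕ) {φ : Cc (TopCat.toSSet.obj X) (k + 1)}
    (h1 : cobd _ (k + 1) φ = 0) :
    ∃ (Φ : Cc (TopCat.toSSet.obj Y) (k + 1)) (ψ : Cc (TopCat.toSSet.obj X) k), cobd _ (k + 1) Φ = 0 ∧
      pull (TopCat.toSSet.map f) (k + 1) Φ = φ + cobd _ k ψ := by
  obtain ⟨Φ', ψ', h2, h3⟩ := HU2_surj (SSet.chainComplexMap (TopCat.toSSet.map f) QQ) k
    (HU3_iso hf (k + 1)) (φ := lin _ (k + 1) φ) (by rw [lin_d, h1, lin_zero])
  obtain ⟨Φ, rfl⟩ := lin_surj _ _ Φ'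
  obtain ⟨ψ, rfl⟩ := lin_surj _ _ ψ'
  rw [lin_d] at h2
  rw [lin_map, lin_d, ← lin_add] at h3
  refine ⟨Φ, ψ, lin_inj _ _ ?_, lin_inj _ _ h3⟩
  rw [h2, lin_zero]

end RQ
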