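import Pool.Agent.H34.RQ.HK

/-!
# HV (helper34, MP_fbf562_RQ): values of cocycles on paths

`u` a cocycle (`cobd 1 u = 0`), so `u (δ 1 s) = u (δ 0 s) + u (δ 2 s)` for every 2-simplex (`cobd1_apply`).
* `val_refl` : the constant 2-simplex (`K4`): `u c = u c + u c`.
* `val_trans` : `K1`. `val_hom` : `K2`: with `D` the common edge, `u D = u (refl) + u p` and `u D = u q + u (refl)`.
* `val_symm` : `p.trans p.symm` is homotopic to the constant path (`Path.Homotopy.reflTransSymm`).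

`w` with `cobd 1 w = cupc u v`, `u, v` cocycles: `w (δ 1 s) = w (δ 0 s) + w (δ 2 s) - u (δ 2 s) v (δ 0 s)`.
* `cval_refl` : `K4` and `val_refl`: `w c = 2 w c - 0`.
* `cval_trans` : `K1`. `cval_hom` : `K2`: `w D = 0 + w p - u p * v (refl) = w p` and `w D = w q + 0 - u (refl) * v q = w q`.
* `HV_main` : `w (a b) = w a + w b - u a v b`, `w (b a) = w b + w a - u b v a`, and `w (a b) = w (b a)` since `a.trans b` is homotopic
  to `b.trans a`.

`cobd 0 s = t` evaluated on `ed p`, `p : Path x y`: `t (ed p) = s (pt y) - s (pt x)` (`cobd0_apply`, `d0_ed`, `d1_ed`): `HV_exact`.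
-/

open CategoryTheory Simplicial
open scoped unitInterval

namespace RQ

variable {X : Type} [TopologicalSpace X]

theorem HV_exact (a : Cc (SX X) 0) {x y : X} (p : Path x y) :
    cobd (SX X) 0 a (ed p) = a (pt y) - a (pt x) := by
  rw [cobd0_apply, d0_ed, d1_ed]

/-- A cochain of degree `0` is closed iff it is constant along paths. -/
theorem HV_closed0 (a : Cc (SX X) 0) :
    cobd (SX X) 0 a = 0 ↔ ∀ (x y : X), Joined x y → a (pt x) = a (pt y) := by
  constructor
  · rintro h x y ⟨p⟩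
    have h1 := congrFun h (ed p)
    rw [HV_exact] at h1
    have h2 : a (pt y) - a (pt x) = 0 := h1
    linarith
  · intro h
    funext e
    obtain ⟨x, y, p, rfl⟩ := ed_surj e
    rw [HV_exact, h x y ⟨p⟩, sub_self]
    rfl

theorem act_ed (a : Cc (SX X) 0) (u : Cc (SX X) 1) {x y : X} (p : Path x y) :
    act a u (ed p) = a (pt x) * u (ed p) := by
  unfold act
  rw [d1_ed]

/-- The cocycle equation. -/
theorem HV_cocycle {u : Cc (SX X) 1} (hu : cobd (SX X) 1 u = 0) (s : (SX X) _⦋2⦌) :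
    u ((SX X).δ 1 s) = u ((SX X).δ 0 s) + u ((SX X).δ 2 s) := by
  have h1 := congrFun hu s
  rw [cobd1_apply] at h1
  have h2 : u ((SX X).δ 0 s) - u ((SX X).δ 1 s) + u ((SX X).δ 2 s) = 0 := h1
  linarith

/-- The equation for a primitive of a cup product. -/
theorem HV_prim {u v w : Cc (SX X) 1} (hw : cobd (SX X) 1 w = cupc u v) (s : (SX X) _⦋2⦌) :
    w ((SX X).δ 1 s) = w ((SX X).δ 0 s) + w ((SX X).δ 2 s) - u ((SX X).δ 2 s) * v ((SX X).δ 0 s) := by
  have h1 := congrFun hw s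
  rw [cobd1_apply] at h1
  have h2 : w ((SX X).δ 0 s) - w ((SX X).δ 1 s) + w ((SX X).δ 2 s) =
    u ((SX X).δ 2 s) * v ((SX X).δ 0 s) := h1
  linarith

theorem val_refl {u : Cc (SX X) 1} (hu : cobd (SX X) 1 u = 0) (x : X) : u (ed (Path.refl x)) = 0 := by
  obtain ⟨s, h2, h0, h1⟩ := K4 x
  have h := HV_cocycle hu s
  rw [h0, h1, h2] at h
  linarith

theorem val_trans {u : Cc (SX X) 1} (hu : cobd (SX X) 1 u = 0) {x y z : X} (p : Path x y)
    (q : Path y z) : u (ed (p.trans q)) = u (ed p) + u (ed q) := by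
  obtain ⟨s, h2, h0, h1⟩ := K1 p q
  have h := HV_cocycle hu s
  rw [h0, h1, h2] at h
  linarith

theorem val_hom {u : Cc (SX X) 1} (hu : cobd (SX X) 1 u = 0) {x y : X} {p q : Path x y}
    (h : p.Homotopic q) : u (ed p) = u (ed q) := by
  obtain ⟨s, s', h1, h2, h3, h4, h5⟩ := K2 h
  have e1 := HV_cocycle hu s
  have e2 := HV_cocycle hu s'
  rw [h1, h2, val_refl hu] at e1
  rw [h3, h4, val_refl hu, ← h5] at e2
  linarith

theorem val_symm {u : Cc (SX X) 1} (hu : cobd (SX X) 1 u = 0) {x y : X} (p : Path x y) :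
    u (ed p.symm) = - u (ed p) := by
  have h1 := val_hom hu (⟨Path.Homotopy.reflTransSymm p⟩ : (Path.refl x).Homotopic (p.trans p.symm))
  rw [val_refl hu, val_trans hu] at h1
  linarith

theorem cval_refl {u v w : Cc (SX X) 1} (hu : cobd (SX X) 1 u = 0)
    (hw : cobd (SX X) 1 w = cupc u v) (x : X) : w (ed (Path.refl x)) = 0 := by
  obtain ⟨s, h2, h0, h1⟩ := K4 x
  have h := HV_prim hw s
  rw [h0, h1, h2, val_refl hu] at h
  linarith

theorem cval_trans {u v w : Cc (SX X) 1}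
    (hw : cobd (SX X) 1 w = cupc u v) {x y z : X} (p : Path x y)
    (q : Path y z) : w (ed (p.trans q)) = w (ed p) + w (ed q) - u (ed p) * v (ed q) := by
  obtain ⟨s, h2, h0, h1⟩ := K1 p q
  have h := HV_prim hw s
  rw [h0, h1, h2] at h
  linarith

theorem cval_hom {u v w : Cc (SX X) 1} (hu : cobd (SX X) 1 u = 0) (hv : cobd (SX X) 1 v = 0)
    (hw : cobd (SX X) 1 w = cupc u v) {x y : X} {p q : Path x y}
    (h : p.Homotopic q) : w (ed p) = w (ed q) := by
  obtain ⟨s, s', h1, h2, h3, h4, h5⟩ := K2 h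
  have e1 := HV_prim hw s
  have e2 := HV_prim hw s'
  rw [h1, h2, val_refl hv, cval_refl hu hw] at e1
  rw [h3, h4, val_refl hu, cval_refl hu hw, ← h5] at e2
  linarith

theorem HV_main {u v : Cc (SX X) 1} (hu : cobd (SX X) 1 u = 0) (hv : cobd (SX X) 1 v = 0)
    {w : Cc (SX X) 1} (hw : cobd (SX X) 1 w = cupc u v) {x : X} {a b : Path x x}
    (hab : (a.trans b).Homotopic (b.trans a)) : u (ed a) * v (ed b) = u (ed b) * v (ed a) := by
  have h1 := cval_hom hu hv hw hab
  rw [cval_trans hw, cval_trans hw] at h1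
  linarith

end RQ
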