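import Pool.Agent.H34.RQ.DK

/-!
# L1 (helper34, MP_fbf562_RQ): the centraliser of a nonzero power of `mu` is `KK`

`L1` : induction on the length of `ty g` (strong induction, `g` general). If `ty g = []` then `g = mu ^ n` (`ty_nil`, `mem_Am_GG`). If
`ty g = i :: t` write `g = of i x * g'`, `ty g' = t` (`ty_head`, `GG_inj`). Let `y = x⁻¹ * tMu ^ k * x : TG (qq i)`, so
`g'⁻¹ * of i y * g' = g⁻¹ * mu ^ k * g = mu ^ k` (`of_merHom`). If `y` is not in the range of `merHom (qq i)` then `ty (of i y) = [i]`,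
`ty (of i y * g') = i :: t` (`ty_mul`, the chain is `ty_chain g`), `ty g'⁻¹ = t.reverse` and
`ty (g'⁻¹ * (of i y * g')) = t.reverse ++ i :: t` (the concatenation is a chain: `t.reverse` is a chain whose last element is the
head of `t`, different from `i`; e.g. from `(i :: t)` chain: `(t.reverse ++ [i])` is a chain as the reverse of `i :: t`, and then
append `t`), which is not `[]`, while `mu ^ k ∈ A` has type `[]`: contradiction. So `y = tMu ^ l`, and `T0` (with `n = 0`) gives `l = k` and
`x = tMu ^ a * tZ ^ b`: `of i x = mu ^ a * zz i ^ b ∈ KK` (`of_muZ`), and `g'⁻¹ mu ^ k g' = mu ^ k`, so `g' ∈ KK` by induction.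

`L1_tail` : the same argument only once: if `g⁻¹ * mu ^ k * g` is in `A` ... not needed.

`L1_comm` : `g ∈ KK` iff `g` commutes with `mu`.

`L3` : `c ∈ KK` commutes with `zz i`, then `c = mu ^ a * zz i ^ b`. Proof: `ty (zz i) = [i]` (`ty_of`, `muZ_mem` with `a = 0`, `b = 1`).
First claim: if `c ∈ KK` commutes with `zz i` and `ty c = j :: t` then `j = i`. Otherwise `ty (zz i * c) = i :: j :: t`
(`ty_mul`); `c * zz i` has the same type, of length `|c| + 1`, so `ty (c * zz i) = ty c ++ [i]` by `ty_mul_of_len`: it starts with `j`, a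
contradiction. Now if `ty c = []`, `c = mu ^ a`. If `ty c = i :: t`: `c = mu ^ a * zz i ^ b * c'` with `c' ∈ KK`, `ty c' = t` (`KK_head`),
`c'` commutes with `zz i`; `t = []` since otherwise `t = j :: t'` with `j = i` by the claim, but `j ≠ i` by `ty_chain c`. So
`c' = mu ^ a'`.
-/

namespace RQ

open Monoid

theorem L1_zpow_nil (k : ℤ) : ty (mu ^ k) = [] :=
  (ty_nil GG_inj _).mpr ((mem_Am_GG _).mpr ⟨k, rfl⟩)

theorem L1_grp {Q : Type} [Group Q] (X g M : Q) :
    g⁻¹ * (X⁻¹ * M * X * g) = (X * g)⁻¹ * M * (X * g) := by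
  group

theorem L1_rev {t : List (Fin 3)} {i : Fin 3} (h : (i :: t).IsChain (· ≠ ·)) :
    (t.reverse ++ i :: t).IsChain (· ≠ ·) := by
  rw [List.isChain_append]
  refine ⟨?_, h, ?_⟩
  · rw [List.isChain_reverse]
    refine h.tail.imp ?_
    intro a b hab
    exact fun h' => hab h'.symm
  · intro x hx y hy
    simp only [List.head?_cons, Option.mem_def, Option.some.injEq] at hy
    subst hy
    cases t with
    | nil => simp at hx
    | cons z t =>
      simp only [List.reverse_cons, List.getLast?_append, List.getLast?_singleton,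
        Option.some_or, Option.mem_def, Option.some.injEq] at hx
      subst hx
      rw [List.isChain_cons_cons] at h
      exact h.1.symm

theorem L1 {k : ℤ} (hk : k ≠ 0) {g : GG} (h : g⁻¹ * mu ^ k * g = mu ^ k) : g ∈ KK := by
  induction hn : (ty g).length using Nat.strong_induction_on generalizing g with
  | _ n ih =>
    subst hn
    rcases ht : ty g with _ | ⟨i, t⟩
    · obtain ⟨n, hn⟩ := (mem_Am_GG g).mp ((ty_nil GG_inj g).mp ht)
      rw [hn]
      exact KK.zpow_mem mu_mem n
    · obtain ⟨x, g', hx, hg, ht'⟩ := ty_head GG_inj ht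
      have hch := ty_chain g
      rw [ht] at hch
      have e1 : g'⁻¹ * (PushoutI.of i (x⁻¹ * tMu (qq i) ^ k * x) * g') = mu ^ k := by
        have h' := h
        rw [hg] at h'
        refine Eq.trans ?_ h'
        rw [map_mul, map_mul, of_merHom, map_inv]
        exact L1_grp (Q := GG) _ _ _
      by_cases hy : x⁻¹ * tMu (qq i) ^ k * x ∈ (merHom (qq i)).range
      · obtain ⟨l, hl⟩ := mem_merHom_range.mp hy
        obtain ⟨-, hlk, a, b, hxab⟩ := T0 (qq_ge i) (qq_odd i) (k := k) (n := 0) (l := l) (u := x)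
          (by rw [zpow_zero, mul_one]; exact hl) (Or.inl hk)
        have h1 : PushoutI.of i x = (mu ^ a * zz i ^ b : GG) := by
          rw [hxab, of_muZ]
        have h2 : (mu ^ a * zz i ^ b : GG) ∈ KK :=
          mul_mem (KK.zpow_mem mu_mem a) (KK.zpow_mem (zz_mem i) b)
        have h3 : g' ∈ KK := by
          refine ih (ty g').length ?_ ?_ rfl
          · rw [ht', ht]
            simp
          · rw [hl, hlk, of_merHom] at e1
            rw [mul_assoc]
            exact e1
        rw [hg, h1]
        exact mul_mem h2 h3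
      · exfalso
        have h1 : ty (PushoutI.of i (x⁻¹ * tMu (qq i) ^ k * x) : GG) = [i] := ty_of GG_inj hy
        have h2 : ty ((PushoutI.of i (x⁻¹ * tMu (qq i) ^ k * x) : GG) * g') = i :: t := by
          rw [ty_mul GG_inj _ _ (by rw [h1, ht']; exact hch), h1, ht']
          rfl
        have h3 : ty g'⁻¹ = t.reverse := by rw [ty_inv GG_inj, ht']
        have h4 : ty (g'⁻¹ * ((PushoutI.of i (x⁻¹ * tMu (qq i) ^ k * x) : GG) * g')) =
            t.reverse ++ i :: t := by
          rw [ty_mul GG_inj _ _ (by rw [h3, h2]; exact L1_rev hch), h3, h2]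
        rw [e1, L1_zpow_nil] at h4
        simp at h4

theorem mem_KK_iff (g : GG) : g ∈ KK ↔ Commute g mu := by
  constructor
  · exact KK_comm
  · intro h
    refine L1 (k := 1) one_ne_zero ?_
    rw [zpow_one, mul_assoc, ← h.eq, inv_mul_cancel_left]

theorem ty_zz (i : Fin 3) : ty (zz i) = [i] := by
  refine ty_of GG_inj ?_
  intro h
  have h1 := (muZ_mem (qq_ge i) (qq_odd i) 0 1).mp (by
    rw [zpow_zero, one_mul, zpow_one]
    exact h)
  exact one_ne_zero h1

theorem L1_first {c : GG} {i j : Fin 3} {t : List (Fin 3)} (h : Commute c (zz i))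
    (ht : ty c = j :: t) : j = i := by
  by_contra hne
  have hch := ty_chain c
  have h1 : ty (zz i * c) = i :: j :: t := by
    rw [ty_mul GG_inj _ _ ?_, ty_zz, ht]
    · rfl
    · rw [ty_zz, ht]
      rw [ht] at hch
      change (i :: j :: t).IsChain _
      rw [List.isChain_cons_cons]
      exact ⟨fun h' => hne h'.symm, hch⟩
  have h2 : ty (c * zz i) = ty c ++ ty (zz i) := by
    refine ty_mul_of_len GG_inj ?_
    rw [h.eq, h1, ht, ty_zz]
    simp
  rw [h.eq, h1, ht, ty_zz] at h2
  exact hne (List.cons.inj h2).1.symm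

theorem L3 {c : GG} (hc : c ∈ KK) {i : Fin 3} (h : Commute c (zz i)) :
    ∃ a b : ℤ, c = mu ^ a * zz i ^ b := by
  rcases ht : ty c with _ | ⟨j, t⟩
  · obtain ⟨n, hn⟩ := (mem_Am_GG c).mp ((ty_nil GG_inj c).mp ht)
    exact ⟨n, 0, by rw [hn, zpow_zero, mul_one]⟩
  · have hj := L1_first h ht
    subst hj
    obtain ⟨a, b, g', hb, hg', hcg, ht'⟩ := KK_head hc ht
    have hcomm : Commute g' (zz j) := by
      have e1 : g' = (mu ^ a * zz j ^ b)⁻¹ * c := by
        rw [hcg, inv_mul_cancel_left]
      rw [e1]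
      refine Commute.mul_left (Commute.inv_left ?_) h
      refine Commute.mul_left ?_ ?_
      · exact (zz_comm_mu j).symm.zpow_left a
      · exact (Commute.refl (zz j)).zpow_left b
    have hch := ty_chain c
    rw [ht] at hch
    rcases t with _ | ⟨j', t'⟩
    · obtain ⟨n, hn⟩ := (mem_Am_GG g').mp ((ty_nil GG_inj g').mp ht')
      refine ⟨a + n, b, ?_⟩
      have e2 : Commute (zz j ^ b) (mu ^ n) := (zz_comm_mu j).zpow_zpow b n
      rw [hcg, hn, mul_assoc, e2.eq, ← mul_assoc, zpow_add]
    · exfalso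
      have hj' := L1_first hcomm ht'
      subst hj'
      rw [List.isChain_cons_cons] at hch
      exact hch.1 rfl

end RQ
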