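import Pool.Agent.H34.RQ.L2a

/-!
# L2 (helper34, MP_fbf562_RQ): an element of `KK` commuting with an element outside of `KK` is conjugate to a power of some `zz i`

Notation `|g| = (ty g).length`.

`L2_ell` : `g = mu ^ a * zz i ^ b`, `b ≠ 0`, `g h = h g`. Then `h = of i x` for some `x : TG (qq i)`. Proof. `ty g = [i]` (`of_muZ`, `muZ_mem`,
`ty_of`). If `ty h = []`: `h = mu ^ n = of i (tMu ^ n)`. Let `ty h = j :: t`.
 (1) `j = i`: otherwise `ty (g * h) = i :: j :: t` (`ty_mul`), so `|h * g| = |h| + 1`, `ty (h * g) = ty h ++ [i]` (`ty_mul_of_len`)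
     starts with `j ≠ i`, contradiction with `h * g = g * h`.
 (2) `h = of i x * h'` with `ty h' = t` (`ty_head`). If `t = []`, `h' ∈ A`, `h' = of i (tMu ^ n)`, done. Let `t ≠ []`; its head is not `i`
     (`ty_chain h`). From `g h = h g`: `h' g h'⁻¹ = x⁻¹ g x` (`of i x` omitted), and the right side is `of i (...)`, of length `≤ 1`
     (`ty_of` or `of_mem_Am`). Let `e` be the last element of `t`.
     If `e ≠ i`: `ty (h' * g * h'⁻¹) = t ++ [i] ++ t.reverse` has length `≥ 3`: contradiction.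
     If `e = i`: `t = s ++ [i]`, `h' = h'' * of i y`, `ty h'' = s` (`ty_last`); `s ≠ []` because the head of `t` is not `i`; the last
     element of `s` is not `i` (`ty_chain`). `h' g h'⁻¹ = h'' * of i w * h''⁻¹` with `w = y (μ ^ a z ^ b) y⁻¹`. If `w` is not in the range of
     `merHom (qq i)`: the type is `s ++ [i] ++ s.reverse` of length `≥ 3`, contradiction. If `w = tMu ^ l`: `T0` with `u = y⁻¹`,
     `k = a`, `n = b ≠ 0` gives `b = 0`, contradiction.

`L2` : by `L2a_cyc` there is `c ∈ KK`; `g' = c⁻¹ g c ∈ KK`, `h' = c⁻¹ h c ∉ KK`, `g' h' = h' g'`. If `ty g' = i :: (m ++ [j])` with `i ≠ j`, `L2a_hyp`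
gives `h' ∈ KK`, contradiction. If `ty g' = []`: `g' = mu ^ k` (`mem_Am_GG`); if `k ≠ 0` then `h' ∈ KK` by `L1`, contradiction; so `g' = 1`,
`g = 1 = c * zz 0 ^ 0 * c⁻¹`. If `ty g' = [i]`: by `KK_head` `g' = mu ^ a * zz i ^ b * g''` with `ty g'' = []`, `g'' = mu ^ a'`, so
`g' = mu ^ (a + a') * zz i ^ b`, `b ≠ 0` (`zz_comm_mu`). `L2_ell`: `h' = of i x`. Then (`zz i` central in the factor, `zz_comm_of`)
`h'` commutes with `mu ^ (a + a')`, so if `a + a' ≠ 0` `L1` gives `h' ∈ KK`, contradiction; so `g' = zz i ^ b` and `g = c * zz i ^ b * c⁻¹`.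
-/

namespace RQ

open Monoid

theorem L2_g1 {G : Type} [Group G] (x w h : G) : x⁻¹ * (w * (x * h)) * h⁻¹ = x⁻¹ * w * x := by
  group

theorem L2_g2 {G : Type} [Group G] (x w h : G) : x⁻¹ * (x * h * w) * h⁻¹ = h * w * h⁻¹ := by
  group

theorem L2_g3 {G : Type} [Group G] (h y w : G) :
    h * y * w * (h * y)⁻¹ = h * (y * w * y⁻¹) * h⁻¹ := by
  group

theorem L2_g4 {G : Type} [Group G] (c g : G) : g = c * (c⁻¹ * g * c) * c⁻¹ := by
  group

theorem L2_g5 {G : Type} [Group G] {c g h : G} (hc : g * h = h * g) :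
    c⁻¹ * g * c * (c⁻¹ * h * c) = c⁻¹ * h * c * (c⁻¹ * g * c) := by
  calc c⁻¹ * g * c * (c⁻¹ * h * c) = c⁻¹ * (g * h) * c := by group
    _ = c⁻¹ * (h * g) * c := by rw [hc]
    _ = c⁻¹ * h * c * (c⁻¹ * g * c) := by group

theorem L2_g6 {G : Type} [Group G] {m h : G} (hk : m * h = h * m) : h⁻¹ * m * h = m := by
  rw [mul_assoc, hk, inv_mul_cancel_left]

theorem L2_g7 {G : Type} [Group G] {m z h : G} (hc : m * z * h = h * (m * z))
    (hz : z * h = h * z) : m * h = h * m := by
  have h1 : m * h * z = h * m * z := by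
    rw [mul_assoc, ← hz, ← mul_assoc, hc, mul_assoc]
  exact mul_right_cancel h1

theorem L2_conj {h : GG} {i : Fin 3} {s : List (Fin 3)} {w : TG (qq i)}
    (hw : w ∉ (merHom (qq i)).range) (hs : ty h = s) (hne : s ≠ [])
    (hl : ∀ e ∈ s.getLast?, e ≠ i) :
    3 ≤ (ty (h * PushoutI.of i w * h⁻¹ : GG)).length := by
  have hc : s.IsChain (· ≠ ·) := by rw [← hs]; exact ty_chain h
  have hcr : s.reverse.IsChain (· ≠ ·) := by
    rw [← hs, ← ty_inv GG_inj]
    exact ty_chain _
  have h0 : ty (PushoutI.of i w : GG) = [i] := ty_of GG_inj hw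
  have hc1 : (s ++ [i]).IsChain (· ≠ ·) := by
    rw [List.isChain_append]
    refine ⟨hc, List.isChain_singleton _, fun x hx y hy => ?_⟩
    have hy' : i = y := by simpa using hy
    rw [← hy']
    exact hl x hx
  have h1 : ty (h * PushoutI.of i w : GG) = s ++ [i] := by
    rw [ty_mul GG_inj _ _ (by rw [hs, h0]; exact hc1), hs, h0]
  have hc2 : ((s ++ [i]) ++ s.reverse).IsChain (· ≠ ·) := by
    rw [List.isChain_append]
    refine ⟨hc1, hcr, fun x hx y hy => ?_⟩
    have hx' : i = x := by simpa using hx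
    rw [List.head?_reverse] at hy
    rw [← hx']
    exact (hl y hy).symm
  have h2 : ty (h * PushoutI.of i w * h⁻¹ : GG) = (s ++ [i]) ++ s.reverse := by
    rw [ty_mul GG_inj _ _ (by rw [h1, ty_inv GG_inj, hs]; exact hc2), h1, ty_inv GG_inj, hs]
  have h3 : 1 ≤ s.length := List.length_pos_iff.2 hne
  rw [h2]
  simp only [List.length_append, List.length_reverse, List.length_cons, List.length_nil]
  omega

theorem L2_short {i : Fin 3} (w : TG (qq i)) : (ty (PushoutI.of i w : GG)).length ≤ 1 := by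
  by_cases hw : w ∈ (merHom (qq i)).range
  · rw [(ty_nil GG_inj _).2 ((of_mem_Am GG_inj).2 hw)]
    simp
  · rw [ty_of GG_inj hw]
    simp

theorem L2_ell {i : Fin 3} {a b : ℤ} (hb : b ≠ 0) {h : GG}
    (hc : (mu ^ a * zz i ^ b) * h = h * (mu ^ a * zz i ^ b)) :
    ∃ x : TG (qq i), h = PushoutI.of i x := by
  have hG0 : (PushoutI.of i (tMu (qq i) ^ a * tZ (qq i) ^ b) : GG) = mu ^ a * zz i ^ b :=
    of_muZ i a b
  rw [← hG0] at hc
  have hw0 : tMu (qq i) ^ a * tZ (qq i) ^ b ∉ (merHom (qq i)).range := by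
    rw [muZ_mem (qq_ge i) (qq_odd i)]
    exact hb
  obtain ⟨w0, hw0d⟩ : ∃ w0, w0 = tMu (qq i) ^ a * tZ (qq i) ^ b := ⟨_, rfl⟩
  rw [← hw0d] at hc hw0
  have hty0 : ty (PushoutI.of i w0 : GG) = [i] := ty_of GG_inj hw0
  have hAm : ∀ g : GG, ty g = [] → ∃ n : ℤ, g = PushoutI.of i (tMu (qq i) ^ n) := by
    intro g hg
    obtain ⟨n, hn⟩ := (mem_Am_GG g).1 ((ty_nil GG_inj g).1 hg)
    exact ⟨n, by rw [hn, of_merHom]⟩
  cases hth : ty h with
  | nil =>
    obtain ⟨n, hn⟩ := hAm h hth
    exact ⟨_, hn⟩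
  | cons j t =>
    have hch : (j :: t).IsChain (· ≠ ·) := by rw [← hth]; exact ty_chain h
    have hji : j = i := by
      by_contra hne
      have h1 : ty (PushoutI.of i w0 * h : GG) = [i] ++ (j :: t) := by
        have h2 : ([i] ++ (j :: t)).IsChain (· ≠ ·) := by
          rw [List.isChain_append]
          refine ⟨List.isChain_singleton _, hch, fun x hx y hy => ?_⟩
          have hx' : i = x := by simpa using hx
          have hy' : j = y := by simpa using hy
          rw [← hx', ← hy']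
          exact fun h3 => hne h3.symm
        rw [ty_mul GG_inj _ _ (by rw [hty0, hth]; exact h2), hty0, hth]
      have h3 : ty (h * PushoutI.of i w0 : GG) = ty h ++ ty (PushoutI.of i w0 : GG) := by
        apply ty_mul_of_len GG_inj
        rw [← hc, h1, hth, hty0]
        simp only [List.length_append, List.length_cons, List.length_nil]
        omega
      rw [← hc, h1, hth] at h3
      exact hne (List.cons.inj h3).1.symm
    subst hji
    obtain ⟨x, h', hx, hh, hht⟩ := ty_head GG_inj hth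
    by_cases ht : t = []
    · rw [ht] at hht
      obtain ⟨n, hn⟩ := hAm h' hht
      exact ⟨x * tMu (qq j) ^ n, by rw [hh, hn, map_mul]⟩
    · exfalso
      have hK : h' * PushoutI.of j w0 * h'⁻¹ = (PushoutI.of j (x⁻¹ * w0 * x) : GG) := by
        rw [hh] at hc
        rw [map_mul, map_mul, map_inv]
        have h2 : (PushoutI.of j x : GG)⁻¹ * (PushoutI.of j w0 * (PushoutI.of j x * h')) * h'⁻¹ =
            (PushoutI.of j x)⁻¹ * (PushoutI.of j x * h' * PushoutI.of j w0) * h'⁻¹ := by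
          rw [hc]
        exact (L2_g2 (G := GG) _ _ _).symm.trans (h2.symm.trans (L2_g1 (G := GG) _ _ _))
      have hlen : (ty (h' * PushoutI.of j w0 * h'⁻¹ : GG)).length ≤ 1 := by
        rw [hK]
        exact L2_short _
      obtain ⟨s, e, hse⟩ : ∃ s e, t = s ++ [e] := by
        rcases List.eq_nil_or_concat t with h | ⟨s, e, h⟩
        · exact absurd h ht
        · exact ⟨s, e, by rw [h, List.concat_eq_append]⟩
      by_cases hej : e = j
      · subst hej
        rw [hse] at hht hch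
        obtain ⟨y, h'', hy, hh', hht'⟩ := ty_last GG_inj hht
        have hs : s ≠ [] := by
          rintro rfl
          rw [List.nil_append, List.isChain_cons_cons] at hch
          exact hch.1 rfl
        have hsl : ∀ z ∈ s.getLast?, z ≠ e := by
          intro z hz
          have h5 : (s ++ [e]).IsChain (· ≠ ·) := by rw [← hht]; exact ty_chain h'
          rw [List.isChain_append] at h5
          exact h5.2.2 z hz e (by simp)
        have hK2 : h' * PushoutI.of e w0 * h'⁻¹ =
            (h'' * PushoutI.of e (y * w0 * y⁻¹) * h''⁻¹ : GG) := by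
          rw [hh', map_mul, map_mul, map_inv]
          exact L2_g3 (G := GG) _ _ _
        by_cases hw : y * w0 * y⁻¹ ∈ (merHom (qq e)).range
        · obtain ⟨l, hl⟩ := mem_merHom_range.1 hw
          have h6 := T0 (qq_ge e) (qq_odd e) (k := a) (n := b) (l := l) (u := y⁻¹)
            (by rw [inv_inv, ← hw0d]; exact hl) (Or.inr hb)
          exact hb h6.1
        · have h7 := L2_conj hw hht' hs hsl
          rw [← hK2] at h7
          omega
      · have h7 := L2_conj hw0 hht ht (fun z hz => by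
          rw [hse] at hz
          have hz' : e = z := by simpa using hz
          rw [← hz']
          exact hej)
        omega

theorem L2 {g h : GG} (hg : g ∈ KK) (hh : h ∉ KK) (hc : g * h = h * g) :
    ∃ c ∈ KK, ∃ (j : Fin 3) (n : ℤ), g = c * zz j ^ n * c⁻¹ := by
  obtain ⟨c, hcK, hcyc⟩ := L2a_cyc hg
  obtain ⟨g', hg'⟩ : ∃ g', g' = c⁻¹ * g * c := ⟨_, rfl⟩
  obtain ⟨h', hh'⟩ : ∃ h', h' = c⁻¹ * h * c := ⟨_, rfl⟩
  rw [← hg'] at hcyc
  have hgc : g = c * g' * c⁻¹ := by rw [hg']; exact L2_g4 (G := GG) c g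
  have hhc : h = c * h' * c⁻¹ := by rw [hh']; exact L2_g4 (G := GG) c h
  have hg'K : g' ∈ KK := by
    rw [hg']
    exact mul_mem (mul_mem (inv_mem hcK) hg) hcK
  have hh'K : h' ∉ KK := by
    intro h1
    apply hh
    rw [hhc]
    exact mul_mem (mul_mem hcK h1) (inv_mem hcK)
  have hc' : g' * h' = h' * g' := by
    rw [hg', hh']
    exact L2_g5 (G := GG) hc
  have hmu : ∀ k : ℤ, mu ^ k * h' = h' * mu ^ k → k = 0 := by
    intro k hk
    by_contra hk0
    apply hh'K
    exact L1 hk0 (L2_g6 (G := GG) hk)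
  rcases hcyc with hlen | ⟨i, j, m, hij, ht⟩
  · cases ht : ty g' with
    | nil =>
      obtain ⟨k, hk⟩ := (mem_Am_GG g').1 ((ty_nil GG_inj g').1 ht)
      rw [hk] at hc'
      have hk0 := hmu k hc'
      refine ⟨c, hcK, 0, 0, ?_⟩
      rw [hgc, hk, hk0]
      simp
    | cons i t =>
      have ht0 : t = [] := by
        rw [ht, List.length_cons] at hlen
        exact List.length_eq_zero_iff.1 (by omega)
      rw [ht0] at ht
      obtain ⟨a, b, g'', hb, hg''K, hgg, htg⟩ := KK_head hg'K ht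
      obtain ⟨a', ha'⟩ := (mem_Am_GG g'').1 ((ty_nil GG_inj g'').1 htg)
      have hcomm : Commute (zz i ^ b) (mu ^ a') := (zz_comm_mu i).zpow_zpow b a'
      have hgg2 : g' = mu ^ (a + a') * zz i ^ b := by
        rw [hgg, ha', mul_assoc, hcomm.eq, ← mul_assoc, zpow_add]
      rw [hgg2] at hc'
      obtain ⟨x, hx⟩ := L2_ell hb hc'
      have hzx : Commute (zz i ^ b) h' := by
        rw [hx]
        exact (zz_comm_of i x).zpow_left b
      have hk0 := hmu (a + a') (L2_g7 (G := GG) hc' hzx.eq)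
      refine ⟨c, hcK, i, b, ?_⟩
      rw [hgc, hgg2, hk0, zpow_zero, one_mul]
  · exact absurd (L2a_hyp hg'K hij ht hc') hh'K

end RQ
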