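import Pool.Agent.H34.RQ.L1

/-!
# L2a (helper34, MP_fbf562_RQ): cyclically reduced elements, prefixes, and commuting with a hyperbolic element of `KK`

Notation `|g| = (ty g).length`.

`L2a_cyc` : strong induction on `|g|`. If `|g| ≤ 1` take `c = 1`. Otherwise `ty g = i :: t` with `t ≠ []`, `t = m ++ [j]`. If `i ≠ j` take `c = 1`.
If `i = j`: `g = x * g'` with `x = mu ^ a * zz i ^ b ∈ KK`, `g' ∈ KK`, `ty g' = m ++ [i]` (`KK_head`). Then `x⁻¹ * g * x = g' * x` and
`ty x = [i]` or `[]`... (`ty (mu ^ a * zz i ^ b) = [i]` as `b ≠ 0`: `of_muZ`, `muZ_mem`, `ty_of`), so by `ty_mul_lt`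
`|g' * x| < |g'| + 1 = |g|`. Induction for `g' * x ∈ KK`: `c' ` with `c'⁻¹ (x⁻¹ g x) c'` reduced; take `c = x * c'`.

`L2a_prefix` : existence of prefixes in `KK`: induction on `n` (general `g`), `KK_head`: `g = x g'`, `|g'| = |g| - 1`, prefix `p'` of `g'` of
length `n - 1`, `p = x p'`: `p⁻¹ g = p'⁻¹ g'` of length `|g'| - (n - 1)`; `|p| ≤ |x| + |p'| = n` and `|g| ≤ |p| + |p⁻¹ g|` gives
`|p| ≥ n`.

`L2a_pow` : `ty g = i :: (m ++ [j])`, `i ≠ j`: for `N ≥ 1`, `ty (g ^ N)` has length `N |g|`, starts with `i` and ends with `j`: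
induction with `ty_mul` (concatenation is a chain as `j ≠ i`).

`L2a_key` : `g ∈ KK` with `ty g = i :: (m ++ [j])`, `i ≠ j`, `h` commutes with `g`, and (`ty h = []` or the last element of `ty h`
is not `i`). Then `h ∈ KK`. Proof: if `ty h = []`, `h ∈ A`. Otherwise `n = |h| ≥ 1`, `N = n`, `G = g ^ N`, `|G| = N |g| ≥ n`, `x = h G = G h`
(powers commute). `ty x = ty h ++ ty G` (`ty_mul`), `|x| = n + |G|`, `h⁻¹ x = G`: `h` is a prefix. `p` = prefix of `G` of length `n`
(`L2a_prefix`, `G ∈ KK`). `p⁻¹ x = (p⁻¹ G) h` has length `≤ (|G| - n) + n = |G|` and `|x| ≤ |p| + |p⁻¹ x|`, so `|p⁻¹ x| = |G|`.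
`ty_prefix` (`g := h`, `h := p`): `h⁻¹ p ∈ A ⊆ KK`, so `h ∈ KK`.

`L2a_hyp` : without the hypothesis on the last element `e` of `ty h`: if `e = i` apply `L2a_key` to `g⁻¹`
(`ty g⁻¹ = j :: (m.reverse ++ [i])`, `j ≠ i = e`).
-/

namespace RQ

open Monoid

theorem L2a_g1 {Q : Type} [Group Q] (x c g : Q) :
    (x * c)⁻¹ * g * (x * c) = c⁻¹ * (x⁻¹ * g * x) * c := by group

theorem L2a_g2 {Q : Type} [Group Q] (x p g : Q) : (x * p)⁻¹ * (x * g) = p⁻¹ * g := by group

theorem L2a_g3 {Q : Type} [Group Q] (h p : Q) : h = p * (h⁻¹ * p)⁻¹ := by group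

theorem L2a_g4 {Q : Type} [Group Q] (g : Q) : (1 : Q)⁻¹ * g = g := by group

theorem L2a_g5 {Q : Type} [Group Q] (g : Q) : (1 : Q)⁻¹ * g * 1 = g := by group

theorem L2a_last (i j : Fin 3) (m : List (Fin 3)) : (i :: (m ++ [j])).getLast? = some j := by
  rw [← List.cons_append, List.getLast?_append]
  rfl

theorem L2a_mem (i : Fin 3) (a b : ℤ) : mu ^ a * zz i ^ b ∈ KK :=
  mul_mem (zpow_mem mu_mem _) (zpow_mem (zz_mem i) _)

theorem L2a_ty (i : Fin 3) {a b : ℤ} (hb : b ≠ 0) : ty (mu ^ a * zz i ^ b) = [i] := by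
  rw [← of_muZ]
  exact ty_of GG_inj fun h => hb ((muZ_mem (qq_ge i) (qq_odd i) a b).1 h)

theorem L2a_Am {g : GG} (h : g ∈ Am (fun i : Fin 3 => merHom (qq i))) : g ∈ KK := by
  obtain ⟨n, rfl⟩ := (mem_Am_GG g).1 h
  exact zpow_mem mu_mem _

theorem L2a_cyc {g : GG} (hg : g ∈ KK) : ∃ c ∈ KK, (ty (c⁻¹ * g * c)).length ≤ 1 ∨
    ∃ i j m, i ≠ j ∧ ty (c⁻¹ * g * c) = i :: (m ++ [j]) := by
  induction hn : (ty g).length using Nat.strong_induction_on generalizing g with
  | _ n ih =>
    subst hn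
    have e0 : (1 : GG)⁻¹ * g * 1 = g := L2a_g5 g
    by_cases h1 : (ty g).length ≤ 1
    · exact ⟨1, one_mem _, Or.inl (by rw [e0]; exact h1)⟩
    · obtain ⟨i, t, ht⟩ : ∃ i t, ty g = i :: t := by
        cases h : ty g with
        | nil => rw [h] at h1; simp at h1
        | cons i t => exact ⟨i, t, rfl⟩
      have ht0 : t ≠ [] := by
        rintro rfl
        rw [ht] at h1
        simp at h1
      obtain ⟨m, j, rfl⟩ : ∃ m j, t = m ++ [j] :=
        ⟨t.dropLast, t.getLast ht0, (List.dropLast_append_getLast ht0).symm⟩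
      by_cases hij : i = j
      · subst hij
        obtain ⟨a, b, g', hb, hg', hgg, ht'⟩ := KK_head hg ht
        have hx := L2a_mem i a b
        have htx := L2a_ty i (a := a) hb
        generalize mu ^ a * zz i ^ b = x at hx htx hgg
        have e : x⁻¹ * g * x = g' * x := by rw [hgg]; group
        have hlt : (ty (g' * x)).length < (ty g).length := by
          have := ty_mul_lt GG_inj (g := g') (h := x) (s := m) (i := i) (t := []) ht' htx
          rw [ht', htx] at this
          rw [ht]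
          simp only [List.length_append, List.length_cons, List.length_nil] at this ⊢
          omega
        obtain ⟨c', hc', h⟩ := ih _ hlt (mul_mem hg' hx) rfl
        refine ⟨x * c', mul_mem hx hc', ?_⟩
        have e2 : (x * c')⁻¹ * g * (x * c') = c'⁻¹ * (g' * x) * c' := by
          rw [← e]; exact L2a_g1 x c' g
        rw [e2]
        exact h
      · exact ⟨1, one_mem _, Or.inr ⟨i, j, m, hij, by rw [e0]; exact ht⟩⟩

theorem L2a_prefix {g : GG} (hg : g ∈ KK) {n : ℕ} (hn : n ≤ (ty g).length) :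
    ∃ p ∈ KK, (ty p).length = n ∧ (ty (p⁻¹ * g)).length = (ty g).length - n := by
  induction n generalizing g with
  | zero =>
    have e0 : (1 : GG)⁻¹ * g = g := L2a_g4 g
    refine ⟨1, one_mem _, ?_, by rw [e0]; rfl⟩
    rw [(ty_nil GG_inj (1 : GG)).2 (one_mem _)]
    rfl
  | succ n ih =>
    obtain ⟨i, t, ht⟩ : ∃ i t, ty g = i :: t := by
      cases h : ty g with
      | nil => rw [h] at hn; simp at hn
      | cons i t => exact ⟨i, t, rfl⟩
    obtain ⟨a, b, g', hb, hg', hgg, ht'⟩ := KK_head hg ht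
    have hx := L2a_mem i a b
    have htx := L2a_ty i (a := a) hb
    generalize mu ^ a * zz i ^ b = x at hx htx hgg
    have hn' : n ≤ (ty g').length := by
      rw [ht'] 
      rw [ht] at hn
      simpa using hn
    obtain ⟨p', hp', h1, h2⟩ := ih hg' hn'
    have e : (x * p')⁻¹ * g = p'⁻¹ * g' := by rw [hgg]; exact L2a_g2 x p' g'
    have h3 := ty_len_le GG_inj x p'
    have h4 := ty_len_le GG_inj (x * p') ((x * p')⁻¹ * g)
    rw [mul_inv_cancel_left, e, h2, ht', ht] at h4
    rw [htx, h1] at h3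
    rw [ht'] at hn'
    simp only [List.length_cons, List.length_nil] at h3 h4
    refine ⟨x * p', mul_mem hx hp', by omega, ?_⟩
    rw [e, h2, ht', ht, List.length_cons]
    omega

theorem L2a_pow {g : GG} {i j : Fin 3} {m : List (Fin 3)} (hij : i ≠ j)
    (h : ty g = i :: (m ++ [j])) (N : ℕ) :
    ∃ m', ty (g ^ (N + 1)) = i :: (m' ++ [j]) ∧ (ty (g ^ (N + 1))).length = (N + 1) * (ty g).length := by
  induction N with
  | zero => exact ⟨m, by simpa using h, by simp⟩
  | succ N ih =>
    obtain ⟨m', h1, h2⟩ := ih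
    have hc : (ty (g ^ (N + 1)) ++ ty g).IsChain (· ≠ ·) := by
      rw [List.isChain_append]
      refine ⟨ty_chain _, ty_chain _, ?_⟩
      intro x hx y hy
      rw [h1] at hx
      rw [h] at hy
      have e1 : x = j := by
        rw [L2a_last] at hx
        simpa using hx.symm
      have e2 : y = i := by simpa using hy.symm
      rw [e1, e2]
      exact hij.symm
    have h3 := ty_mul GG_inj (g ^ (N + 1)) g hc
    rw [← pow_succ] at h3
    refine ⟨m' ++ [j] ++ i :: m, ?_, ?_⟩
    · rw [h3, h1, h]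
      simp
    · rw [h3, List.length_append, h2]
      ring

theorem L2a_key {g h : GG} (hg : g ∈ KK) {i j : Fin 3} {m : List (Fin 3)} (hij : i ≠ j)
    (ht : ty g = i :: (m ++ [j])) (hc : g * h = h * g) (hl : (ty h).getLast? ≠ some i) : h ∈ KK := by
  by_cases h0 : ty h = []
  · exact L2a_Am ((ty_nil GG_inj h).1 h0)
  · obtain ⟨N, hN⟩ : ∃ N, (ty h).length = N + 1 := by
      cases hh : ty h with
      | nil => exact absurd hh h0
      | cons i t => exact ⟨t.length, rfl⟩
    obtain ⟨m', h1, h2⟩ := L2a_pow hij ht N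
    have hG : g ^ (N + 1) ∈ KK := pow_mem hg _
    have hcG : g ^ (N + 1) * h = h * g ^ (N + 1) := (Commute.pow_left (show Commute g h from hc) _).eq
    generalize g ^ (N + 1) = G at h1 h2 hG hcG
    have hGl : N + 1 ≤ (ty G).length := by
      rw [h2, ht]
      simp only [List.length_cons, List.length_append, List.length_nil]
      nlinarith
    have hchain : (ty h ++ ty G).IsChain (· ≠ ·) := by
      rw [List.isChain_append]
      refine ⟨ty_chain _, ty_chain _, ?_⟩
      intro x hx y hy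
      rw [h1] at hy
      have e2 : y = i := by simpa using hy.symm
      rw [e2]
      rintro rfl
      exact hl hx
    have hx := ty_mul GG_inj h G hchain
    obtain ⟨p, hp, hp1, hp2⟩ := L2a_prefix hG hGl
    have e1 : h⁻¹ * (h * G) = G := by group
    have e2 : p⁻¹ * (h * G) = (p⁻¹ * G) * h := by rw [← hcG]; group
    have hxl : (ty (h * G)).length = (ty h).length + (ty G).length := by
      rw [hx, List.length_append]
    have h3 := ty_len_le GG_inj (p⁻¹ * G) h
    rw [hp2, ← e2] at h3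
    have h4 := ty_len_le GG_inj p (p⁻¹ * (h * G))
    rw [mul_inv_cancel_left] at h4
    have h5 : h⁻¹ * p ∈ Am (fun i : Fin 3 => merHom (qq i)) := by
      refine ty_prefix GG_inj (x := h * G) ?_ ?_ ?_
      · rw [e1, hxl]
      · omega
      · omega
    have h6 := L2a_Am h5
    have e3 : h = p * (h⁻¹ * p)⁻¹ := L2a_g3 h p
    rw [e3]
    exact mul_mem hp (inv_mem h6)

theorem L2a_hyp {g h : GG} (hg : g ∈ KK) {i j : Fin 3} {m : List (Fin 3)} (hij : i ≠ j)
    (ht : ty g = i :: (m ++ [j])) (hc : g * h = h * g) : h ∈ KK := by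
  by_cases hl : (ty h).getLast? = some i
  · have h1 : ty g⁻¹ = j :: (m.reverse ++ [i]) := by
      rw [ty_inv GG_inj, ht]
      simp
    refine L2a_key (inv_mem hg) hij.symm h1 ?_ ?_
    · exact (Commute.inv_left (show Commute g h from hc)).eq
    · rw [hl]
      intro he
      exact hij (Option.some.inj he)
  · exact L2a_key hg hij ht hc hl

end RQ
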