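import Pool.Agent.H34.RQ.Asm
import Pool.Agent.H64.LQ.E4
import Pool.Agent.H64.LQ.ME4
import Pool.Agent.H64.LQ.ME5

/-!
# Last (helper34, MP_fbf562_RQ): the group of the sum, the transport action and the conclusion
-/

open CategoryTheory
open scoped unitInterval

namespace RQ

open Monoid

/-- The data about the three torus knots. -/
structure TorData (D : LQ.Tri) where
  θ : ∀ i, LQ.PiM (D.hc i) ≃* TG (qq i)
  mer : ∀ (i : Fin 3) (m : Path (LQ.xM (D.hc i)) (LQ.xM (D.hc i))), LQ.IsMer (D.hc i) m →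
    θ i (LQ.cls m) = tMu (qq i)
  e : Fin 3 → ℤ
  f : Fin 3 → ℤ
  he : ∀ i, e i ≠ 0
  ell : ∀ i, θ i (LQ.cls (LQ.ellM (D.hF i) (D.hc i))) = tZ (qq i) ^ e i * tMu (qq i) ^ f i

theorem of_tMu (i : Fin 3) : (PushoutI.of i (tMu (qq i)) : GG) = mu := by
  have h := of_merHom i 1
  rwa [zpow_one, zpow_one] at h

section Iso

variable {D : LQ.Tri} (t : TorData D) (hS : LK.VKnot (LQ.gS D))

include t in
theorem Last_Phi : ∃ Φ : LQ.PiM hS →* GG, ∀ i y, Φ (LQ.io D hS i y) = PushoutI.of i (t.θ i y) :=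
  LQ.ME4 D hS (fun i => (PushoutI.of i).comp (t.θ i).toMonoidHom) mu (by
    intro i m hm
    show PushoutI.of i (t.θ i (LQ.cls m)) = mu
    rw [t.mer i m hm, of_tMu])

theorem Last_Psi : ∃ Ψ : GG →* LQ.PiM hS, ∀ i x, Ψ (PushoutI.of i x) = LQ.io D hS i ((t.θ i).symm x) := by
  obtain ⟨m', hm'⟩ := LQ.MB_exMer hS
  refine ⟨PushoutI.lift (fun i => (LQ.io D hS i).comp (t.θ i).symm.toMonoidHom)
    (zpowersHom _ (LQ.cls m')) ?_, fun i x => by simp⟩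
  intro i
  obtain ⟨m, hm⟩ := LQ.MB_exMer (D.hc i)
  ext
  have h1 : (t.θ i).symm (tMu (qq i)) = LQ.cls m := by
    rw [← t.mer i m hm, MulEquiv.symm_apply_apply]
  have h2 := LQ.MB_mer D hS i m m' hm hm'
  simp [merHom, h1, h2]

theorem Last_iso : ∃ Θ : LQ.PiM hS ≃* GG, ∀ i y, Θ (LQ.io D hS i y) = PushoutI.of i (t.θ i y) := by
  obtain ⟨Φ, hΦ⟩ := Last_Phi t hS
  obtain ⟨Ψ, hΨ⟩ := Last_Psi t hS
  have h1 : Ψ.comp Φ = MonoidHom.id _ := by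
    apply MonoidHom.ext
    intro y
    have hy := LQ.ME5 D hS y
    induction hy using Subgroup.closure_induction with
    | mem x hx =>
      obtain ⟨i, z, rfl⟩ := Set.mem_iUnion.1 hx
      show Ψ (Φ (LQ.io D hS i z)) = LQ.io D hS i z
      rw [hΦ, hΨ, MulEquiv.symm_apply_apply]
    | one => exact (congrArg Ψ (map_one Φ)).trans (map_one Ψ)
    | mul x y _ _ hx hy => rw [map_mul, map_mul, hx, hy]
    | inv x _ hx => rw [map_inv, map_inv, hx]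
  have h2 : Φ.comp Ψ = MonoidHom.id _ := by
    apply PushoutI.hom_ext_nonempty
    intro i
    apply MonoidHom.ext
    intro x
    show Φ (Ψ (PushoutI.of i x)) = PushoutI.of i x
    rw [hΨ, hΦ, MulEquiv.apply_symm_apply]
  exact ⟨MonoidHom.toMulEquiv Φ Ψ h1 h2, hΦ⟩

end Iso

section Transport

variable {g : ℝ → LK.V} (hg : LK.VKnot g)

theorem Last_symm (α : Path (LK.mkK hg) (LK.mkK hg)) (x : LQ.PiM hg) :
    LQ.Tr hg hg α.symm (LQ.Tr hg hg α x) = x := by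
  have h := LQ.T9_trans hg hg hg α α.symm
  have h2 := LQ.T9_hom hg hg (α.trans α.symm) (Path.refl _)
    (Path.Homotopic.symm ⟨Path.Homotopy.reflTransSymm α⟩)
  rw [h2, LQ.T9_refl] at h
  exact (DFunLike.congr_fun h x).symm

/-- The transport as an automorphism. -/
noncomputable def trE (α : Path (LK.mkK hg) (LK.mkK hg)) : MulAut (LQ.PiM hg) where
  toFun := LQ.Tr hg hg α
  invFun := LQ.Tr hg hg α.symm
  left_inv := Last_symm hg α
  right_inv x := by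
    have h := Last_symm hg α.symm x
    rwa [Path.symm_symm] at h
  map_mul' := map_mul _

theorem trE_apply (α : Path (LK.mkK hg) (LK.mkK hg)) (x : LQ.PiM hg) :
    trE hg α x = LQ.Tr hg hg α x := rfl

theorem trE_trans (α β : Path (LK.mkK hg) (LK.mkK hg)) :
    trE hg (α.trans β) = trE hg β * trE hg α := by
  apply MulEquiv.ext
  intro x
  show LQ.Tr hg hg (α.trans β) x = LQ.Tr hg hg β (LQ.Tr hg hg α x)
  rw [LQ.T9_trans hg hg hg]
  rfl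

theorem trE_hom (α β : Path (LK.mkK hg) (LK.mkK hg)) (h : α.Homotopic β) :
    trE hg α = trE hg β := by
  apply MulEquiv.ext
  intro x
  show LQ.Tr hg hg α x = LQ.Tr hg hg β x
  rw [LQ.T9_hom hg hg α β h]

end Transport

/-- Transport along conjugation by an isomorphism. -/
noncomputable def conjT {P : Type} [Group P] (Θ : P ≃* GG) (a : MulAut P) : MulAut GG :=
  (Θ.symm.trans a).trans Θ

theorem conjT_apply {P : Type} [Group P] (Θ : P ≃* GG) (a : MulAut P) (x : P) :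
    conjT Θ a (Θ x) = Θ (a x) := by
  show Θ (a (Θ.symm (Θ x))) = _
  rw [MulEquiv.symm_apply_apply]

theorem conjT_mul {P : Type} [Group P] (Θ : P ≃* GG) (a b : MulAut P) :
    conjT Θ (a * b) = conjT Θ a * conjT Θ b := by
  apply MulEquiv.ext
  intro x
  obtain ⟨y, rfl⟩ := Θ.surjective x
  have e1 : (conjT Θ a * conjT Θ b) (Θ y) = conjT Θ a (conjT Θ b (Θ y)) := rfl
  have e2 : (a * b) y = a (b y) := rfl
  rw [e1, conjT_apply, conjT_apply, conjT_apply, e2]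

theorem zz_KK (i : Fin 3) (n k : ℤ) : zz i ^ n * mu ^ k ∈ KK :=
  KK.mul_mem (KK.zpow_mem (zz_mem i) n) (KK.zpow_mem mu_mem k)

theorem hh_zzmu (i : Fin 3) (n k : ℤ) : hh (zz i ^ n * mu ^ k) = hh (zz i) ^ n := by
  rw [hh_mul (KK.zpow_mem (zz_mem i) n) (KK.zpow_mem mu_mem k), hh_zpow (zz_mem i),
    hh_zpow mu_mem, hh_mu, one_zpow, mul_one]

theorem hh_one : hh (1 : GG) = 1 := by
  have := hh_mul (g := 1) (g' := 1) KK.one_mem KK.one_mem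
  rw [mul_one] at this
  exact (mul_eq_left.1 this.symm)

theorem GG_inv_inv (x : GG) : x⁻¹⁻¹ = x := inv_inv x

theorem GG_one_inv (x : GG) : x = 1 * x * (1 : GG)⁻¹ := by
  have h : (1 : GG)⁻¹ = 1 := by
    apply inv_eq_of_mul_eq_one_right
    exact mul_one _
  rw [h, one_mul, mul_one]

/-- The data for the two loops. -/
theorem Last_dat {D : LQ.Tri} (t : TorData D) (hS : LK.VKnot (LQ.gS D)) (Θ : LQ.PiM hS ≃* GG)
    (hΘ : ∀ i y, Θ (LQ.io D hS i y) = PushoutI.of i (t.θ i y)) (a b : MulAut (LQ.PiM hS))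
    (h0 : ∀ y, a (LQ.io D hS 0 y) = ((LQ.LL D hS 0)⁻¹ * LQ.LL D hS 1 * LQ.LL D hS 0)⁻¹ *
      LQ.io D hS 0 y * ((LQ.LL D hS 0)⁻¹ * LQ.LL D hS 1 * LQ.LL D hS 0))
    (h1 : ∀ y, a (LQ.io D hS 1 y) = (LQ.LL D hS 0)⁻¹ * LQ.io D hS 1 y * LQ.LL D hS 0)
    (h2 : ∀ y, a (LQ.io D hS 2 y) = LQ.io D hS 2 y)
    (k0 : ∀ y, b (LQ.io D hS 0 y) = LQ.io D hS 0 y)
    (k1 : ∀ y, b (LQ.io D hS 1 y) = ((LQ.LL D hS 1)⁻¹ * LQ.LL D hS 2 * LQ.LL D hS 1)⁻¹ *
      LQ.io D hS 1 y * ((LQ.LL D hS 1)⁻¹ * LQ.LL D hS 2 * LQ.LL D hS 1))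
    (k2 : ∀ y, b (LQ.io D hS 2 y) = (LQ.LL D hS 1)⁻¹ * LQ.io D hS 2 y * LQ.LL D hS 1) :
    ∃ c d : Fin 3 → GG, IsDat (conjT Θ a) c ∧ IsDat (conjT Θ b) d ∧
      (psi c).x * (psi d).y ≠ (psi c).y * (psi d).x := by
  have hL : ∀ i, Θ (LQ.LL D hS i) = zz i ^ t.e i * mu ^ t.f i := by
    intro i
    unfold LQ.LL
    rw [hΘ, t.ell, map_mul, map_zpow, of_merHom]
    rfl
  have hz : ∀ i, zz i = Θ (LQ.io D hS i ((t.θ i).symm (tZ (qq i)))) := by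
    intro i
    rw [hΘ, MulEquiv.apply_symm_apply]
    rfl
  obtain ⟨l, hl⟩ : ∃ l : Fin 3 → GG, ∀ i, l i = zz i ^ t.e i * mu ^ t.f i := ⟨_, fun _ => rfl⟩
  have lK : ∀ i, l i ∈ KK := fun i => by rw [hl]; exact zz_KK i _ _
  have hlL : ∀ i, Θ (LQ.LL D hS i) = l i := fun i => by rw [hL, hl]
  have ca : ∀ i, conjT Θ a (zz i) = Θ (a (LQ.io D hS i ((t.θ i).symm (tZ (qq i))))) := fun i => by
    conv_lhs => rw [hz i]
    exact conjT_apply Θ a _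
  have cb : ∀ i, conjT Θ b (zz i) = Θ (b (LQ.io D hS i ((t.θ i).symm (tZ (qq i))))) := fun i => by
    conv_lhs => rw [hz i]
    exact conjT_apply Θ b _
  have wK : ∀ i j, ((l i)⁻¹ * l j * l i)⁻¹ ∈ KK := fun i j =>
    KK.inv_mem (KK.mul_mem (KK.mul_mem (KK.inv_mem (lK i)) (lK j)) (lK i))
  have vl : ∀ i, hh (l i) = hh (zz i) ^ t.e i := fun i => by rw [hl]; exact hh_zzmu i _ _
  have vw : ∀ i j, hh (((l i)⁻¹ * l j * l i)⁻¹) =
      ((hh (zz i) ^ t.e i)⁻¹ * hh (zz j) ^ t.e j * hh (zz i) ^ t.e i)⁻¹ := by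
    intro i j
    rw [hh_inv (KK.mul_mem (KK.mul_mem (KK.inv_mem (lK i)) (lK j)) (lK i)),
      hh_mul (KK.mul_mem (KK.inv_mem (lK i)) (lK j)) (lK i), hh_mul (KK.inv_mem (lK i)) (lK j),
      hh_inv (lK i), vl, vl]
  refine ⟨![((l 0)⁻¹ * l 1 * l 0)⁻¹, (l 0)⁻¹, 1], ![1, ((l 1)⁻¹ * l 2 * l 1)⁻¹, (l 1)⁻¹],
    ⟨?_, ?_⟩, ⟨?_, ?_⟩, ?_⟩
  · intro i
    fin_cases i
    · exact wK 0 1
    · exact KK.inv_mem (lK 0)
    · exact KK.one_mem
  · intro i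
    fin_cases i
    · show conjT Θ a (zz 0) = ((l 0)⁻¹ * l 1 * l 0)⁻¹ * zz 0 * (((l 0)⁻¹ * l 1 * l 0)⁻¹)⁻¹
      rw [ca 0, h0]
      simp only [map_mul, map_inv, hlL, ← hz]
      exact congrArg _ (GG_inv_inv _).symm
    · show conjT Θ a (zz 1) = (l 0)⁻¹ * zz 1 * ((l 0)⁻¹)⁻¹
      rw [ca 1, h1]
      simp only [map_mul, map_inv, hlL, ← hz]
      exact congrArg _ (GG_inv_inv _).symm
    · show conjT Θ a (zz 2) = 1 * zz 2 * 1⁻¹
      rw [ca 2, h2, ← hz]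
      exact GG_one_inv _
  · intro i
    fin_cases i
    · exact KK.one_mem
    · exact wK 1 2
    · exact KK.inv_mem (lK 1)
  · intro i
    fin_cases i
    · show conjT Θ b (zz 0) = 1 * zz 0 * 1⁻¹
      rw [cb 0, k0, ← hz]
      exact GG_one_inv _
    · show conjT Θ b (zz 1) = ((l 1)⁻¹ * l 2 * l 1)⁻¹ * zz 1 * (((l 1)⁻¹ * l 2 * l 1)⁻¹)⁻¹
      rw [cb 1, k1]
      simp only [map_mul, map_inv, hlL, ← hz]
      exact congrArg _ (GG_inv_inv _).symm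
    · show conjT Θ b (zz 2) = (l 1)⁻¹ * zz 2 * ((l 1)⁻¹)⁻¹
      rw [cb 2, k2]
      simp only [map_mul, map_inv, hlL, ← hz]
      exact congrArg _ (GG_inv_inv _).symm
  · have px : (psi ![((l 0)⁻¹ * l 1 * l 0)⁻¹, (l 0)⁻¹, 1]).x = t.e 1 := by
      rw [psi_x]
      show (hh 1).x - (hh (((l 0)⁻¹ * l 1 * l 0)⁻¹)).x = _
      rw [hh_one, vw, hh_zz0, hh_zz1]
      simp
    have py : (psi ![((l 0)⁻¹ * l 1 * l 0)⁻¹, (l 0)⁻¹, 1]).y = 0 := by
      rw [psi_y]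
      show (hh ((l 0)⁻¹)).y - (hh (((l 0)⁻¹ * l 1 * l 0)⁻¹)).y = _
      rw [hh_inv (lK 0), vl, vw, hh_zz0, hh_zz1]
      simp
    have qy : (psi ![1, ((l 1)⁻¹ * l 2 * l 1)⁻¹, (l 1)⁻¹]).y = - t.e 2 := by
      rw [psi_y]
      show (hh (((l 1)⁻¹ * l 2 * l 1)⁻¹)).y - (hh 1).y = _
      rw [hh_one, vw, hh_zz1, hh_zz2]
      simp
    rw [px, py, qy]
    simp only [zero_mul]
    exact mul_ne_zero (t.he 1) (neg_ne_zero.2 (t.he 2))

theorem Last_main {D : LQ.Tri} (t : TorData D) {Z : Type} [TopologicalSpace Z]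
    (hZ : ∀ z : Z, LK.AbAt z) :
    ¬ RetractIn ratIso (LK.LongKnot 3) Z ∧ ¬ RetractIn ratIso (LK.FramedLongKnot 3) Z := by
  have hS : LK.VKnot (LQ.gS D) := LQ.MG_knot D
  obtain ⟨Θ, hΘ⟩ := Last_iso t hS
  obtain ⟨x0, h0, p01, p12, a0, a1, a2, b0, b1, b2⟩ := LQ.E4 D hS
  obtain ⟨m', hm'⟩ := LQ.MB_exMer hS
  obtain ⟨m, hm⟩ := LQ.MB_exMer (D.hc 0)
  have hmu : Θ (LQ.cls m') = mu := by
    rw [← LQ.MB_mer D hS 0 m m' hm hm', hΘ, t.mer 0 m hm, of_tMu]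
  have fixmu : ∀ α : Path (LK.mkK hS) (LK.mkK hS), conjT Θ (trE hS α) mu = mu := by
    intro α
    rw [← hmu, conjT_apply, trE_apply, LQ.T9_mer hS hS α m' m' hm' hm']
  let q01 : Path (LK.mkK hS) (LK.mkK hS) := (p01.map LK.K1_forget).cast h0.symm h0.symm
  let q12 : Path (LK.mkK hS) (LK.mkK hS) := (p12.map LK.K1_forget).cast h0.symm h0.symm
  obtain ⟨c, d, hc, hd, hne⟩ := Last_dat t hS Θ hΘ (trE hS q01) (trE hS q12) a0 a1 a2 b0 b1 b2
  refine ⟨?_, ?_⟩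
  · exact Asm_obs' (g := LK.mkK hS) (fun α => conjT Θ (trE hS α))
      (fun α β => by rw [trE_trans, conjT_mul]) (fun α β h => by rw [trE_hom hS α β h])
      fixmu hc hd hne hZ
  · refine Asm_obs' (g := x0)
      (fun α => conjT Θ (trE hS ((α.map LK.K1_forget).cast h0.symm h0.symm)))
      (fun α β => ?_) (fun α β h => ?_) (fun α => fixmu _) (p := p01) (q := p12) hc hd hne hZ
    · rw [← conjT_mul, ← trE_trans]
      congr 2
      ext s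
      simp only [Path.cast_coe, Path.map_trans, Path.trans_apply]
    · congr 1
      apply trE_hom
      have h1 : (α.map LK.K1_forget).Homotopic (β.map LK.K1_forget) :=
        h.map ⟨LK.forget, LK.K1_forget⟩
      obtain ⟨H⟩ := h1
      exact ⟨H.cast (by ext; rfl) (by ext; rfl)⟩

end RQ
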