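import Pool.Agent.H64.LK.Defs

/-!
# Rational retracts (helper34, MP_fbf562_gt)

The rational homotopy category as the localisation of the category of topological spaces at the
maps which induce isomorphisms on singular homology with rational coefficients, and retracts
in it.
-/

open CategoryTheory

namespace RQ

/-- Singular homology with rational coefficients in degree `n`. -/
noncomputable abbrev HQ (n : ℕ) : TopCat.{0} ⥤ ModuleCat.{0} ℚ :=
  (AlgebraicTopology.singularHomologyFunctor (ModuleCat.{0} ℚ) n).obj (ModuleCat.of ℚ ℚ)

/-- The rational equivalences: the continuous maps which induce isomorphisms on singular homology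
with rational coefficients in every degree. -/
def ratIso : MorphismProperty TopCat.{0} := fun _ _ f => ∀ n : ℕ, IsIso ((HQ n).map f)

/-- `X` is a retract of `Z` in the category obtained from the category of topological spaces by
inverting the maps in the class `S`. -/
def RetractIn (S : MorphismProperty TopCat.{0}) (X Z : Type) [TopologicalSpace X]
    [TopologicalSpace Z] : Prop :=
  Nonempty (Retract (S.Q.obj (TopCat.of X)) (S.Q.obj (TopCat.of Z)))

end RQ
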