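import Pool.Agent.H34.RQ.T0a

/-!
# T0 (helper34, MP_fbf562_RQ): elements conjugating powers of the meridian into powers of the meridian

Notation as in T0a: `A = {z ^ n}` central, `|g| = (ty g).length`, `m = (q + 1) / 2`.

`T0_pos` : `k : ℕ`, `k > 0`, `μ ^ k u = u μ ^ l z ^ s`. By `T0a_len`, `l = k` or `l = -k`. Let `n = |u|`.

* `n = 0` : `u = z ^ b`. Cancel `u` (central): `μ ^ k = μ ^ l z ^ s`. If `l = k`: `z ^ s = 1`, the degree (`tDeg_Z`) gives `2 q s = 0`, `s = 0`,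
  done with `u = μ ^ 0 z ^ b`. If `l = -k`: `μ ^ (2 k) = z ^ s ∈ A` has type `[]`, but `|μ ^ (2 k)| = 4 k > 0`, contradiction.
* `n ≥ 1`, let `e` be the last element of `ty u`. Take `N = n * k` or any `N'` with `k N' ≥ n` (e.g. `N' = n`), `N = k N'`. By
  `T0a_pow`: `μ ^ N u = u μ ^ (N' l) z ^ (N' s)`; and for the inverse: from `μ ^ (-k) u = u μ ^ (-l) z ^ (-s)` (multiply the
  hypothesis by `μ ^ (-k)` on the left and by `μ^(-l) z^(-s)` on the right) `μ⁻¹ ^ N u = u μ ^ (-N' l) z ^ (- N' s)`.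
  Note `|μ ^ (± N' l) z ^ _| = 2 N` (`ty_right`).
  - Case `l = k`, `e = true`: `y = μ ^ N z ^ _` has type `alt false (2 N)`, starting with `false ≠ e`, so
    `ty (u * y) = ty u ++ ty y` (`ty_mul`). `T0a_pp`: `u = pp q n * z ^ b`. As `ty u = alt false n` (`ty_pp`, `ty_right`) ends with `true`, `n` is
    even (`alt_getLast`), so `pp q n = μ ^ (n / 2)`. Then `s = 0` from the degree of the hypothesis with `l = k`:
    `k + deg u = deg u + k + 2 q s`.
  - Case `l = k`, `e = false`: `y = μ ^ (-N) z ^ _` of type `alt true (2 N)`; `T0a_pm`: `u = pm q n * z ^ b`, `ty u = alt true n` ends with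
    `false`, so `n` is even, `pm q n = μ ^ (-(n / 2))`. `s = 0` as before.
  - Case `l = -k`, `e = false`: `y = μ ^ (N' l) z ^ _ = μ⁻¹ ^ N z ^ _` starts with `true ≠ e`; `T0a_pp`: `u = pp q n z ^ b`, `ty u = alt false n` ends with
    `false`, so `n` is odd, `u = μ ^ j a ^ m z ^ b`. Substituting in `μ ^ k u = u μ ^ (-k) z ^ s` and cancelling:
    `μ ^ k a ^ m = a ^ m μ ^ (-k) z ^ s`, contradiction by `T0_no1`.
  - Case `l = -k`, `e = true`: `y = μ ^ N z ^ _` starts with `false ≠ e`, use the inverse equation `μ⁻¹ ^ N u = u y`; `T0a_pm`: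
    `u = pm q n z ^ b`, `ty u = alt true n` ends with `true`: `n` odd, `u = μ ^ (-j) b z ^ b'`; so
    `μ ^ k b = b μ ^ (-k) z ^ s`, contradiction by `T0_no2`.

`T0_no` : `(b⁻¹ a ^ m) ^ k = (b a ^ (-m)) ^ k z ^ s`, `k ≥ 1`, is impossible: both `g = b⁻¹ a ^ m` and `h = b a ^ (-m)` have
type `[true, false]`, and `x = g ^ k` (type `alt true (2 k)`, `|g⁻¹ x| = |g ^ (k - 1)| = 2 k - 2`), and `h⁻¹ x = h ^ (k-1) z ^ s` of length
`2 k - 2` as well; `ty_prefix` gives `g⁻¹ h = a ^ (-m) b ^ 2 a ^ (-m) = z a ^ (-2 m) ∈ A`, so `a ^ (-2 m) ∈ A`, `q ∣ 2 m = q + 1`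
(`tA_zpow_mem`), contradiction with `q ≥ 3`.

`T0_no1` : `μ ^ k a ^ m = a ^ m μ ^ (-k) z ^ s`: conjugate by `a ^ m`: `a ^ (-m) (a ^ m b⁻¹) ^ k a ^ m = (b⁻¹ a ^ m) ^ k`, and
`μ ^ (-k) = (b a ^ (-m)) ^ k`: contradiction with `T0_no`.

`T0_no2` : `μ ^ k b = b μ ^ (-k) z ^ s`: `b⁻¹ (a ^ m b⁻¹) ^ k b = (b⁻¹ a ^ m) ^ k`: the same.

`T0` : general `k`. If `k = 0`: `n ≠ 0`, `u⁻¹ z ^ n u = z ^ n = μ ^ l`: type `[]`, so `2 |l| = 0`, `l = 0`, `z ^ n = 1`, degree: `n = 0`, contradiction.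
If `k > 0`: `μ ^ k u = u μ ^ l z ^ (-n)`: `T0_pos`. If `k < 0`: invert: `μ ^ (-k) u = u μ ^ (-l) z ^ n`: `T0_pos` for `-k`.
-/

namespace RQ

open Monoid

theorem T0_zmem {q : ℤ} (s : ℤ) : tZ q ^ s ∈ Am (torPhi q) := (mem_Am_TG q _).2 ⟨s, rfl⟩

theorem T0_zc {q : ℤ} (s : ℤ) (u : TG q) : u * tZ q ^ s = tZ q ^ s * u :=
  ((tZ_comm q u).zpow_left s).eq.symm

theorem T0_powty {q : ℤ} (hφ : Inj (torPhi q)) {g : TG q} (hg : ty g = [true, false]) (k : ℕ) :
    ty (g ^ k) = alt true (2 * k) := by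
  induction k with
  | zero =>
    rw [pow_zero, (ty_nil hφ 1).2 (one_mem _)]
    rfl
  | succ k ih =>
    have h1 : alt true (2 * (k + 1)) = [true, false] ++ alt true (2 * k) := by
      have h2 := alt_add_even true 1 (2 * k)
      rw [show 2 * (k + 1) = 2 * 1 + 2 * k by ring, h2]
      rfl
    rw [pow_succ', ty_mul hφ, hg, ih, h1]
    rw [hg, ih, ← h1]
    exact alt_chain _ _

theorem T0_tyam {q : ℤ} (h3 : 3 ≤ q) : ty (tA q ^ ((q + 1) / 2)) = [false] := by
  refine ty_tA (by omega) ?_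
  intro h
  have := Int.le_of_dvd (by omega) h
  omega

theorem T0_tyb {q : ℤ} (h3 : 3 ≤ q) : ty (tB q) = [true] := by
  have h := ty_tB (q := q) (by omega) (n := 1) (by norm_num)
  rwa [zpow_one] at h

theorem T0_dvd {q : ℤ} (h3 : 3 ≤ q) (hq : Odd q) : ¬ q ∣ -(2 * ((q + 1) / 2)) := by
  intro h
  obtain ⟨m, hm⟩ := hq
  have h1 : 2 * ((q + 1) / 2) = q + 1 := by omega
  rw [h1, dvd_neg] at h
  have h2 := (Int.dvd_add_right (dvd_refl q)).1 h
  have := Int.le_of_dvd one_pos h2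
  omega

theorem T0_no {q : ℤ} (h3 : 3 ≤ q) (hq : Odd q) {k : ℕ} (hk : 0 < k) {s : ℤ}
    (h : ((tB q)⁻¹ * tA q ^ ((q + 1) / 2)) ^ k = (tB q * (tA q ^ ((q + 1) / 2))⁻¹) ^ k * tZ q ^ s) :
    False := by
  have hφ : Inj (torPhi q) := torPhi_inj (by omega)
  set am := tA q ^ ((q + 1) / 2) with ham
  have h1 : ty ((tB q)⁻¹ * am) = [true, false] := by
    have e1 : ty (tB q)⁻¹ = [true] := by rw [ty_inv hφ, T0_tyb h3]; rfl
    rw [ty_mul hφ, e1, T0_tyam h3]
    · rfl
    · rw [e1, T0_tyam h3]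
      simp
  have h2 : ty (tB q * am⁻¹) = [true, false] := by
    have e1 : ty am⁻¹ = [false] := by rw [ty_inv hφ, T0_tyam h3]; rfl
    rw [ty_mul hφ, e1, T0_tyb h3]
    · rfl
    · rw [e1, T0_tyb h3]
      simp
  obtain ⟨j, rfl⟩ := Nat.exists_eq_succ_of_ne_zero hk.ne'
  set g := (tB q)⁻¹ * am with hg
  set g' := tB q * am⁻¹ with hg'
  have e1 : g⁻¹ * g ^ (j + 1) = g ^ j := by rw [pow_succ', inv_mul_cancel_left]
  have e2 : g'⁻¹ * g ^ (j + 1) = g' ^ j * tZ q ^ s := by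
    rw [Nat.succ_eq_add_one] at h
    rw [h, pow_succ', mul_assoc g', inv_mul_cancel_left]
  have l0 : (ty (g ^ (j + 1))).length = 2 * (j + 1) := by
    rw [T0_powty hφ h1, alt_length]
  have l1 : (ty (g⁻¹ * g ^ (j + 1))).length = 2 * j := by
    rw [e1, T0_powty hφ h1, alt_length]
  have l2 : (ty (g'⁻¹ * g ^ (j + 1))).length = 2 * j := by
    rw [e2, ty_right hφ _ (T0_zmem s), T0_powty hφ h2, alt_length]
  have hmem := ty_prefix hφ (g := g) (h := g') (x := g ^ (j + 1))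
    (by rw [l0, l1, h1]; simp; ring) (by rw [l0, l2, h2]; simp; ring) (by rw [h1, h2])
  have h4 : g⁻¹ * g' = tZ q * tA q ^ (-(2 * ((q + 1) / 2))) := by
    have e3 : g⁻¹ * g' = am⁻¹ * (tB q ^ 2) * am⁻¹ := by
      rw [hg, hg', mul_inv_rev, inv_inv, pow_two]
      simp only [mul_assoc]
    rw [e3, tB_sq, (tZ_comm q am⁻¹).symm.eq, mul_assoc, ham, ← zpow_neg, ← zpow_add]
    congr 2
    ring
  rw [h4] at hmem
  have h5 := (Am (torPhi q)).mul_mem ((Am (torPhi q)).inv_mem (T0_zmem (q := q) 1)) hmem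
  rw [zpow_one, inv_mul_cancel_left] at h5
  exact T0_dvd h3 hq ((tA_zpow_mem (by omega) _).1 h5)

theorem T0_muinv (q : ℤ) : (tMu q)⁻¹ = tB q * (tA q ^ ((q + 1) / 2))⁻¹ := by
  unfold tMu
  group

theorem T0_no1 {q : ℤ} (h3 : 3 ≤ q) (hq : Odd q) {k : ℕ} (hk : 0 < k) {s : ℤ}
    (h : tMu q ^ k * tA q ^ ((q + 1) / 2) =
      tA q ^ ((q + 1) / 2) * ((tMu q)⁻¹ ^ k * tZ q ^ s)) : False := by
  apply T0_no h3 hq hk (s := s)
  rw [← T0_muinv]
  have h1 : (tB q)⁻¹ * tA q ^ ((q + 1) / 2) =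
      (tA q ^ ((q + 1) / 2))⁻¹ * tMu q * ((tA q ^ ((q + 1) / 2))⁻¹)⁻¹ := by
    unfold tMu
    group
  rw [h1, conj_pow, inv_inv, mul_assoc, h, inv_mul_cancel_left]

theorem T0_no2 {q : ℤ} (h3 : 3 ≤ q) (hq : Odd q) {k : ℕ} (hk : 0 < k) {s : ℤ}
    (h : tMu q ^ k * tB q = tB q * ((tMu q)⁻¹ ^ k * tZ q ^ s)) : False := by
  apply T0_no h3 hq hk (s := s)
  rw [← T0_muinv]
  have h1 : (tB q)⁻¹ * tA q ^ ((q + 1) / 2) = (tB q)⁻¹ * tMu q * ((tB q)⁻¹)⁻¹ := by
    unfold tMu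
    group
  rw [h1, conj_pow, inv_inv, mul_assoc, h, inv_mul_cancel_left]

theorem T0_chain {l : List Bool} (hl : l.IsChain (· ≠ ·)) {e : Bool} (he : l.getLast? = some (!e))
    (M : ℕ) : (l ++ alt e M).IsChain (· ≠ ·) := by
  rw [List.isChain_append]
  refine ⟨hl, alt_chain _ _, ?_⟩
  intro x hx y hy
  rw [he] at hx
  cases M with
  | zero => simp [alt] at hy
  | succ M =>
    simp only [alt, List.head?_cons, Option.mem_def, Option.some.injEq] at hx hy
    subst hx hy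
    cases e <;> decide

theorem T0_keyp {q : ℤ} (h3 : 3 ≤ q) (hq : Odd q) {u y : TG q} {N : ℕ}
    (hN : (ty u).length ≤ 2 * N) (h : tMu q ^ N * u = u * y) {e : Bool}
    (hy : ty y = alt e (2 * N)) (he : (ty u).getLast? = some (!e)) :
    ∃ b : ℤ, u = pp q (ty u).length * tZ q ^ b := by
  have hφ : Inj (torPhi q) := torPhi_inj (by omega)
  have h1 : ty (u * y) = ty u ++ ty y := by
    apply ty_mul hφ
    rw [hy]
    exact T0_chain (ty_chain u) he _
  have h2 := T0a_pp h3 hq hN h (by rw [h1, List.length_append]) (by rw [hy, alt_length])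
  obtain ⟨c, hc⟩ := (mem_Am_TG q _).1 h2
  refine ⟨-c, ?_⟩
  rw [inv_mul_eq_iff_eq_mul] at hc
  rw [hc, mul_assoc, ← zpow_add, add_neg_cancel, zpow_zero, mul_one]

theorem T0_keym {q : ℤ} (h3 : 3 ≤ q) (hq : Odd q) {u y : TG q} {N : ℕ}
    (hN : (ty u).length ≤ 2 * N) (h : (tMu q)⁻¹ ^ N * u = u * y) {e : Bool}
    (hy : ty y = alt e (2 * N)) (he : (ty u).getLast? = some (!e)) :
    ∃ b : ℤ, u = pm q (ty u).length * tZ q ^ b := by
  have hφ : Inj (torPhi q) := torPhi_inj (by omega)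
  have h1 : ty (u * y) = ty u ++ ty y := by
    apply ty_mul hφ
    rw [hy]
    exact T0_chain (ty_chain u) he _
  have h2 := T0a_pm h3 hq hN h (by rw [h1, List.length_append]) (by rw [hy, alt_length])
  obtain ⟨c, hc⟩ := (mem_Am_TG q _).1 h2
  refine ⟨-c, ?_⟩
  rw [inv_mul_eq_iff_eq_mul] at hc
  rw [hc, mul_assoc, ← zpow_add, add_neg_cancel, zpow_zero, mul_one]

/-- the exponents of the powers -/
theorem T0_tyN {q : ℤ} (h3 : 3 ≤ q) (hq : Odd q) (N : ℕ) (s : ℤ) :
    ty (tMu q ^ ((N : ℕ) : ℤ) * tZ q ^ s) = alt false (2 * N) ∧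
      ty (tMu q ^ (-((N : ℕ) : ℤ)) * tZ q ^ s) = alt true (2 * N) := by
  have hφ : Inj (torPhi q) := torPhi_inj (by omega)
  constructor
  · rw [ty_right hφ _ (T0_zmem s), zpow_natCast, ty_muPow h3 hq]
  · rw [ty_right hφ _ (T0_zmem s), zpow_neg, zpow_natCast, ← inv_pow, ty_muInvPow h3 hq]

theorem T0_pos {q : ℤ} (h3 : 3 ≤ q) (hq : Odd q) {k : ℕ} (hk : 0 < k) {l s : ℤ} {u : TG q}
    (h : tMu q ^ (k : ℤ) * u = u * (tMu q ^ l * tZ q ^ s)) :
    l = k ∧ s = 0 ∧ ∃ a b : ℤ, u = tMu q ^ a * tZ q ^ b := by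
  have hφ : Inj (torPhi q) := torPhi_inj (by omega)
  have hlen := T0a_len h3 hq h
  rw [Int.natAbs_natCast] at hlen
  have hlk : l = k ∨ l = -k := by
    rcases Int.natAbs_eq l with h1 | h1 <;> rw [hlen] at h1
    · exact Or.inl h1
    · exact Or.inr h1
  -- the degree
  have hdeg : (k : ℤ) = l + 2 * q * s := by
    have h1 := congrArg (tDeg q) h
    rw [map_mul, map_mul, tDeg_muZ hq, mul_comm (tDeg q u)] at h1
    have h2 := mul_right_cancel h1
    have h3' := tDeg_muZ hq (k : ℤ) 0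
    rw [zpow_zero, mul_one, mul_zero, add_zero] at h3'
    rw [h3'] at h2
    exact Multiplicative.ofAdd.injective h2
  have hs0 : l = k → s = 0 := by
    intro h1
    rw [h1] at hdeg
    have h2 : 2 * q * s = 0 := by linarith
    rcases mul_eq_zero.1 h2 with h4 | h4
    · omega
    · exact h4
  by_cases hn : ty u = []
  · obtain ⟨b, rfl⟩ := (mem_Am_TG q u).1 ((ty_nil hφ u).1 hn)
    rw [T0_zc b (tMu q ^ (k : ℤ))] at h
    have h1 := mul_left_cancel h
    rcases hlk with h2 | h2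
    · exact ⟨h2, hs0 h2, 0, b, by rw [zpow_zero, one_mul]⟩
    · exfalso
      rw [h2] at h1
      have h4 : tMu q ^ (((2 * k : ℕ)) : ℤ) = tZ q ^ s := by
        have e1 : (((2 * k : ℕ)) : ℤ) = (k : ℤ) + k := by push_cast; ring
        rw [e1, zpow_add]
        nth_rewrite 2 [h1]
        rw [← mul_assoc, ← zpow_add, add_neg_cancel, zpow_zero, one_mul]
      have h5 := (T0_tyN h3 hq (2 * k) 0).1
      rw [zpow_zero, mul_one, h4, (ty_nil hφ _).2 (T0_zmem s)] at h5
      have h6 := congrArg List.length h5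
      rw [alt_length, List.length_nil] at h6
      omega
  · set n := (ty u).length with hnd
    have hn0 : 0 < n := List.length_pos_of_ne_nil hn
    have hne : ∃ e, (ty u).getLast? = some e := by
      obtain ⟨e, he⟩ := List.getLast?_isSome.2 hn |> Option.isSome_iff_exists.1
      exact ⟨e, he⟩
    obtain ⟨e, he⟩ := hne
    -- the two equations
    have hN : n ≤ 2 * (n * k) := by nlinarith
    have eq1 := T0a_pow h n
    have h' : tMu q ^ (-(k : ℤ)) * u = u * (tMu q ^ (-l) * tZ q ^ (-s)) := by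
      have e1 : u = tMu q ^ (-(k : ℤ)) * (u * (tMu q ^ l * tZ q ^ s)) := by
        rw [← h, ← mul_assoc, ← zpow_add, neg_add_cancel, zpow_zero, one_mul]
      have e2 : tMu q ^ l * tZ q ^ s * (tMu q ^ (-l) * tZ q ^ (-s)) = 1 := by
        rw [T0_zc (-s) (tMu q ^ (-l)), ← mul_assoc, mul_assoc (tMu q ^ l), ← zpow_add,
          add_neg_cancel, zpow_zero, mul_one, ← zpow_add, add_neg_cancel, zpow_zero]
      nth_rewrite 2 [e1]
      rw [mul_assoc, mul_assoc, e2, mul_one]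
    have eq2 := T0a_pow h' n
    have c1 : (n : ℤ) * (k : ℤ) = ((n * k : ℕ) : ℤ) := by push_cast; ring
    have c2 : (n : ℤ) * (-(k : ℤ)) = -((n * k : ℕ) : ℤ) := by push_cast; ring
    rw [c1, zpow_natCast] at eq1
    rw [c2, zpow_neg, zpow_natCast, ← inv_pow] at eq2
    have hpar : ∀ c : Bool, ty u = alt c n → e = if Even (n - 1) then c else !c := by
      intro c hc
      obtain ⟨j, hj⟩ := Nat.exists_eq_succ_of_ne_zero hn0.ne'
      have h1 := alt_getLast c j
      rw [← Nat.succ_eq_add_one, ← hj, ← hc, he] at h1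
      have h2 : n - 1 = j := by omega
      rw [h2]
      exact Option.some.inj h1
    rcases hlk with h2 | h2
    · refine ⟨h2, hs0 h2, ?_⟩
      rw [h2] at eq1 eq2
      cases e with
      | true =>
        obtain ⟨b, hb⟩ := T0_keyp h3 hq (N := n * k) hN eq1 (e := false)
          (by rw [c1]; exact (T0_tyN h3 hq (n * k) _).1) he
        rw [← hnd] at hb
        have h4 := hpar false (by rw [hb, ty_right hφ _ (T0_zmem b), ty_pp h3 hq])
        have h5 : n % 2 ≠ 1 := by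
          intro h6
          rw [if_pos (by rw [Nat.even_iff]; omega)] at h4
          exact absurd h4 (by decide)
        refine ⟨((n / 2 : ℕ) : ℤ), b, ?_⟩
        rw [hb]
        unfold pp
        rw [if_neg h5, mul_one, zpow_natCast]
      | false =>
        obtain ⟨b, hb⟩ := T0_keym h3 hq (N := n * k) hN eq2 (e := true)
          (by rw [c2]; exact (T0_tyN h3 hq (n * k) _).2) he
        rw [← hnd] at hb
        have h4 := hpar true (by rw [hb, ty_right hφ _ (T0_zmem b), ty_pm h3 hq])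
        have h5 : n % 2 ≠ 1 := by
          intro h6
          rw [if_pos (by rw [Nat.even_iff]; omega)] at h4
          exact absurd h4 (by decide)
        refine ⟨-((n / 2 : ℕ) : ℤ), b, ?_⟩
        rw [hb]
        unfold pm
        rw [if_neg h5, mul_one, zpow_neg, zpow_natCast, inv_pow]
    · exfalso
      have hh := h
      rw [h2] at eq1 eq2 hh
      rw [zpow_natCast, zpow_neg, zpow_natCast, ← inv_pow] at hh
      cases e with
      | false =>
        obtain ⟨b, hb⟩ := T0_keyp h3 hq (N := n * k) hN eq1 (e := true)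
          (by rw [c2]; exact (T0_tyN h3 hq (n * k) _).2) he
        rw [← hnd] at hb
        have h4 := hpar false (by rw [hb, ty_right hφ _ (T0_zmem b), ty_pp h3 hq])
        have h5 : n % 2 = 1 := by
          by_contra h6
          rw [if_neg (by rw [Nat.even_iff]; omega)] at h4
          exact absurd h4 (by decide)
        have h6 : pp q n = tMu q ^ (n / 2) * tA q ^ ((q + 1) / 2) := by
          unfold pp
          rw [if_pos h5]
        rw [h6] at hb
        apply T0_no1 h3 hq hk (s := s)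
        rw [hb] at hh
        have h7 : tMu q ^ (n / 2) * (tMu q ^ k * tA q ^ ((q + 1) / 2)) * tZ q ^ b =
            tMu q ^ (n / 2) * (tA q ^ ((q + 1) / 2) * ((tMu q)⁻¹ ^ k * tZ q ^ s)) * tZ q ^ b := by
          have e1 : tMu q ^ (n / 2) * (tMu q ^ k * tA q ^ ((q + 1) / 2)) * tZ q ^ b =
              tMu q ^ k * (tMu q ^ (n / 2) * tA q ^ ((q + 1) / 2) * tZ q ^ b) := by
            rw [← mul_assoc, ← mul_assoc, ← mul_assoc, ← pow_add, ← pow_add, add_comm]
          rw [e1, hh]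
          simp only [mul_assoc]
          rw [← T0_zc b ((tMu q)⁻¹ ^ k * tZ q ^ s)]
          simp only [mul_assoc]
        exact mul_left_cancel (mul_right_cancel h7)
      | true =>
        have c3 : (n : ℤ) * (-(-(k : ℤ))) = ((n * k : ℕ) : ℤ) := by push_cast; ring
        obtain ⟨b, hb⟩ := T0_keym h3 hq (N := n * k) hN eq2 (e := false)
          (by rw [c3]; exact (T0_tyN h3 hq (n * k) _).1) he
        rw [← hnd] at hb
        have h4 := hpar true (by rw [hb, ty_right hφ _ (T0_zmem b), ty_pm h3 hq])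
        have h5 : n % 2 = 1 := by
          by_contra h6
          rw [if_neg (by rw [Nat.even_iff]; omega)] at h4
          exact absurd h4 (by decide)
        have h6 : pm q n = (tMu q)⁻¹ ^ (n / 2) * tB q := by
          unfold pm
          rw [if_pos h5]
        rw [h6] at hb
        apply T0_no2 h3 hq hk (s := s)
        rw [hb] at hh
        have h7 : (tMu q)⁻¹ ^ (n / 2) * (tMu q ^ k * tB q) * tZ q ^ b =
            (tMu q)⁻¹ ^ (n / 2) * (tB q * ((tMu q)⁻¹ ^ k * tZ q ^ s)) * tZ q ^ b := by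
          have e1 : (tMu q)⁻¹ ^ (n / 2) * (tMu q ^ k * tB q) * tZ q ^ b =
              tMu q ^ k * ((tMu q)⁻¹ ^ (n / 2) * tB q * tZ q ^ b) := by
            have e2 : (tMu q)⁻¹ ^ (n / 2) * tMu q ^ k = tMu q ^ k * (tMu q)⁻¹ ^ (n / 2) :=
              (((Commute.refl (tMu q)).inv_left).pow_pow _ _).eq
            rw [← mul_assoc, e2]
            simp only [mul_assoc]
          rw [e1, hh]
          simp only [mul_assoc]
          rw [← T0_zc b ((tMu q)⁻¹ ^ k * tZ q ^ s)]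
          simp only [mul_assoc]
        exact mul_left_cancel (mul_right_cancel h7)

theorem T0 {q : ℤ} (h3 : 3 ≤ q) (hq : Odd q) {k n l : ℤ} {u : TG q}
    (h : u⁻¹ * (tMu q ^ k * tZ q ^ n) * u = tMu q ^ l) (hkn : k ≠ 0 ∨ n ≠ 0) :
    n = 0 ∧ l = k ∧ ∃ a b : ℤ, u = tMu q ^ a * tZ q ^ b := by
  have hφ : Inj (torPhi q) := torPhi_inj (by omega)
  have h1 : tMu q ^ k * u = u * (tMu q ^ l * tZ q ^ (-n)) := by
    have e1 : tMu q ^ k * tZ q ^ n * u = u * tMu q ^ l := by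
      rw [mul_assoc, inv_mul_eq_iff_eq_mul] at h
      exact h
    have e2 : tMu q ^ k * u = tMu q ^ k * tZ q ^ n * u * tZ q ^ (-n) := by
      rw [mul_assoc (tMu q ^ k), ← T0_zc n u, mul_assoc, mul_assoc, ← zpow_add, add_neg_cancel,
        zpow_zero, mul_one]
    rw [e2, e1, mul_assoc]
  rcases lt_trichotomy k 0 with hk | hk | hk
  · have h2 : tMu q ^ (-k) * u = u * (tMu q ^ (-l) * tZ q ^ n) := by
      have e1 : u = tMu q ^ (-k) * (u * (tMu q ^ l * tZ q ^ (-n))) := by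
        rw [← h1, ← mul_assoc, ← zpow_add, neg_add_cancel, zpow_zero, one_mul]
      have e2 : tMu q ^ l * tZ q ^ (-n) * (tMu q ^ (-l) * tZ q ^ n) = 1 := by
        rw [T0_zc n (tMu q ^ (-l)), ← mul_assoc, mul_assoc (tMu q ^ l), ← zpow_add,
          neg_add_cancel, zpow_zero, mul_one, ← zpow_add, add_neg_cancel, zpow_zero]
      nth_rewrite 2 [e1]
      rw [mul_assoc, mul_assoc, e2, mul_one]
    obtain ⟨j, hj⟩ := Int.eq_ofNat_of_zero_le (by omega : 0 ≤ -k)
    rw [hj] at h2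
    obtain ⟨h4, h5, h6⟩ := T0_pos h3 hq (k := j) (by omega) h2
    exact ⟨h5, by omega, h6⟩
  · exfalso
    rw [hk, zpow_zero, one_mul, T0_zc n, mul_assoc] at h
    have e1 : tZ q ^ n = tMu q ^ l := by
      rw [hk, zpow_zero, one_mul] at h1
      have e2 := mul_left_cancel ((mul_one u).trans h1)
      have e3 : tMu q ^ l * tZ q ^ (-n) * tZ q ^ n = tZ q ^ n := by rw [← e2, one_mul]
      rw [mul_assoc, ← zpow_add, neg_add_cancel, zpow_zero, mul_one] at e3
      exact e3.symm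
    have h4 : (ty (tZ q ^ n)).length = (ty (tMu q ^ l)).length := by rw [e1]
    rw [(ty_nil hφ _).2 (T0_zmem n), T0a_lenMu h3 hq, List.length_nil] at h4
    have hl : l = 0 := by omega
    rw [hl, zpow_zero] at e1
    have h5 := tDeg_muZ hq 0 n
    rw [zpow_zero, one_mul, e1, map_one] at h5
    have h6 := Multiplicative.ofAdd.injective (ofAdd_zero.trans h5)
    have h7 : 2 * q * n = 0 := by linarith
    rcases mul_eq_zero.1 h7 with h8 | h8
    · omega
    · rcases hkn with h9 | h9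
      · exact h9 hk
      · exact h9 h8
  · obtain ⟨j, hj⟩ := Int.eq_ofNat_of_zero_le hk.le
    rw [hj] at h1 ⊢
    obtain ⟨h4, h5, h6⟩ := T0_pos h3 hq (k := j) (by omega) h1
    exact ⟨by omega, h4, h6⟩

end RQ
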