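import Pool.Agent.H34.RQ.TL

/-!
# T0a (helper34, MP_fbf562_RQ): elements conjugating powers of the meridian, first half

Notation `|g| = (ty g).length`, `A = Am (torPhi q) = {z ^ n}` central.

`T0a_pow` : from `μ ^ k u = u μ ^ l z ^ s` by induction `μ ^ (N k) u = u μ ^ (N l) z ^ (N s)` (`z` central, `tZ_comm`).

`T0a_len` : `|l| = k`. First `|μ ^ l| = 2 |l|` for `l : ℤ` (`ty_muPow` for `l ≥ 0`, `ty_muInvPow` for `l ≤ 0`). By `T0a_pow`,
`μ ^ (N k) = u (μ ^ (N l) z ^ (N s)) u⁻¹`, so by `ty_len_le`, `ty_inv`, `ty_right`: `2 N k ≤ 2 |u| + 2 N |l|` and in the same way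
`2 N |l| ≤ 2 |u| + 2 N k` for all `N : ℕ`. Taking `N = |u| + 1`: `k ≤ |l|` and `|l| ≤ k` (otherwise the difference is at least
`2 N > 2 |u|`).

`T0a_prefix` (the key): let `n = |u| ≥ 1`, `σ = ±1` given as: `x = w ^ N u = u w' ^ N z ^ e`, where `w = μ ^ k` or `μ ^ (-k)`. Statement:
if `c : TG q` with `c ^ N`... see the statements below: `T0a_pp`: if `N` with `n ≤ 2 N`, `μ ^ N * u = u * y`, `|u * y| = |u| + |y|`,
`|y| = 2 N`, then `u⁻¹ * pp q n ∈ A`. Proof: `x = μ ^ N u = u y`; `|x| = n + 2 N`. `u` is a prefix: `|u⁻¹ x| = |y| = 2 N`. `p = pp q n` is a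
prefix: `p⁻¹ x = (p⁻¹ μ ^ N) u` has length at most `(2 N - n) + n = 2 N` (`pp_prefix`, `ty_len_le`), and
`|x| = |p (p⁻¹ x)| ≤ n + |p⁻¹ x|`, so `|p⁻¹ x| = 2 N`. `ty_prefix` with `g = u`, `h = p`. Same for `pm`.
-/

namespace RQ

open Monoid

theorem T0a_pow {q : ℤ} {k l s : ℤ} {u : TG q}
    (h : tMu q ^ k * u = u * (tMu q ^ l * tZ q ^ s)) (N : ℕ) :
    tMu q ^ (N * k) * u = u * (tMu q ^ (N * l) * tZ q ^ (N * s)) := by
  have h1 : SemiconjBy u (tMu q ^ l * tZ q ^ s) (tMu q ^ k) := h.symm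
  have h2 := (h1.pow_right N).eq
  have hc : Commute (tMu q ^ l) (tZ q ^ s) := ((tZ_comm q (tMu q)).symm.zpow_left l).zpow_right s
  rw [hc.mul_pow] at h2
  rw [mul_comm (N : ℤ) k, mul_comm (N : ℤ) l, mul_comm (N : ℤ) s, zpow_mul, zpow_mul, zpow_mul,
    zpow_natCast, zpow_natCast, zpow_natCast]
  exact h2.symm

theorem T0a_lenMu {q : ℤ} (h3 : 3 ≤ q) (hq : Odd q) (l : ℤ) :
    (ty (tMu q ^ l)).length = 2 * l.natAbs := by
  obtain ⟨n, rfl | rfl⟩ := l.eq_nat_or_neg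
  · rw [zpow_natCast, ty_muPow h3 hq, alt_length]
    simp
  · rw [zpow_neg, ← inv_zpow, zpow_natCast, ty_muInvPow h3 hq, alt_length]
    simp

theorem T0a_inj {q : ℤ} (h3 : 3 ≤ q) : Inj (torPhi q) := torPhi_inj (by omega)

theorem T0a_lenMuZ {q : ℤ} (h3 : 3 ≤ q) (hq : Odd q) (l s : ℤ) :
    (ty (tMu q ^ l * tZ q ^ s)).length = 2 * l.natAbs := by
  rw [ty_right (T0a_inj h3) _ ((mem_Am_TG q _).2 ⟨s, rfl⟩), T0a_lenMu h3 hq]

theorem T0a_len {q : ℤ} (h3 : 3 ≤ q) (hq : Odd q) {k l s : ℤ} {u : TG q}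
    (h : tMu q ^ k * u = u * (tMu q ^ l * tZ q ^ s)) : l.natAbs = k.natAbs := by
  have hi := T0a_inj h3
  have hN := T0a_pow h ((ty u).length + 1)
  set N := (ty u).length + 1 with hNd
  have e1 : ((N : ℤ) * k).natAbs = N * k.natAbs := by
    rw [Int.natAbs_mul, Int.natAbs_natCast]
  have e2 : ((N : ℤ) * l).natAbs = N * l.natAbs := by
    rw [Int.natAbs_mul, Int.natAbs_natCast]
  have a1 : 2 * (N * k.natAbs) ≤ 2 * (ty u).length + 2 * (N * l.natAbs) := by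
    have h1 : tMu q ^ ((N : ℤ) * k) =
        u * (tMu q ^ ((N : ℤ) * l) * tZ q ^ ((N : ℤ) * s)) * u⁻¹ := by
      rw [← hN, mul_inv_cancel_right]
    have h2 := T0a_lenMu h3 hq ((N : ℤ) * k)
    rw [h1] at h2
    have h4 := ty_len_le hi (u * (tMu q ^ ((N : ℤ) * l) * tZ q ^ ((N : ℤ) * s))) u⁻¹
    have h5 := ty_len_le hi u (tMu q ^ ((N : ℤ) * l) * tZ q ^ ((N : ℤ) * s))
    rw [T0a_lenMuZ h3 hq] at h5
    rw [ty_inv hi, List.length_reverse] at h4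
    rw [e1] at h2
    rw [e2] at h5
    omega
  have a2 : 2 * (N * l.natAbs) ≤ 2 * (ty u).length + 2 * (N * k.natAbs) := by
    have h1 : tMu q ^ ((N : ℤ) * l) * tZ q ^ ((N : ℤ) * s) =
        u⁻¹ * (tMu q ^ ((N : ℤ) * k) * u) := by
      rw [hN, inv_mul_cancel_left]
    have h2 := T0a_lenMuZ h3 hq ((N : ℤ) * l) ((N : ℤ) * s)
    rw [h1] at h2
    have h4 := ty_len_le hi u⁻¹ (tMu q ^ ((N : ℤ) * k) * u)
    have h5 := ty_len_le hi (tMu q ^ ((N : ℤ) * k)) u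
    rw [T0a_lenMu h3 hq] at h5
    rw [ty_inv hi, List.length_reverse] at h4
    rw [e2] at h2
    rw [e1] at h5
    omega
  rcases lt_trichotomy l.natAbs k.natAbs with h1 | h1 | h1
  · exfalso
    have h2 : N * (l.natAbs + 1) ≤ N * k.natAbs := Nat.mul_le_mul_left _ h1
    rw [Nat.mul_add, Nat.mul_one] at h2
    omega
  · exact h1
  · exfalso
    have h2 : N * (k.natAbs + 1) ≤ N * l.natAbs := Nat.mul_le_mul_left _ h1
    rw [Nat.mul_add, Nat.mul_one] at h2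
    omega

/-- the common part of `T0a_pp` and `T0a_pm` -/
theorem T0a_gen {q : ℤ} (h3 : 3 ≤ q) {u y M p : TG q} {N : ℕ}
    (hN : (ty u).length ≤ 2 * N) (h : M * u = u * y)
    (h1 : (ty (u * y)).length = (ty u).length + (ty y).length) (h2 : (ty y).length = 2 * N)
    (hp : (ty p).length = (ty u).length) (hpM : (ty (p⁻¹ * M)).length = 2 * N - (ty u).length) :
    u⁻¹ * p ∈ Am (torPhi q) := by
  have hi := T0a_inj h3
  refine ty_prefix hi (x := u * y) ?_ ?_ hp.symm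
  · rw [inv_mul_cancel_left]
    exact h1
  · have h4 : p⁻¹ * (u * y) = p⁻¹ * M * u := by rw [← h, mul_assoc]
    have h5 := ty_len_le hi (p⁻¹ * M) u
    have h6 := ty_len_le hi p (p⁻¹ * (u * y))
    rw [mul_inv_cancel_left] at h6
    rw [← h4, hpM] at h5
    omega

theorem T0a_pp {q : ℤ} (h3 : 3 ≤ q) (hq : Odd q) {u y : TG q} {N : ℕ}
    (hN : (ty u).length ≤ 2 * N) (h : tMu q ^ N * u = u * y)
    (h1 : (ty (u * y)).length = (ty u).length + (ty y).length) (h2 : (ty y).length = 2 * N) :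
    u⁻¹ * pp q (ty u).length ∈ Am (torPhi q) := by
  refine T0a_gen h3 hN h h1 h2 ?_ (pp_prefix h3 hq hN)
  rw [ty_pp h3 hq, alt_length]

theorem T0a_pm {q : ℤ} (h3 : 3 ≤ q) (hq : Odd q) {u y : TG q} {N : ℕ}
    (hN : (ty u).length ≤ 2 * N) (h : (tMu q)⁻¹ ^ N * u = u * y)
    (h1 : (ty (u * y)).length = (ty u).length + (ty y).length) (h2 : (ty y).length = 2 * N) :
    u⁻¹ * pm q (ty u).length ∈ Am (torPhi q) := by
  refine T0a_gen h3 hN h h1 h2 ?_ (pm_prefix h3 hq hN)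
  rw [ty_pm h3 hq, alt_length]

end RQ
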