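import Pool.Agent.H34.RQ.Am2

/-!
# TD (helper34, MP_fbf562_RQ): degree and letters of the group `TG q = ⟨a, b | a ^ q = b ^ 2⟩`

`torPhi q false (ofAdd n) = ofAdd (q * n)`, `torPhi q true (ofAdd n) = ofAdd (2 * n)`.

* `tDeg q` : `a ↦ 2`, `b ↦ q`, `base ↦ 2 q` (the compatibility: `2 * (q n) = (2 q) n`, `q * (2 n) = (2 q) n`).
* `tBase` : `base (ofAdd n) = of false (torPhi q false (ofAdd n)) = (tA q ^ q) ^ n`.
* `tZ_comm` : the centraliser of `tZ q` contains the two factors (they are commutative and `tZ q = tA q ^ q = tB q ^ 2`, see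
  `tB_sq`) and the base; use `PushoutI.induction_on u` (`Commute.mul_right`).
* `tA_zpow_mem` : `tA q ^ n = of false (ofAdd n)`, then `of_mem_Am` and the description of the range.
* `tHom_unique` : `f a ^ q = f b ^ 2`, `f μ = f a ^ m * (f b)⁻¹` with `q = 2 m - 1`; in `ℤ` (additive notation,
  `x = f a`, `y = f b`): `q x = 2 y`, `f μ = m x - y`, so `2 f μ = (2 m - q) x = x` and `y = m x - f μ`. So `f` is determined
  by `f μ` on `a` and `b`; hom extensionality `PushoutI.hom_ext_nonempty` and `MonoidHom.ext_mint` (or direct).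
-/

namespace RQ

open Monoid

theorem TD_app (q : ℤ) (b : Bool) (n : ℤ) : torPhi q b (Multiplicative.ofAdd n) =
    Multiplicative.ofAdd ((if b then 2 else q) * n) := by
  unfold torPhi
  rw [zpowersHom_apply, toAdd_ofAdd, ← ofAdd_zsmul, smul_eq_mul, mul_comm]

theorem TD_app' (q : ℤ) (b : Bool) (n : Multiplicative ℤ) : torPhi q b n =
    Multiplicative.ofAdd ((if b then 2 else q) * Multiplicative.toAdd n) :=
  TD_app q b (Multiplicative.toAdd n)

theorem TD_one (n : ℤ) : (Multiplicative.ofAdd (1 : ℤ)) ^ n = Multiplicative.ofAdd n := by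
  rw [← ofAdd_zsmul, smul_eq_mul, mul_one]

theorem TD_pow (m n : ℤ) : (Multiplicative.ofAdd m) ^ n = Multiplicative.ofAdd (n * m) := by
  rw [← ofAdd_zsmul, smul_eq_mul]

theorem TD_A (q n : ℤ) : tA q ^ n = PushoutI.of false (Multiplicative.ofAdd n) := by
  unfold tA
  rw [← map_zpow, TD_one]

theorem TD_B (q n : ℤ) : tB q ^ n = PushoutI.of true (Multiplicative.ofAdd n) := by
  unfold tB
  rw [← map_zpow, TD_one]

theorem TD_range (q : ℤ) (b : Bool) (n : ℤ) : Multiplicative.ofAdd n ∈ (torPhi q b).range ↔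
    (if b then 2 else q) ∣ n := by
  rw [MonoidHom.mem_range]
  constructor
  · rintro ⟨m, hm⟩
    rw [TD_app'] at hm
    exact ⟨_, (Multiplicative.ofAdd.injective hm).symm⟩
  · rintro ⟨m, rfl⟩
    exact ⟨Multiplicative.ofAdd m, TD_app q b m⟩

theorem torPhi_inj {q : ℤ} (hq : q ≠ 0) : Inj (torPhi q) := by
  intro b m n h
  rw [TD_app', TD_app'] at h
  have h1 := Multiplicative.ofAdd.injective h
  have h2 : (if b = true then (2 : ℤ) else q) ≠ 0 := by
    split_ifs
    · norm_num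
    · exact hq
  exact Multiplicative.toAdd.injective (mul_left_cancel₀ h2 h1)

/-- The abelianisation of `TG q`. -/
def tDeg (q : ℤ) : TG q →* Multiplicative ℤ :=
  PushoutI.lift (fun b => zpowersHom (Multiplicative ℤ) (Multiplicative.ofAdd (if b then q else 2)))
    (zpowersHom (Multiplicative ℤ) (Multiplicative.ofAdd (2 * q))) (by
      intro b
      cases b <;> ext <;> simp [torPhi] <;> ring)

theorem tDeg_A (q : ℤ) : tDeg q (tA q) = Multiplicative.ofAdd 2 := by
  unfold tDeg tA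
  rw [PushoutI.lift_of, zpowersHom_apply, toAdd_ofAdd, zpow_one]
  rfl

theorem tDeg_B (q : ℤ) : tDeg q (tB q) = Multiplicative.ofAdd q := by
  unfold tDeg tB
  rw [PushoutI.lift_of, zpowersHom_apply, toAdd_ofAdd, zpow_one]
  rfl

theorem tDeg_mu {q : ℤ} (hq : Odd q) : tDeg q (tMu q) = Multiplicative.ofAdd 1 := by
  unfold tMu
  rw [map_mul, map_zpow, map_inv, tDeg_A, tDeg_B, TD_pow, ← ofAdd_neg, ← ofAdd_add]
  congr 1
  obtain ⟨k, rfl⟩ := hq
  omega

theorem tDeg_Z (q : ℤ) : tDeg q (tZ q) = Multiplicative.ofAdd (2 * q) := by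
  unfold tZ
  rw [map_zpow, tDeg_A, TD_pow, mul_comm]

/-- `μ ^ k z ^ n` has degree `k + 2 q n`. -/
theorem tDeg_muZ {q : ℤ} (hq : Odd q) (k n : ℤ) :
    tDeg q (tMu q ^ k * tZ q ^ n) = Multiplicative.ofAdd (k + 2 * q * n) := by
  rw [map_mul, map_zpow, map_zpow, tDeg_mu hq, tDeg_Z, TD_pow, TD_pow, ← ofAdd_add]
  congr 1
  ring

theorem tBase (q n : ℤ) : PushoutI.base (torPhi q) (Multiplicative.ofAdd n) = tZ q ^ n := by
  rw [← PushoutI.of_apply_eq_base (torPhi q) false, TD_app]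
  unfold tZ
  rw [← zpow_mul, TD_A]
  rfl

theorem TD_commA (q n : ℤ) : Commute (tZ q) (PushoutI.of false (Multiplicative.ofAdd n)) := by
  rw [← TD_A]
  unfold tZ
  exact (Commute.refl (tA q)).zpow_zpow q n

theorem TD_commB (q n : ℤ) : Commute (tZ q) (PushoutI.of true (Multiplicative.ofAdd n)) := by
  rw [← TD_B, ← tB_sq]
  exact ((Commute.refl (tB q)).pow_left 2).zpow_right n

theorem tZ_comm (q : ℤ) (u : TG q) : Commute (tZ q) u := by
  refine PushoutI.induction_on u ?_ ?_ ?_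
  · intro b n
    cases b
    · exact TD_commA q (Multiplicative.toAdd n)
    · exact TD_commB q (Multiplicative.toAdd n)
  · intro n
    have h : PushoutI.base (torPhi q) n = tZ q ^ (Multiplicative.toAdd n) :=
      tBase q (Multiplicative.toAdd n)
    rw [h]
    exact (Commute.refl (tZ q)).zpow_right _
  · intro x y hx hy
    exact hx.mul_right hy

theorem mem_Am_TG (q : ℤ) (g : TG q) : g ∈ Am (torPhi q) ↔ ∃ n : ℤ, g = tZ q ^ n := by
  unfold Am
  rw [MonoidHom.mem_range]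
  constructor
  · rintro ⟨n, rfl⟩
    exact ⟨Multiplicative.toAdd n, tBase q (Multiplicative.toAdd n)⟩
  · rintro ⟨n, rfl⟩
    exact ⟨Multiplicative.ofAdd n, tBase q n⟩

theorem tA_zpow_mem {q : ℤ} (hq : q ≠ 0) (n : ℤ) : tA q ^ n ∈ Am (torPhi q) ↔ q ∣ n := by
  rw [TD_A, of_mem_Am (torPhi_inj hq), TD_range]
  rfl

theorem tB_zpow_mem {q : ℤ} (hq : q ≠ 0) (n : ℤ) : tB q ^ n ∈ Am (torPhi q) ↔ 2 ∣ n := by
  rw [TD_B, of_mem_Am (torPhi_inj hq), TD_range]
  rfl

/-- Types of the powers of the generators (`ty_of`). -/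
theorem ty_tA {q : ℤ} (hq : q ≠ 0) {n : ℤ} (h : ¬ q ∣ n) : ty (tA q ^ n) = [false] := by
  rw [TD_A]
  refine ty_of (torPhi_inj hq) fun h1 => h ?_
  rw [TD_range] at h1
  exact h1

theorem ty_tB {q : ℤ} (hq : q ≠ 0) {n : ℤ} (h : ¬ 2 ∣ n) : ty (tB q ^ n) = [true] := by
  rw [TD_B]
  refine ty_of (torPhi_inj hq) fun h1 => h ?_
  rw [TD_range] at h1
  exact h1

theorem TD_rel (q : ℤ) (f : TG q →* Multiplicative ℤ) :
    q * Multiplicative.toAdd (f (tA q)) = 2 * Multiplicative.toAdd (f (tB q)) := by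
  have h := congrArg f (tB_sq q)
  unfold tZ at h
  rw [map_pow, map_zpow] at h
  have h1 := congrArg Multiplicative.toAdd h
  rw [toAdd_pow, toAdd_zpow, smul_eq_mul, nsmul_eq_mul] at h1
  push_cast at h1
  exact h1.symm

theorem TD_mu (q : ℤ) (f : TG q →* Multiplicative ℤ) :
    Multiplicative.toAdd (f (tMu q)) = (q + 1) / 2 * Multiplicative.toAdd (f (tA q)) -
      Multiplicative.toAdd (f (tB q)) := by
  unfold tMu
  rw [map_mul, map_zpow, map_inv, toAdd_mul, toAdd_zpow, toAdd_inv, smul_eq_mul, sub_eq_add_neg]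

theorem tHom_unique {q : ℤ} (hq : Odd q) (f g : TG q →* Multiplicative ℤ)
    (h : f (tMu q) = g (tMu q)) : f = g := by
  have f1 := TD_rel q f
  have g1 := TD_rel q g
  have f2 := TD_mu q f
  have g2 := TD_mu q g
  rw [h] at f2
  obtain ⟨k, rfl⟩ := hq
  have hk : (2 * k + 1 + 1) / 2 = k + 1 := by omega
  rw [hk] at f2 g2
  have ea : Multiplicative.toAdd (f (tA (2 * k + 1))) = Multiplicative.toAdd (g (tA (2 * k + 1))) := by
    linear_combination g1 - f1 - 2 * f2 + 2 * g2
  have eb : Multiplicative.toAdd (f (tB (2 * k + 1))) = Multiplicative.toAdd (g (tB (2 * k + 1))) := by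
    rw [ea] at f2
    linarith
  refine PushoutI.hom_ext_nonempty fun b => MonoidHom.ext_mint ?_
  cases b
  · exact Multiplicative.toAdd.injective ea
  · exact Multiplicative.toAdd.injective eb

end RQ
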