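import Pool.Agent.H34.RQ.TD

/-!
# TL (helper34, MP_fbf562_RQ): types of the powers of the meridian of `TG q`

`q ≥ 3` odd, `m = (q + 1) / 2`, `μ = a ^ m * b⁻¹`, `μ⁻¹ = b * a ^ (-m)`; `q` does not divide `m`, `-m`, `2 m = q + 1`; `2` does not
divide `±1`. So `ty (a ^ m) = ty (a ^ (-m)) = [false]`, `ty (b ^ (±1)) = [true]` and by `ty_mul` (twice)
`ty μ = [false, true]`, `ty μ⁻¹ = [true, false]`.

`alt b n` is the alternating list of length `n` starting with `b`: `alt b (m + n) = alt b m ++ alt (b or its negation) n`; the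
concatenation is a chain. `ty_muPow` by induction on `N` with `ty_mul` (the concatenation of `alt false (2 N)` and
`[false, true]` is `alt false (2 N + 2)`, which is a chain).

`ty_pp` : `n = 2 j`: it is `μ ^ j`. `n = 2 j + 1`: `ty (μ ^ j * a ^ m) = alt false (2 j) ++ [false] = alt false (2 j + 1)`.

`pp_prefix` : `n = 2 j ≤ 2 N`: `(μ ^ j)⁻¹ * μ ^ N = μ ^ (N - j)`, of length `2 N - 2 j`. `n = 2 j + 1 ≤ 2 N` so `j + 1 ≤ N`:
`(μ ^ j a ^ m)⁻¹ μ ^ N = a ^ (-m) μ ^ (N - j) = a ^ (-m) (a ^ m b⁻¹) μ ^ (N - j - 1) = b⁻¹ μ ^ (N - j - 1)` of type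
`true :: alt false (2 (N - j - 1))`, of length `1 + 2 (N - j - 1) = 2 N - n`. Similarly for `pm` with `μ⁻¹ = b a ^ (-m)`.
-/

namespace RQ

open Monoid

/-- The alternating list of length `n` starting with `b`. -/
def alt : Bool → ℕ → List Bool
  | _, 0 => []
  | b, n + 1 => b :: alt (!b) n

theorem alt_length (b : Bool) (n : ℕ) : (alt b n).length = n := by
  induction n generalizing b with
  | zero => rfl
  | succ n ih => simp [alt, ih]

theorem alt_chain (b : Bool) (n : ℕ) : (alt b n).IsChain (· ≠ ·) := by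
  induction n generalizing b with
  | zero => exact List.isChain_nil
  | succ n ih =>
    cases n with
    | zero => exact List.isChain_singleton b
    | succ n =>
      have h := ih (!b)
      show (b :: (!b) :: alt (!(!b)) n).IsChain (· ≠ ·)
      rw [List.isChain_cons_cons]
      exact ⟨by cases b <;> simp, h⟩

theorem TL_two (b : Bool) (n : ℕ) : alt b (n + 2) = b :: (!b) :: alt b n := by
  show b :: (!b) :: alt (!(!b)) n = _
  rw [Bool.not_not]

theorem alt_add_even (b : Bool) (j n : ℕ) : alt b (2 * j + n) = alt b (2 * j) ++ alt b n := by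
  induction j with
  | zero => simp [alt]
  | succ j ih =>
    rw [show 2 * (j + 1) + n = (2 * j + n) + 2 by ring, show 2 * (j + 1) = 2 * j + 2 by ring,
      TL_two, TL_two, ih]
    rfl

/-- The last element of `alt b (n + 1)`. -/
theorem alt_getLast (b : Bool) (n : ℕ) : (alt b (n + 1)).getLast? = some (if Even n then b else !b) := by
  induction n generalizing b with
  | zero => simp [alt]
  | succ n ih =>
    have h := ih (!b)
    have h1 : (alt b (n + 1 + 1)).getLast? = (alt (!b) (n + 1)).getLast? := by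
      show (b :: (!b) :: alt (!(!b)) n).getLast? = ((!b) :: alt (!(!b)) n).getLast?
      rw [List.getLast?_cons_cons]
    rw [h1, h]
    by_cases he : Even n
    · rw [if_pos he, if_neg (by rw [Nat.even_add_one]; exact fun h => h he)]
    · rw [if_neg he, if_pos (by rw [Nat.even_add_one]; exact he), Bool.not_not]

/-- The prefix of length `n` of the powers of `μ`. -/
def pp (q : ℤ) (n : ℕ) : TG q := tMu q ^ (n / 2) * (if n % 2 = 1 then tA q ^ ((q + 1) / 2) else 1)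

/-- The prefix of length `n` of the powers of `μ⁻¹`. -/
def pm (q : ℤ) (n : ℕ) : TG q := (tMu q)⁻¹ ^ (n / 2) * (if n % 2 = 1 then tB q else 1)

theorem TL_m {q : ℤ} (h3 : 3 ≤ q) (hq : Odd q) : ¬ q ∣ (q + 1) / 2 ∧ ¬ q ∣ -((q + 1) / 2) := by
  obtain ⟨k, hk⟩ := hq
  have h1 : (q + 1) / 2 = k + 1 := by omega
  rw [h1]
  have h2 : ¬ q ∣ k + 1 := by
    intro h
    have := Int.le_of_dvd (by omega) h
    omega
  exact ⟨h2, fun h => h2 ((dvd_neg).1 h)⟩

theorem TL_am {q : ℤ} (h3 : 3 ≤ q) (hq : Odd q) : ty (tA q ^ ((q + 1) / 2)) = [false] :=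
  ty_tA (by omega) (TL_m h3 hq).1

theorem TL_am' {q : ℤ} (h3 : 3 ≤ q) (hq : Odd q) : ty (tA q ^ ((q + 1) / 2))⁻¹ = [false] := by
  rw [← zpow_neg]
  exact ty_tA (by omega) (TL_m h3 hq).2

theorem TL_b {q : ℤ} (h3 : 3 ≤ q) : ty (tB q) = [true] := by
  have h := ty_tB (q := q) (by omega) (n := 1) (by omega)
  rwa [zpow_one] at h

theorem TL_b' {q : ℤ} (h3 : 3 ≤ q) : ty (tB q)⁻¹ = [true] := by
  have h := ty_tB (q := q) (by omega) (n := -1) (by omega)
  rwa [zpow_neg, zpow_one] at h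

theorem TL_one (q : ℤ) (hq : q ≠ 0) : ty (1 : TG q) = [] :=
  (ty_nil (torPhi_inj hq) 1).2 (one_mem _)

theorem TL_mu {q : ℤ} (h3 : 3 ≤ q) (hq : Odd q) : ty (tMu q) = [false, true] := by
  have hφ := torPhi_inj (show q ≠ 0 by omega)
  unfold tMu
  rw [ty_mul hφ _ _ (by rw [TL_am h3 hq, TL_b' h3]; simp), TL_am h3 hq, TL_b' h3]
  rfl

theorem TL_muInv {q : ℤ} (h3 : 3 ≤ q) (hq : Odd q) : ty (tMu q)⁻¹ = [true, false] := by
  rw [ty_inv (torPhi_inj (show q ≠ 0 by omega)), TL_mu h3 hq]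
  rfl

theorem ty_muPow {q : ℤ} (h3 : 3 ≤ q) (hq : Odd q) (N : ℕ) : ty (tMu q ^ N) = alt false (2 * N) := by
  have hφ := torPhi_inj (show q ≠ 0 by omega)
  induction N with
  | zero => rw [pow_zero, TL_one q (by omega)]; rfl
  | succ N ih =>
    have h1 : alt false (2 * (N + 1)) = alt false (2 * N) ++ [false, true] :=
      alt_add_even false N 2
    have h2 : ty (tMu q ^ N) ++ ty (tMu q) = alt false (2 * (N + 1)) := by
      rw [ih, TL_mu h3 hq, h1]
    rw [pow_succ, ty_mul hφ _ _ (by rw [h2]; exact alt_chain _ _), h2]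

theorem ty_muInvPow {q : ℤ} (h3 : 3 ≤ q) (hq : Odd q) (N : ℕ) :
    ty ((tMu q)⁻¹ ^ N) = alt true (2 * N) := by
  have hφ := torPhi_inj (show q ≠ 0 by omega)
  induction N with
  | zero => rw [pow_zero, TL_one q (by omega)]; rfl
  | succ N ih =>
    have h1 : alt true (2 * (N + 1)) = alt true (2 * N) ++ [true, false] :=
      alt_add_even true N 2
    have h2 : ty ((tMu q)⁻¹ ^ N) ++ ty (tMu q)⁻¹ = alt true (2 * (N + 1)) := by
      rw [ih, TL_muInv h3 hq, h1]
    rw [pow_succ, ty_mul hφ _ _ (by rw [h2]; exact alt_chain _ _), h2]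

theorem ty_pp {q : ℤ} (h3 : 3 ≤ q) (hq : Odd q) (n : ℕ) : ty (pp q n) = alt false n := by
  have hφ := torPhi_inj (show q ≠ 0 by omega)
  unfold pp
  rcases Nat.mod_two_eq_zero_or_one n with h | h
  · rw [if_neg (by omega), mul_one, ty_muPow h3 hq]
    congr 1
    omega
  · have h1 : ty (tMu q ^ (n / 2)) ++ ty (tA q ^ ((q + 1) / 2)) = alt false n := by
      rw [ty_muPow h3 hq, TL_am h3 hq]
      conv_rhs => rw [show n = 2 * (n / 2) + 1 by omega]
      exact (alt_add_even false (n / 2) 1).symm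
    rw [if_pos h, ty_mul hφ _ _ (by rw [h1]; exact alt_chain _ _), h1]

theorem ty_pm {q : ℤ} (h3 : 3 ≤ q) (hq : Odd q) (n : ℕ) : ty (pm q n) = alt true n := by
  have hφ := torPhi_inj (show q ≠ 0 by omega)
  unfold pm
  rcases Nat.mod_two_eq_zero_or_one n with h | h
  · rw [if_neg (by omega), mul_one, ty_muInvPow h3 hq]
    congr 1
    omega
  · have h1 : ty ((tMu q)⁻¹ ^ (n / 2)) ++ ty (tB q) = alt true n := by
      rw [ty_muInvPow h3 hq, TL_b h3]
      conv_rhs => rw [show n = 2 * (n / 2) + 1 by omega]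
      exact (alt_add_even true (n / 2) 1).symm
    rw [if_pos h, ty_mul hφ _ _ (by rw [h1]; exact alt_chain _ _), h1]

theorem pp_prefix {q : ℤ} (h3 : 3 ≤ q) (hq : Odd q) {n N : ℕ} (h : n ≤ 2 * N) :
    (ty ((pp q n)⁻¹ * tMu q ^ N)).length = 2 * N - n := by
  have hφ := torPhi_inj (show q ≠ 0 by omega)
  unfold pp
  rcases Nat.mod_two_eq_zero_or_one n with h1 | h1
  · have h2 : tMu q ^ N = tMu q ^ (n / 2) * tMu q ^ (N - n / 2) := by
      rw [← pow_add]
      congr 1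
      omega
    rw [if_neg (by omega), mul_one, h2, inv_mul_cancel_left, ty_muPow h3 hq, alt_length]
    omega
  · obtain ⟨k, hk⟩ : ∃ k, N = n / 2 + (k + 1) := ⟨N - n / 2 - 1, by omega⟩
    have h2 : (tMu q ^ (n / 2) * tA q ^ ((q + 1) / 2))⁻¹ * tMu q ^ N = (tB q)⁻¹ * tMu q ^ k := by
      rw [hk, pow_add, pow_succ', mul_inv_rev]
      have h3 : tMu q = tA q ^ ((q + 1) / 2) * (tB q)⁻¹ := rfl
      calc (tA q ^ ((q + 1) / 2))⁻¹ * (tMu q ^ (n / 2))⁻¹ * (tMu q ^ (n / 2) * (tMu q * tMu q ^ k))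
          = (tA q ^ ((q + 1) / 2))⁻¹ * tMu q * tMu q ^ k := by group
        _ = (tA q ^ ((q + 1) / 2))⁻¹ * (tA q ^ ((q + 1) / 2) * (tB q)⁻¹) * tMu q ^ k := by
            rw [← h3]
        _ = _ := by rw [inv_mul_cancel_left]
    have h4 : ty (tB q)⁻¹ ++ ty (tMu q ^ k) = alt true (2 * k + 1) := by
      rw [TL_b' h3, ty_muPow h3 hq]
      rfl
    rw [if_pos h1, h2, ty_mul hφ _ _ (by rw [h4]; exact alt_chain _ _), h4, alt_length]
    omega

theorem pm_prefix {q : ℤ} (h3 : 3 ≤ q) (hq : Odd q) {n N : ℕ} (h : n ≤ 2 * N) :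
    (ty ((pm q n)⁻¹ * (tMu q)⁻¹ ^ N)).length = 2 * N - n := by
  have hφ := torPhi_inj (show q ≠ 0 by omega)
  unfold pm
  rcases Nat.mod_two_eq_zero_or_one n with h1 | h1
  · have h2 : (tMu q)⁻¹ ^ N = (tMu q)⁻¹ ^ (n / 2) * (tMu q)⁻¹ ^ (N - n / 2) := by
      rw [← pow_add]
      congr 1
      omega
    rw [if_neg (by omega), mul_one, h2, inv_mul_cancel_left, ty_muInvPow h3 hq, alt_length]
    omega
  · obtain ⟨k, hk⟩ : ∃ k, N = n / 2 + (k + 1) := ⟨N - n / 2 - 1, by omega⟩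
    obtain ⟨ν, hν⟩ : ∃ ν, ν = (tMu q)⁻¹ := ⟨_, rfl⟩
    have h3' : ν = tB q * (tA q ^ ((q + 1) / 2))⁻¹ := by
      rw [hν]
      unfold tMu
      rw [mul_inv_rev, inv_inv]
    have h2 : (ν ^ (n / 2) * tB q)⁻¹ * ν ^ N = (tA q ^ ((q + 1) / 2))⁻¹ * ν ^ k := by
      rw [hk, pow_add, pow_succ', mul_inv_rev]
      calc (tB q)⁻¹ * (ν ^ (n / 2))⁻¹ * (ν ^ (n / 2) * (ν * ν ^ k))
          = (tB q)⁻¹ * ν * ν ^ k := by group
        _ = (tB q)⁻¹ * (tB q * (tA q ^ ((q + 1) / 2))⁻¹) * ν ^ k := by rw [← h3']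
        _ = _ := by rw [inv_mul_cancel_left]
    have h4 : ty (tA q ^ ((q + 1) / 2))⁻¹ ++ ty (ν ^ k) = alt false (2 * k + 1) := by
      rw [TL_am' h3 hq, hν, ty_muInvPow h3 hq]
      rfl
    rw [if_pos h1, ← hν, h2, ty_mul hφ _ _ (by rw [h4]; exact alt_chain _ _), h4, alt_length]
    omega

end RQ
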