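import Pool.Agent.H34.RQ.Final
import Pool.Agent.H64.LQ.GK
import Pool.Agent.H64.LQ.K2s

/-!
# Tor (helper34, MP_fbf562_RQ): the torus knot data
-/

open CategoryTheory
open scoped unitInterval

namespace RQ

open Monoid

theorem Tor_iso {P : Type} [Group P] (q : ℕ) (α β : P) (h : α ^ q = β ^ 2)
    (hg : Subgroup.closure {α, β} = ⊤)
    (hu : ∀ (Γ : Type) [Group Γ] (a b : Γ), a ^ q = b ^ 2 → ∃ F : P →* Γ, F α = a ∧ F β = b) :
    ∃ θ : P ≃* TG (q : ℤ), θ α = tA q ∧ θ β = tB q := by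
  have h0 : (tA (q : ℤ)) ^ q = (tB (q : ℤ)) ^ 2 := by
    rw [tB_sq]
    unfold tZ
    rw [zpow_natCast]
  obtain ⟨F, hFa, hFb⟩ := hu (TG (q : ℤ)) (tA q) (tB q) h0
  let G : TG (q : ℤ) →* P := PushoutI.lift
    (fun b => zpowersHom P (if b then β else α)) (zpowersHom P (α ^ q)) (by
      intro b
      cases b
      · ext
        simp [torPhi]
      · ext
        simp [torPhi, h])
  have hGa : G (tA q) = α := by
    simp [G, tA]
  have hGb : G (tB q) = β := by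
    simp [G, tB]
  have h1 : G.comp F = MonoidHom.id _ := by
    apply MonoidHom.ext
    intro y
    have hy : y ∈ Subgroup.closure {α, β} := by rw [hg]; exact Subgroup.mem_top y
    induction hy using Subgroup.closure_induction with
    | mem x hx =>
      rcases hx with rfl | hx
      · show G (F x) = x
        rw [hFa, hGa]
      · have hx' : x = β := hx
        subst hx'
        show G (F x) = x
        rw [hFb, hGb]
    | one => exact (congrArg G (map_one F)).trans (map_one G)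
    | mul x y _ _ hx hy => rw [map_mul, map_mul, hx, hy]
    | inv x _ hx => rw [map_inv, map_inv, hx]
  have h2 : F.comp G = MonoidHom.id _ := by
    apply PushoutI.hom_ext_nonempty
    intro b
    cases b
    · ext
      show F (G (tA q)) = tA q
      rw [hGa, hFa]
    · ext
      show F (G (tB q)) = tB q
      rw [hGb, hFb]
  exact ⟨MonoidHom.toMulEquiv F G h1 h2, hFa, hFb⟩

/-- The exponents as natural numbers. -/
def qn : Fin 3 → ℕ := ![3, 5, 7]

theorem qn_eq (i : Fin 3) : ((qn i : ℕ) : ℤ) = qq i := by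
  fin_cases i <;> rfl

theorem qn_odd (i : Fin 3) : Odd (qn i) := by
  fin_cases i
  · exact ⟨1, rfl⟩
  · exact ⟨2, rfl⟩
  · exact ⟨3, rfl⟩

theorem qn_ge (i : Fin 3) : 3 ≤ qn i := by
  fin_cases i <;> simp [qn]

theorem Tor_iso' {P : Type} [Group P] (q : ℕ) (q' : ℤ) (hq : (q : ℤ) = q') (α β : P)
    (h : α ^ q = β ^ 2) (hg : Subgroup.closure {α, β} = ⊤)
    (hu : ∀ (Γ : Type) [Group Γ] (a b : Γ), a ^ q = b ^ 2 → ∃ F : P →* Γ, F α = a ∧ F β = b) :
    ∃ θ : P ≃* TG q', θ (α ^ ((q + 1) / 2) * β⁻¹) = tMu q' ∧ θ (α ^ q) = tZ q' := by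
  subst hq
  obtain ⟨θ, ha, hb⟩ := Tor_iso q α β h hg hu
  refine ⟨θ, ?_, ?_⟩
  · rw [map_mul, map_inv, map_pow, ha, hb]
    unfold tMu
    congr 1
  · rw [map_pow, ha]
    unfold tZ
    rw [zpow_natCast]

theorem Tor_one (i : Fin 3) : ∃ (c : ℝ → LK.V) (hc : LK.VKnot c) (θ : LQ.PiM hc ≃* TG (qq i)),
    (∀ m : Path (LQ.xM hc) (LQ.xM hc), LQ.IsMer hc m → θ (LQ.cls m) = tMu (qq i)) ∧
    ∀ (F : LK.V → LK.V) (hF : LQ.Fat2 (LQ.cor c) F), ∃ e f : ℤ, e ≠ 0 ∧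
      θ (LQ.cls (LQ.ellM hF hc)) = tZ (qq i) ^ e * tMu (qq i) ^ f := by
  obtain ⟨c, hc, α, β, h1, h2, h3, h4, h5⟩ := LQ.GK (qn i) (qn_odd i) (qn_ge i)
  obtain ⟨θ, ha, hb⟩ := Tor_iso' (qn i) (qq i) (qn_eq i) α β h1 h2 h3
  have hm : ∀ m : Path (LQ.xM hc) (LQ.xM hc), LQ.IsMer hc m → θ (LQ.cls m) = tMu (qq i) := by
    intro m hm
    rw [← h4 m hm, ha]
  refine ⟨c, hc, θ, hm, fun F hF => ?_⟩
  obtain ⟨m, hmm⟩ := LQ.MB_exMer hc
  obtain ⟨k, e, he, h⟩ := h5 F hF m hmm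
  refine ⟨e, k, ?_, ?_⟩
  · rcases he with rfl | rfl <;> norm_num
  · rw [h, map_mul, map_zpow, map_zpow, hm m hmm, hb]
    exact (((tZ_comm (qq i) (tMu (qq i))).zpow_zpow e k).eq).symm

theorem Tor_ex : ∃ D : LQ.Tri, Nonempty (TorData D) := by
  choose c hc θ hm hl using Tor_one
  choose F hF using fun i => LQ.K2s (hc i)
  choose e f he hef using fun i => hl i (F i) (hF i)
  exact ⟨⟨c, F, hc, hF⟩, ⟨⟨θ, hm, e, f, he, hef⟩⟩⟩

end RQ
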